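import Mathlib

set_option autoImplicit false
open MeasureTheory Set Filter
open scoped Pointwise ENNReal Topology

namespace Pool.Agent.H68R3.Chu

variable {G X : Type} [Group G] [MulAction G X]

/-- points lying in infinitely many of the sets `B k` -/
def LS (B : ℕ → Set X) : Set X := {x | ∀ n, ∃ k, n ≤ k ∧ x ∈ B k}

/-- Property P: the limsup of translates of disjoint sets is null. -/
def PropP (G : Type) {X : Type} [Group G] [MulAction G X] (m : Set X → ENNReal) : Prop :=
  ∀ (A : ℕ → Set X) (g : ℕ → G), Pairwise (Function.onFun Disjoint A) →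
    m (LS fun k => g k • A k) = 0

lemma pack (A : ℕ → Set X) (g : ℕ → G) (hA : Pairwise (Function.onFun Disjoint A)) :
    ∃ B : ℕ → Set X, Pairwise (Function.onFun Disjoint B) ∧
      ∀ n, ∃ (P : ℕ → Set X) (h : ℕ → G),
        Pairwise (Function.onFun Disjoint P) ∧ (⋃ i, P i) = LS (fun k => g k • A k) ∧
        Pairwise (Function.onFun Disjoint (fun i => h i • P i)) ∧
        (⋃ i, h i • P i) = B n := by
  classical
  set L : Set X := LS (fun k => g k • A k) with hL
  let ν : ℕ → X → ℕ := fun n x => Nat.nth (fun k => x ∈ g k • A k) n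
  have hinf : ∀ x ∈ L, (setOf fun k => x ∈ g k • A k).Infinite := by
    intro x hx
    rw [Set.infinite_iff_exists_gt]
    intro n
    obtain ⟨k, hk, hxk⟩ := hx (n + 1)
    exact ⟨k, hxk, by omega⟩
  have hmem : ∀ n, ∀ x ∈ L, x ∈ g (ν n x) • A (ν n x) := fun n x hx =>
    Nat.nth_mem_of_infinite (hinf x hx) n
  have hinj : ∀ x ∈ L, Function.Injective (fun n => ν n x) := fun x hx =>
    Nat.nth_injective (hinf x hx)
  let P : ℕ → ℕ → Set X := fun n i => {x | x ∈ L ∧ ν n x = i}
  have hsub : ∀ n i, (g i)⁻¹ • P n i ⊆ A i := by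
    intro n i y hy
    obtain ⟨x, ⟨hxL, hxi⟩, rfl⟩ := hy
    have := hmem n x hxL
    rw [hxi] at this
    exact Set.mem_smul_set_iff_inv_smul_mem.1 this
  refine ⟨fun n => ⋃ i, (g i)⁻¹ • P n i, ?_, fun n => ⟨P n, fun i => (g i)⁻¹, ?_, ?_, ?_, rfl⟩⟩
  · intro n m hnm
    change Disjoint _ _
    rw [Set.disjoint_left]
    intro y hy hy'
    obtain ⟨i, hi⟩ := Set.mem_iUnion.1 hy
    obtain ⟨j, hj⟩ := Set.mem_iUnion.1 hy'
    have hij : i = j := by
      by_contra hne
      exact (Set.disjoint_left.1 (hA hne)) (hsub _ _ hi) (hsub _ _ hj)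
    subst hij
    obtain ⟨x, ⟨hxL, hxi⟩, rfl⟩ := hi
    obtain ⟨x', ⟨hxL', hxi'⟩, hxx⟩ := hj
    have hxx' : x' = x := by
      have := congrArg (fun z => g i • z) hxx
      simpa using this
    subst hxx'
    exact hnm (hinj x' hxL (by simp only; rw [hxi, hxi']))
  · intro i j hij
    change Disjoint _ _
    rw [Set.disjoint_left]
    rintro x ⟨_, h1⟩ ⟨_, h2⟩
    exact hij (h1.symm.trans h2)
  · ext x
    simp only [Set.mem_iUnion]
    constructor
    · rintro ⟨i, hx, _⟩
      exact hx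
    · intro hx
      exact ⟨ν n x, hx, rfl⟩
  · intro i j hij
    change Disjoint _ _
    exact (hA hij).mono (hsub n i) (hsub n j)

section meas
variable [MeasurableSpace X] [DiscreteMeasurableSpace X]

lemma contra {m : Measure X} [IsFiniteMeasure m] (hP : PropP G (fun s => m s))
    (A : ℕ → Set X) (g : ℕ → G) (hA : Pairwise (Function.onFun Disjoint A))
    (ε : ℝ≥0∞) (hε : 0 < ε) (h : ∀ k, ε ≤ m (g k • A k)) : False := by
  have h1 : LS (fun k => g k • A k) = ⋂ n : ℕ, ⋃ k ∈ Set.Ici n, g k • A k := by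
    ext x
    simp only [LS, Set.mem_setOf_eq, Set.mem_iInter, Set.mem_iUnion, Set.mem_Ici, exists_prop]
  have h2 : Tendsto (fun n : ℕ => m (⋃ k ∈ Set.Ici n, g k • A k)) atTop
      (𝓝 (m (⋂ n : ℕ, ⋃ k ∈ Set.Ici n, g k • A k))) := by
    apply tendsto_measure_iInter_atTop
    · intro n
      exact MeasurableSet.of_discrete.nullMeasurableSet
    · intro a b hab
      apply Set.biUnion_subset_biUnion_left
      intro k hk
      exact le_trans hab hk
    · exact ⟨0, measure_ne_top _ _⟩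
  have h3 : ∀ n : ℕ, ε ≤ m (⋃ k ∈ Set.Ici n, g k • A k) := by
    intro n
    refine (h n).trans (measure_mono ?_)
    intro x hx
    simp only [Set.mem_iUnion, Set.mem_Ici, exists_prop]
    exact ⟨n, le_rfl, hx⟩
  have h4 : ε ≤ m (⋂ n : ℕ, ⋃ k ∈ Set.Ici n, g k • A k) :=
    ge_of_tendsto' h2 h3
  rw [← h1] at h4
  have h5 := hP A g hA
  simp only at h5
  rw [h5] at h4
  exact absurd hε (not_lt.2 h4)

/-- version with small overlaps -/
lemma contra' {m : Measure X} [IsFiniteMeasure m] (hP : PropP G (fun s => m s))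
    (E : ℕ → Set X) (g : ℕ → G) (ε δ : ℝ≥0∞) (hε : δ < ε)
    (h : ∀ k, ε ≤ m (g k • E k))
    (h' : ∀ k, m (g k • ⋃ j ∈ Set.Ioi k, E j) ≤ δ) : False := by
  set A : ℕ → Set X := fun k => E k \ ⋃ j ∈ Set.Ioi k, E j with hAdef
  have hdis : ∀ i j, i < j → Disjoint (A i) (A j) := by
    intro i j hij
    rw [Set.disjoint_left]
    intro x hx hx'
    apply hx.2
    simp only [Set.mem_iUnion, Set.mem_Ioi, exists_prop]
    exact ⟨j, hij, hx'.1⟩
  have hA : Pairwise (Function.onFun Disjoint A) := by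
    intro i j hij
    rcases lt_or_gt_of_ne hij with h1 | h1
    · exact hdis i j h1
    · exact (hdis j i h1).symm
  refine contra hP A g hA (ε - δ) (tsub_pos_of_lt hε) ?_
  intro k
  have h1 : m (g k • E k) ≤ m (g k • A k) + m (g k • ⋃ j ∈ Set.Ioi k, E j) := by
    refine le_trans (measure_mono ?_) (measure_union_le _ _)
    rw [← Set.smul_set_union]
    apply Set.smul_set_mono
    intro x hx
    by_cases hx' : x ∈ ⋃ j ∈ Set.Ioi k, E j
    · exact Or.inr hx'
    · exact Or.inl ⟨hx, hx'⟩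
  rw [tsub_le_iff_right]
  exact (h k).trans (h1.trans (by gcongr; exact h' k))

lemma dominate_eps {m : Measure X} [IsFiniteMeasure m] (hP : PropP G (fun s => m s))
    (ε : ℝ≥0∞) (hε : 0 < ε) :
    ∃ C : Finset G, ∀ (g : G) (A : Set X), (∀ h ∈ C, m (h⁻¹ • A) = 0) → m (g⁻¹ • A) < ε := by
  classical
  by_contra hcon
  push Not at hcon
  obtain ⟨f, hf1, hf2⟩ := exists_seq_of_forall_finset_exists
    (α := G × Set X) (fun p => ε ≤ m (p.1⁻¹ • p.2)) (fun p q => m (p.1⁻¹ • q.2) = 0) (by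
      intro s _
      obtain ⟨g, A, h1, h2⟩ := hcon (s.image Prod.fst)
      exact ⟨(g, A), h2, fun x hx => h1 _ (Finset.mem_image_of_mem _ hx)⟩)
  refine contra' hP (fun k => (f k).2) (fun k => (f k).1⁻¹) ε 0 hε hf1 ?_
  intro k
  have : (f k).1⁻¹ • (⋃ j ∈ Set.Ioi k, (f j).2) = ⋃ j ∈ Set.Ioi k, (f k).1⁻¹ • (f j).2 := by
    simp only [Set.smul_set_iUnion]
  rw [this]
  refine le_of_eq ?_
  rw [measure_biUnion_null_iff (Set.to_countable _)]
  intro j hj
  exact hf2 k j hj

lemma dominate {m : Measure X} [IsFiniteMeasure m] (hP : PropP G (fun s => m s)) :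
    ∃ s : ℕ → G, ∀ (g : G) (A : Set X), (∀ i, m ((s i)⁻¹ • A) = 0) → m (g⁻¹ • A) = 0 := by
  classical
  have h1 : ∀ n : ℕ, ∃ C : Finset G, ∀ (g : G) (A : Set X),
      (∀ h ∈ C, m (h⁻¹ • A) = 0) → m (g⁻¹ • A) < ((n : ℝ≥0∞) + 1)⁻¹ := by
    intro n
    apply dominate_eps hP
    exact ENNReal.inv_pos.2 (by finiteness)
  choose C hC using h1
  have hcount : (⋃ n, (C n : Set G) ∪ {1}).Countable := by
    apply Set.countable_iUnion
    intro n
    exact ((C n).countable_toSet).union (Set.countable_singleton _)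
  obtain ⟨s, hs⟩ := hcount.exists_eq_range ⟨1, Set.mem_iUnion.2 ⟨0, Or.inr rfl⟩⟩
  refine ⟨s, fun g A h => ?_⟩
  have h2 : ∀ n : ℕ, m (g⁻¹ • A) < ((n : ℝ≥0∞) + 1)⁻¹ := by
    intro n
    apply hC n
    intro k hk
    have : k ∈ Set.range s := by
      rw [← hs]
      exact Set.mem_iUnion.2 ⟨n, Or.inl hk⟩
    obtain ⟨i, rfl⟩ := this
    exact h i
  by_contra hne
  obtain ⟨n, hn⟩ := ENNReal.exists_inv_nat_lt hne
  have h3 := (h2 n).trans_le (ENNReal.inv_le_inv.2 (by simp : (n : ℝ≥0∞) ≤ (n : ℝ≥0∞) + 1))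
  exact lt_asymm h3 hn

/-- existence of a quasi-invariant measure with property P -/
lemma quasi {m : Measure X} [IsFiniteMeasure m] (hm0 : m Set.univ ≠ 0)
    (hP : PropP G (fun s => m s)) :
    ∃ L : Measure X, IsFiniteMeasure L ∧ L Set.univ ≠ 0 ∧ PropP G (fun s => L s) ∧
      ∀ (g : G) (A : Set X), L A = 0 → L (g • A) = 0 := by
  obtain ⟨s, hs⟩ := dominate hP
  set c : ℕ → ℝ≥0∞ := fun i => (2⁻¹ : ℝ≥0∞) ^ i with hc
  set L : Measure X := Measure.sum (fun i => c i • Measure.map (fun x => s i • x) m) with hL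
  have happ : ∀ A : Set X, L A = ∑' i, c i * m ((s i)⁻¹ • A) := by
    intro A
    rw [hL, Measure.sum_apply _ MeasurableSet.of_discrete]
    congr 1
    ext i
    rw [Measure.smul_apply, Measure.map_apply Measurable.of_discrete MeasurableSet.of_discrete,
      Set.preimage_smul, smul_eq_mul]
  have hzero : ∀ A : Set X, L A = 0 ↔ ∀ i, m ((s i)⁻¹ • A) = 0 := by
    intro A
    rw [happ, ENNReal.tsum_eq_zero]
    refine forall_congr' fun i => ?_
    rw [mul_eq_zero]
    constructor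
    · rintro (h | h)
      · exact absurd h (pow_ne_zero _ (by simp))
      · exact h
    · exact fun h => Or.inr h
  have htot : L Set.univ = 2 * m Set.univ := by
    rw [happ]
    simp only [Set.smul_set_univ]
    rw [ENNReal.tsum_mul_right, ENNReal.tsum_geometric]
    congr 1
    rw [ENNReal.one_sub_inv_two, inv_inv]
  refine ⟨L, ⟨?_⟩, ?_, ?_, ?_⟩
  · rw [htot]
    exact ENNReal.mul_lt_top (by simp) (measure_lt_top _ _)
  · rw [htot]
    exact mul_ne_zero (by simp) hm0
  · intro A g hA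
    simp only
    rw [hzero]
    intro i
    have h1 : (s i)⁻¹ • LS (fun k => g k • A k) = LS (fun k => ((s i)⁻¹ * g k) • A k) := by
      ext x
      rw [Set.mem_smul_set_iff_inv_smul_mem]
      simp only [LS, Set.mem_setOf_eq]
      refine forall_congr' fun n => exists_congr fun k => and_congr_right fun _ => ?_
      rw [mul_smul, Set.mem_smul_set_iff_inv_smul_mem (a := (s i)⁻¹)]
    rw [h1]
    exact hP A (fun k => (s i)⁻¹ * g k) hA
  · intro g A hA
    rw [hzero] at hA ⊢
    intro i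
    have := hs (g⁻¹ * s i) A hA
    rwa [mul_inv_rev, inv_inv, mul_smul] at this

end meas

end Pool.Agent.H68R3.Chu
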