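import Pool.Agent.H68R3.Chu1

set_option autoImplicit false
open MeasureTheory Set Filter
open scoped Pointwise ENNReal Topology

namespace Pool.Agent.H68R3.Chu

variable {G X : Type} [Group G] [MulAction G X]
variable [MeasurableSpace X] [DiscreteMeasurableSpace X]

/-- translated measure -/
noncomputable def tr (L : Measure X) (g : G) : Measure X := L.map (fun x => g⁻¹ • x)

lemma tr_apply (L : Measure X) (g : G) (A : Set X) : tr L g A = L (g • A) := by
  rw [tr, Measure.map_apply Measurable.of_discrete MeasurableSet.of_discrete, Set.preimage_smul,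
    inv_inv]

/-- square root of the density of the translated measure -/
noncomputable def w (L : Measure X) (g : G) (x : X) : ℝ :=
  Real.sqrt (((tr L g).rnDeriv L x).toReal)

lemma w_nonneg (L : Measure X) (g : G) (x : X) : 0 ≤ w L g x := Real.sqrt_nonneg _

lemma dens (L : Measure X) [IsFiniteMeasure L]
    (hq : ∀ (g : G) (A : Set X), L A = 0 → L (g • A) = 0) (g : G) (A : Set X) :
    L (g • A) = ∫⁻ x in A, ENNReal.ofReal (w L g x ^ 2) ∂L := by
  have hac : tr L g ≪ L := by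
    refine Measure.AbsolutelyContinuous.mk (fun A _ hA => ?_)
    rw [tr_apply]
    exact hq g A hA
  haveI : IsFiniteMeasure (tr L g) := by unfold tr; infer_instance
  have h1 := Measure.withDensity_rnDeriv_eq (tr L g) L hac
  have h2 : tr L g A = ∫⁻ x in A, (tr L g).rnDeriv L x ∂L := by
    conv_lhs => rw [← h1]
    rw [withDensity_apply _ MeasurableSet.of_discrete]
  rw [← tr_apply, h2]
  apply lintegral_congr_ae
  apply ae_restrict_of_ae
  filter_upwards [Measure.rnDeriv_lt_top (tr L g) L] with x hx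
  rw [w, Real.sq_sqrt ENNReal.toReal_nonneg, ENNReal.ofReal_toReal hx.ne]

lemma cv (L : Measure X) [IsFiniteMeasure L]
    (hq : ∀ (g : G) (A : Set X), L A = 0 → L (g • A) = 0) (a : G) (F : X → ℝ≥0∞) :
    ∫⁻ x, F x ∂L = ∫⁻ x, ENNReal.ofReal (w L a x ^ 2) * F (a • x) ∂L := by
  have h1 : L.withDensity (fun x => ENNReal.ofReal (w L a x ^ 2)) = tr L a := by
    ext A hA
    rw [withDensity_apply _ hA, ← dens L hq, tr_apply]
  have h2 : ∫⁻ x, F (a • x) ∂(tr L a) = ∫⁻ x, F x ∂L := by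
    rw [tr, lintegral_map Measurable.of_discrete Measurable.of_discrete]
    simp
  rw [← h2, ← h1, lintegral_withDensity_eq_lintegral_mul _ Measurable.of_discrete
    Measurable.of_discrete]
  rfl

lemma coc (L : Measure X) [IsFiniteMeasure L]
    (hq : ∀ (g : G) (A : Set X), L A = 0 → L (g • A) = 0) (g a : G) :
    (fun x => w L (g * a) x) =ᵐ[L] fun x => w L a x * w L g (a • x) := by
  have h : (fun x => ENNReal.ofReal (w L (g * a) x ^ 2)) =ᵐ[L]
      fun x => ENNReal.ofReal ((w L a x * w L g (a • x)) ^ 2) := by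
    apply ae_eq_of_forall_setLIntegral_eq_of_sigmaFinite Measurable.of_discrete
      Measurable.of_discrete
    intro A _ _
    rw [← dens L hq, mul_smul, dens L hq g (a • A),
      ← lintegral_indicator MeasurableSet.of_discrete, cv L hq a,
      ← lintegral_indicator MeasurableSet.of_discrete]
    apply lintegral_congr
    intro x
    by_cases hx : x ∈ A
    · rw [Set.indicator_of_mem hx, Set.indicator_of_mem (Set.smul_mem_smul_set_iff.2 hx), mul_pow,
        ENNReal.ofReal_mul (sq_nonneg _)]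
    · rw [Set.indicator_of_notMem hx, Set.indicator_of_notMem
        (fun h => hx (Set.smul_mem_smul_set_iff.1 h)), mul_zero]
  filter_upwards [h] with x hx
  have h3 := (ENNReal.ofReal_eq_ofReal_iff (sq_nonneg _) (sq_nonneg _)).1 hx
  exact (sq_eq_sq₀ (w_nonneg _ _ _) (mul_nonneg (w_nonneg _ _ _) (w_nonneg _ _ _))).1 h3

lemma enorm_w (L : Measure X) (a : G) (x : X) :
    ‖w L a x‖ₑ ^ (2 : ℝ) = ENNReal.ofReal (w L a x ^ 2) := by
  rw [ENNReal.rpow_two, Real.enorm_eq_ofReal (w_nonneg _ _ _), ENNReal.ofReal_pow (w_nonneg _ _ _)]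

lemma eLpNorm_two (L : Measure X) (f : X → ℝ) :
    eLpNorm f 2 L = (∫⁻ x, ‖f x‖ₑ ^ (2 : ℝ) ∂L) ^ (1 / (2 : ℝ)) := by
  rw [eLpNorm_eq_lintegral_rpow_enorm_toReal (by norm_num) (by norm_num)]
  simp

lemma w_memLp (L : Measure X) [IsFiniteMeasure L]
    (hq : ∀ (g : G) (A : Set X), L A = 0 → L (g • A) = 0) (g : G) : MemLp (w L g) 2 L := by
  refine ⟨Measurable.of_discrete.aestronglyMeasurable, ?_⟩
  rw [eLpNorm_two]
  apply ENNReal.rpow_lt_top_of_nonneg (by norm_num)
  have : ∫⁻ x, ‖w L g x‖ₑ ^ (2 : ℝ) ∂L = L (g • Set.univ) := by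
    rw [dens L hq, Measure.restrict_univ]
    exact lintegral_congr fun x => enorm_w L g x
  rw [this]
  exact measure_ne_top _ _

lemma eLpNorm_U (L : Measure X) [IsFiniteMeasure L]
    (hq : ∀ (g : G) (A : Set X), L A = 0 → L (g • A) = 0) (a : G) (f : X → ℝ) :
    eLpNorm (fun x => w L a x * f (a • x)) 2 L = eLpNorm f 2 L := by
  rw [eLpNorm_two, eLpNorm_two, cv L hq a (fun x => ‖f x‖ₑ ^ (2 : ℝ))]
  congr 1
  apply lintegral_congr
  intro x
  rw [enorm_mul, ENNReal.mul_rpow_of_nonneg _ _ (by norm_num), enorm_w]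

lemma ae_smul (L : Measure X)
    (hq : ∀ (g : G) (A : Set X), L A = 0 → L (g • A) = 0) (a : G) {p : X → Prop}
    (h : ∀ᵐ x ∂L, p x) : ∀ᵐ x ∂L, p (a • x) := by
  rw [ae_iff] at h ⊢
  have : {x | ¬ p (a • x)} = a⁻¹ • {x | ¬ p x} := by
    ext x
    rw [Set.mem_smul_set_iff_inv_smul_mem, inv_inv]
    rfl
  rw [this]
  exact hq _ _ h

lemma memU (L : Measure X) [IsFiniteMeasure L]
    (hq : ∀ (g : G) (A : Set X), L A = 0 → L (g • A) = 0) (a : G) {f : X → ℝ} (hf : MemLp f 2 L) :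
    MemLp (fun x => w L a x * f (a • x)) 2 L := by
  refine ⟨Measurable.of_discrete.aestronglyMeasurable, ?_⟩
  rw [eLpNorm_U L hq]
  exact hf.2

/-- the unitary action on half densities -/
noncomputable def U (L : Measure X) [IsFiniteMeasure L]
    (hq : ∀ (g : G) (A : Set X), L A = 0 → L (g • A) = 0) (a : G) :
    Lp ℝ 2 L →ₗᵢ[ℝ] Lp ℝ 2 L where
  toFun ξ := MemLp.toLp (fun x => w L a x * ξ (a • x)) (memU L hq a (Lp.memLp ξ))
  map_add' ξ ζ := by
    apply Lp.ext
    filter_upwards [MemLp.coeFn_toLp (memU L hq a (Lp.memLp (ξ + ζ))),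
      Lp.coeFn_add (MemLp.toLp _ (memU L hq a (Lp.memLp ξ))) (MemLp.toLp _ (memU L hq a (Lp.memLp ζ))),
      MemLp.coeFn_toLp (memU L hq a (Lp.memLp ξ)), MemLp.coeFn_toLp (memU L hq a (Lp.memLp ζ)),
      ae_smul L hq a (Lp.coeFn_add ξ ζ)] with x h1 h2 h3 h4 h5
    rw [h1, h2, Pi.add_apply, h3, h4, h5, Pi.add_apply]
    ring
  map_smul' c ξ := by
    apply Lp.ext
    filter_upwards [MemLp.coeFn_toLp (memU L hq a (Lp.memLp (c • ξ))),
      Lp.coeFn_smul c (MemLp.toLp _ (memU L hq a (Lp.memLp ξ))),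
      MemLp.coeFn_toLp (memU L hq a (Lp.memLp ξ)),
      ae_smul L hq a (Lp.coeFn_smul c ξ)] with x h1 h2 h3 h4
    rw [h1, RingHom.id_apply, h2, Pi.smul_apply, h3, h4, Pi.smul_apply, smul_eq_mul, smul_eq_mul]
    ring
  norm_map' ξ := by
    change ‖MemLp.toLp (fun x => w L a x * ξ (a • x)) (memU L hq a (Lp.memLp ξ))‖ = ‖ξ‖
    rw [Lp.norm_toLp, eLpNorm_U L hq, Lp.norm_def]

lemma U_coe (L : Measure X) [IsFiniteMeasure L]
    (hq : ∀ (g : G) (A : Set X), L A = 0 → L (g • A) = 0) (a : G) (ξ : Lp ℝ 2 L) :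
    (U L hq a ξ : X → ℝ) =ᵐ[L] fun x => w L a x * ξ (a • x) :=
  MemLp.coeFn_toLp (memU L hq a (Lp.memLp ξ))

/-- the half density of the translate -/
noncomputable def hv (L : Measure X) [IsFiniteMeasure L]
    (hq : ∀ (g : G) (A : Set X), L A = 0 → L (g • A) = 0) (g : G) : Lp ℝ 2 L :=
  MemLp.toLp (w L g) (w_memLp L hq g)

lemma U_hv (L : Measure X) [IsFiniteMeasure L]
    (hq : ∀ (g : G) (A : Set X), L A = 0 → L (g • A) = 0) (a g : G) :
    U L hq a (hv L hq g) = hv L hq (g * a) := by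
  apply Lp.ext
  filter_upwards [U_coe L hq a (hv L hq g), MemLp.coeFn_toLp (w_memLp L hq (g * a)),
    ae_smul L hq a (MemLp.coeFn_toLp (w_memLp L hq g)), coc L hq g a] with x h1 h2 h3 h4
  rw [h1]
  change w L a x * (hv L hq g : X → ℝ) (a • x) = (hv L hq (g * a) : X → ℝ) x
  rw [hv, hv, h2, h3, h4]

end Pool.Agent.H68R3.Chu
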