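import Pool.Agent.H68R3.Chu2

set_option autoImplicit false
open MeasureTheory Set Filter
open scoped Pointwise ENNReal Topology

namespace Pool.Agent.H68R3.Chu

variable {G X : Type} [Group G] [MulAction G X]
variable [MeasurableSpace X] [DiscreteMeasurableSpace X]

lemma w_lintegral (L : Measure X) [IsFiniteMeasure L]
    (hq : ∀ (g : G) (A : Set X), L A = 0 → L (g • A) = 0) (g : G) :
    ∫⁻ x, ENNReal.ofReal (w L g x) ∂L = ENNReal.ofReal (∫ x, w L g x ∂L) := by
  rw [ofReal_integral_eq_lintegral_ofReal ((w_memLp L hq g).integrable (by norm_num))]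
  exact Eventually.of_forall fun x => w_nonneg L g x

lemma lower (L : Measure X) [IsFiniteMeasure L] (h0 : L Set.univ ≠ 0)
    (hq : ∀ (g : G) (A : Set X), L A = 0 → L (g • A) = 0)
    (hP : PropP G (fun s => L s)) :
    ∃ c : ℝ, 0 < c ∧ ∀ g : G, c ≤ ∫ x, w L g x ∂L := by
  by_contra hcon
  push Not at hcon
  set t : ℝ := (L Set.univ).toReal with ht
  have ht0 : 0 < t := ENNReal.toReal_pos h0 (measure_ne_top _ _)
  have htL : L Set.univ = ENNReal.ofReal t := (ENNReal.ofReal_toReal (measure_ne_top _ _)).symm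
  have hc : ∀ k : ℕ, ∃ g : G, ∫ x, w L g x ∂L < min (t / 4) ((1 / 2 : ℝ) ^ k) := fun k =>
    hcon _ (lt_min (by positivity) (by positivity))
  choose g hg using hc
  set E : ℕ → Set X := fun k => {x | 1 ≤ w L (g k) x} with hE
  have hI : ∀ k, ∫⁻ x, ENNReal.ofReal (w L (g k) x) ∂L ≤
      ENNReal.ofReal (min (t / 4) ((1 / 2 : ℝ) ^ k)) := by
    intro k
    rw [w_lintegral L hq]
    exact ENNReal.ofReal_le_ofReal (hg k).le
  have h1 : ∀ k, L (E k) ≤ ENNReal.ofReal ((1 / 2 : ℝ) ^ k) := by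
    intro k
    have : 1 * L {x | 1 ≤ ENNReal.ofReal (w L (g k) x)} ≤ ∫⁻ x, ENNReal.ofReal (w L (g k) x) ∂L :=
      mul_meas_ge_le_lintegral Measurable.of_discrete 1
    have hset : {x | 1 ≤ ENNReal.ofReal (w L (g k) x)} = E k := by
      ext x
      simp only [Set.mem_setOf_eq, hE, ENNReal.one_le_ofReal]
    rw [hset, one_mul] at this
    exact this.trans ((hI k).trans (ENNReal.ofReal_le_ofReal (min_le_right _ _)))
  have h2 : ∀ k, L (g k • (E k)ᶜ) ≤ ENNReal.ofReal (t / 4) := by
    intro k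
    rw [dens L hq]
    calc ∫⁻ x in (E k)ᶜ, ENNReal.ofReal (w L (g k) x ^ 2) ∂L
        ≤ ∫⁻ x in (E k)ᶜ, ENNReal.ofReal (w L (g k) x) ∂L := by
          apply setLIntegral_mono Measurable.of_discrete
          intro x hx
          have hx1 : w L (g k) x < 1 := not_le.1 hx
          apply ENNReal.ofReal_le_ofReal
          have := w_nonneg L (g k) x
          nlinarith
      _ ≤ ∫⁻ x, ENNReal.ofReal (w L (g k) x) ∂L := setLIntegral_le_lintegral _ _
      _ ≤ _ := (hI k).trans (ENNReal.ofReal_le_ofReal (min_le_left _ _))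
  have h3 : ∀ k, ENNReal.ofReal (t / 2) ≤ L (g k • E k) := by
    intro k
    have h4 : L Set.univ ≤ L (g k • E k) + L (g k • (E k)ᶜ) := by
      refine le_trans (measure_mono ?_) (measure_union_le _ _)
      rw [← Set.smul_set_union, Set.union_compl_self, Set.smul_set_univ]
    have h5 : ENNReal.ofReal t ≤ L (g k • E k) + ENNReal.ofReal (t / 4) := by
      rw [← htL]
      exact h4.trans (by gcongr; exact h2 k)
    have h6 : ENNReal.ofReal t - ENNReal.ofReal (t / 4) ≤ L (g k • E k) :=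
      tsub_le_iff_right.2 h5
    refine le_trans ?_ h6
    rw [← ENNReal.ofReal_sub _ (by positivity)]
    apply ENNReal.ofReal_le_ofReal
    linarith
  have hN : L (⋂ n : ℕ, ⋃ k ∈ Set.Ici n, E k) = 0 := by
    have h4 : ∑' k, L (E k) ≠ ⊤ := by
      have h5 := (summable_geometric_two).tsum_ofReal_ne_top
      exact ne_top_of_le_ne_top h5 (ENNReal.tsum_le_tsum h1)
    have h6 := measure_limsup_atTop_eq_zero h4
    rw [Filter.limsup_eq_iInf_iSup_of_nat] at h6
    exact h6
  have hJ : ∀ k : ℕ, ∃ J : ℕ, k < J ∧ L (g k • ⋃ j ∈ Set.Ici J, E j) ≤ ENNReal.ofReal (t / 4) := by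
    intro k
    haveI : IsFiniteMeasure (tr L (g k)) := by unfold tr; infer_instance
    have h4 : Tendsto (fun n : ℕ => tr L (g k) (⋃ j ∈ Set.Ici n, E j)) atTop
        (𝓝 (tr L (g k) (⋂ n : ℕ, ⋃ j ∈ Set.Ici n, E j))) := by
      apply tendsto_measure_iInter_atTop
      · intro n
        exact MeasurableSet.of_discrete.nullMeasurableSet
      · intro a b hab
        apply Set.biUnion_subset_biUnion_left
        intro k hk
        exact le_trans hab hk
      · exact ⟨0, measure_ne_top _ _⟩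
    rw [tr_apply, hq _ _ hN] at h4
    have h5 : ∀ᶠ n in atTop, tr L (g k) (⋃ j ∈ Set.Ici n, E j) < ENNReal.ofReal (t / 4) :=
      h4.eventually (gt_mem_nhds (ENNReal.ofReal_pos.2 (by positivity)))
    obtain ⟨n, hn1, hn2⟩ := (h5.and (eventually_gt_atTop k)).exists
    refine ⟨n, hn2, ?_⟩
    rw [← tr_apply]
    exact hn1.le
  choose J hJ1 hJ2 using hJ
  let φ : ℕ → ℕ := fun n => Nat.rec 0 (fun _ k => J k) n
  have hφ : ∀ n, φ (n + 1) = J (φ n) := fun n => rfl
  have hφm : StrictMono φ := strictMono_nat_of_lt_succ (fun n => by rw [hφ]; exact hJ1 _)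
  refine contra' hP (fun n => E (φ n)) (fun n => g (φ n)) (ENNReal.ofReal (t / 2))
    (ENNReal.ofReal (t / 4)) ?_ (fun n => h3 (φ n)) ?_
  · exact (ENNReal.ofReal_lt_ofReal_iff (by positivity)).2 (by linarith)
  · intro n
    refine le_trans (measure_mono (Set.smul_set_mono ?_)) (hJ2 (φ n))
    intro x hx
    simp only [Set.mem_iUnion, Set.mem_Ioi, Set.mem_Ici, exists_prop] at hx ⊢
    obtain ⟨j, hj, hxj⟩ := hx
    refine ⟨φ j, ?_, hxj⟩
    rw [← hφ]
    exact hφm.monotone hj

open RealInnerProductSpace in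
theorem main (m : Measure X) [IsFiniteMeasure m] (hm0 : m Set.univ ≠ 0)
    (hP : PropP G (fun s => m s)) :
    ∃ ν : Measure X, ν Set.univ = 1 ∧ ∀ (g : G) (A : Set X), ν (g • A) = ν A := by
  obtain ⟨L, hfin, h0, hPL, hq⟩ := quasi (G := G) hm0 hP
  obtain ⟨c, hc0, hc⟩ := lower L h0 hq hPL
  set K : Set (Lp ℝ 2 L) := closure (convexHull ℝ (Set.range (hv L hq))) with hK
  set one : Lp ℝ 2 L := MemLp.toLp (fun _ => (1 : ℝ)) (memLp_const 1) with hone
  have hKc : ∀ ξ ∈ K, c ≤ inner ℝ one ξ := by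
    have hcl : IsClosed {ξ : Lp ℝ 2 L | c ≤ inner ℝ one ξ} :=
      isClosed_le continuous_const (continuous_const.inner continuous_id)
    have hco : Convex ℝ {ξ : Lp ℝ 2 L | c ≤ inner ℝ one ξ} :=
      convex_halfSpace_ge (f := fun ξ => inner ℝ one ξ)
        ⟨fun x y => inner_add_right _ _ _, fun r x => inner_smul_right _ _ _⟩ c
    have : K ⊆ {ξ : Lp ℝ 2 L | c ≤ inner ℝ one ξ} := by
      apply closure_minimal _ hcl
      apply convexHull_min _ hco
      rintro _ ⟨g, rfl⟩
      have h1 : inner ℝ one (hv L hq g) = ∫ x, w L g x ∂L := by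
        rw [L2.inner_def]
        apply integral_congr_ae
        filter_upwards [MemLp.coeFn_toLp (w_memLp L hq g),
          MemLp.coeFn_toLp (memLp_const (1 : ℝ) : MemLp (fun _ : X => (1 : ℝ)) 2 L)] with x h1 h2
        rw [hone, hv, h1, h2]
        simp
      simp only [Set.mem_setOf_eq]
      rw [h1]
      exact hc g
    exact fun ξ hξ => this hξ
  have hUK : ∀ a : G, ∀ ξ ∈ K, U L hq a ξ ∈ K := by
    intro a ξ hξ
    have hmaps : Set.MapsTo (U L hq a) (convexHull ℝ (Set.range (hv L hq)))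
        (convexHull ℝ (Set.range (hv L hq))) := by
      intro ζ hζ
      have h1 : (U L hq a).toLinearMap ζ ∈ (U L hq a).toLinearMap ''
          (convexHull ℝ (Set.range (hv L hq))) := ⟨ζ, hζ, rfl⟩
      rw [LinearMap.image_convexHull] at h1
      refine convexHull_mono ?_ h1
      rintro _ ⟨_, ⟨g, rfl⟩, rfl⟩
      exact ⟨g * a, (U_hv L hq a g).symm⟩
    exact map_mem_closure (U L hq a).continuous hξ hmaps
  have hKne : K.Nonempty := ⟨hv L hq 1, subset_closure (subset_convexHull _ _ ⟨1, rfl⟩)⟩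
  have hKcv : Convex ℝ K := (convex_convexHull _ _).closure
  obtain ⟨η, hηK, hη⟩ := exists_norm_eq_iInf_of_complete_convex hKne
    isClosed_closure.isComplete hKcv (0 : Lp ℝ 2 L)
  rw [norm_eq_iInf_iff_real_inner_le_zero hKcv hηK] at hη
  have hfix : ∀ a : G, U L hq a η = η := by
    intro a
    have h1 := hη _ (hUK a η hηK)
    rw [zero_sub, inner_neg_left, inner_sub_right, real_inner_self_eq_norm_sq] at h1
    have h2 : ‖U L hq a η - η‖ ^ 2 ≤ 0 := by
      rw [norm_sub_sq_real, (U L hq a).norm_map, real_inner_comm]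
      linarith
    have h3 : ‖U L hq a η - η‖ = 0 := by
      have := sq_nonneg ‖U L hq a η - η‖
      exact pow_eq_zero_iff (two_ne_zero) |>.1 (le_antisymm h2 this)
    exact sub_eq_zero.1 (norm_eq_zero.1 h3)
  have hη0 : η ≠ 0 := by
    rintro rfl
    have := hKc _ hηK
    rw [inner_zero_right] at this
    linarith
  set F : X → ℝ≥0∞ := fun x => ‖η x‖ₑ ^ (2 : ℝ) with hF
  set ν0 : Measure X := L.withDensity F with hν0
  have happ : ∀ A : Set X, ν0 A = ∫⁻ x in A, F x ∂L := fun A =>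
    withDensity_apply _ MeasurableSet.of_discrete
  have htot : ν0 Set.univ = ∫⁻ x, F x ∂L := by rw [happ, Measure.restrict_univ]
  have hnorm : eLpNorm η 2 L = (∫⁻ x, F x ∂L) ^ (1 / (2 : ℝ)) := eLpNorm_two L η
  have hne0 : ν0 Set.univ ≠ 0 := by
    rw [htot]
    intro h
    rw [h, ENNReal.zero_rpow_of_pos (by norm_num)] at hnorm
    apply hη0
    rw [← norm_eq_zero, Lp.norm_def, hnorm]
    rfl
  have hnetop : ν0 Set.univ ≠ ⊤ := by
    rw [htot]
    intro h
    rw [h, ENNReal.top_rpow_of_pos (by norm_num)] at hnorm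
    exact (Lp.memLp η).2.ne hnorm
  have hinv : ∀ (g : G) (A : Set X), ν0 (g • A) = ν0 A := by
    intro a A
    rw [happ, happ, ← lintegral_indicator MeasurableSet.of_discrete, cv L hq a,
      ← lintegral_indicator MeasurableSet.of_discrete]
    have h1 := U_coe L hq a η
    rw [hfix a] at h1
    apply lintegral_congr_ae
    filter_upwards [h1] with x hx
    by_cases hxA : x ∈ A
    · rw [Set.indicator_of_mem hxA, Set.indicator_of_mem (Set.smul_mem_smul_set_iff.2 hxA), hF]
      simp only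
      rw [hx, enorm_mul, ENNReal.mul_rpow_of_nonneg _ _ (by norm_num), enorm_w]
    · rw [Set.indicator_of_notMem hxA, Set.indicator_of_notMem
        (fun h => hxA (Set.smul_mem_smul_set_iff.1 h)), mul_zero]
  refine ⟨(ν0 Set.univ)⁻¹ • ν0, ?_, ?_⟩
  · rw [Measure.smul_apply, smul_eq_mul, ENNReal.inv_mul_cancel hne0 hnetop]
  · intro g A
    rw [Measure.smul_apply, Measure.smul_apply, hinv]

end Pool.Agent.H68R3.Chu
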