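import Pool.Agent.H68R3.Pol5
import Pool.Agent.Helper533.NHM.Sph
import Pool.Agent.Helper795.LusinN

set_option autoImplicit false

open MeasureTheory Filter Topology Set
open scoped ENNReal NNReal RealInnerProductSpace

/-!
Tools for the Hardy–Morrey quotient: energy, scaling, Morrey's inequality.
-/

namespace Pool.Agent.H68R3

open Pool.Agent.Helper533.Polar

variable {n : ℕ} {p : ℝ}

/-- energy -/
noncomputable def En (p : ℝ) (W : Sp n → Sp n) : ℝ≥0∞ := ∫⁻ x, ‖W x‖ₑ ^ p

theorem En_eq (hp : 0 < p) (W : Sp n → Sp n) :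
    En p W = eLpNorm W (ENNReal.ofReal p) volume ^ p := by
  have hP0 : ENNReal.ofReal p ≠ 0 := by simpa using hp
  rw [eLpNorm_eq_lintegral_rpow_enorm_toReal hP0 ENNReal.ofReal_ne_top,
    ENNReal.toReal_ofReal hp.le, ← ENNReal.rpow_mul, one_div, inv_mul_cancel₀ hp.ne',
    ENNReal.rpow_one]
  rfl

theorem En_ne_top (hp : 0 < p) {W : Sp n → Sp n} (h : MemLp W (ENNReal.ofReal p) volume) :
    En p W ≠ ∞ := by
  rw [En_eq hp]
  exact ENNReal.rpow_ne_top_of_nonneg hp.le h.2.ne

theorem Cc_En_ne_top (hp : 0 < p) {D : Set (Sp n)} {φ : Sp n → ℝ} (h : Cc D φ) :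
    En p (gradient φ) ≠ ∞ :=
  Pool.Agent.H68R3.En_ne_top hp (h.memLp_grad _)

theorem En_mono (hp : 0 < p) {V W : Sp n → Sp n} (h : ∀ x, ‖V x‖ ≤ ‖W x‖) : En p V ≤ En p W := by
  unfold En
  refine lintegral_mono fun x => ENNReal.rpow_le_rpow ?_ hp.le
  rw [← ofReal_norm, ← ofReal_norm]
  exact ENNReal.ofReal_le_ofReal (h x)

theorem En_smul (hp : 0 < p) (c : ℝ) (W : Sp n → Sp n) :
    En p (fun x => c • W x) = ENNReal.ofReal (|c| ^ p) * En p W := by
  unfold En
  have h1 : ∀ x, ‖c • W x‖ₑ ^ p = ENNReal.ofReal (|c| ^ p) * ‖W x‖ₑ ^ p := by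
    intro x
    rw [enorm_smul, ENNReal.mul_rpow_of_nonneg _ _ hp.le, Real.enorm_eq_ofReal_abs,
      ENNReal.ofReal_rpow_of_nonneg (abs_nonneg _) hp.le]
  simp_rw [h1]
  exact lintegral_const_mul' _ _ ENNReal.ofReal_ne_top

theorem gradient_affine {φ : Sp n → ℝ} (hφ : Differentiable ℝ φ) (x : Sp n) (t : ℝ) (z : Sp n) :
    gradient (fun z => φ (x + t • z)) z = t • gradient φ (x + t • z) := by
  apply HasGradientAt.gradient
  rw [hasGradientAt_iff_hasFDerivAt, (InnerProductSpace.toDual ℝ (Sp n)).map_smul]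
  have h1 : HasFDerivAt (fun z : Sp n => x + t • z) (t • ContinuousLinearMap.id ℝ (Sp n)) z :=
    ((hasFDerivAt_id z).const_smul t).const_add x
  have h2 := ((hφ (x + t • z)).hasGradientAt.hasFDerivAt).comp z h1
  refine h2.congr_fderiv ?_
  ext v
  simp [gradient]

theorem En_affine (hp : 0 < p) {φ : Sp n → ℝ} (hφ : ContDiff ℝ 1 φ) (x : Sp n) {t : ℝ}
    (ht : 0 < t) : En p (gradient (fun z => φ (x + t • z))) =
      ENNReal.ofReal (t ^ (p - n)) * En p (gradient φ) := by
  have hd : Differentiable ℝ φ := hφ.differentiable (by norm_num)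
  have hm : Measurable fun y : Sp n => ‖gradient φ y‖ₑ ^ p := by
    have h1 : Continuous (fderiv ℝ φ) := hφ.continuous_fderiv (by norm_num)
    have h2 : Continuous (gradient φ) :=
      ((InnerProductSpace.toDual ℝ (Sp n)).symm.continuous).comp h1
    exact h2.measurable.enorm.pow_const _
  have h1 : ∀ z, gradient (fun z => φ (x + t • z)) z = t • gradient φ (x + t • z) :=
    gradient_affine hd x t
  have h2 : (gradient fun z => φ (x + t • z)) = fun z => t • gradient φ (x + t • z) := funext h1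
  rw [h2, En_smul hp t (fun z => gradient φ (x + t • z))]
  unfold En
  have h3 := Pool.Agent.Helper795.LusinN.lintegral_homothety (volume : Measure (Sp n)) ht x hm
  rw [h3, finrank_euclideanSpace_fin, ← mul_assoc, ← ENNReal.ofReal_mul (by positivity)]
  congr 2
  rw [abs_of_pos ht, Real.rpow_sub ht, Real.rpow_natCast]
  rfl

/-- Morrey's inequality -/
theorem morrey (hn : 1 ≤ n) (hp : (n : ℝ) < p) : ∃ C : ℝ≥0∞, C ≠ ∞ ∧
    ∀ φ : Sp n → ℝ, ContDiff ℝ 1 φ → ∀ x y,
      ‖φ x - φ y‖ₑ ≤ C * (ENNReal.ofReal (‖x - y‖ ^ (p - n)) * En p (gradient φ)) ^ (1 / p) := by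
  have hn' : (1 : ℝ) ≤ n := by exact_mod_cast hn
  have hp0 : 0 < p := by linarith
  obtain ⟨C, hC, h⟩ := Pool.Agent.Helper795.LusinN.morrey_abstract (volume : Measure (Sp n))
    (p := p) (by rw [finrank_euclideanSpace_fin]; exact hp) (by linarith) one_pos
  refine ⟨C, hC, fun φ hφ x y => ?_⟩
  rcases eq_or_ne x y with rfl | hxy
  · simp
  set t : ℝ := ‖x - y‖ with ht
  have ht0 : 0 < t := norm_pos_iff.2 (sub_ne_zero.2 hxy)
  set w : Sp n → ℝ := fun z => φ (x + t • z) with hw
  have hwc : ContDiff ℝ 1 w := by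
    refine hφ.comp ?_
    fun_prop
  have hg : ∀ z, ‖gradient w z‖ₑ = ‖fderiv ℝ w z‖ₑ := fun z => enorm_gradient_eq w z
  have hgc : Continuous (gradient w) :=
    ((InnerProductSpace.toDual ℝ (Sp n)).symm.continuous).comp (hwc.continuous_fderiv (by norm_num))
  have key := h (fun z => ‖gradient w z‖ₑ) w hgc.measurable.enorm (by
    intro a _ b _
    have hd : ∀ s ∈ uIcc (0:ℝ) 1, HasDerivAt (fun s : ℝ => w (a + s • (b - a)))
        (fderiv ℝ w (a + s • (b - a)) (b - a)) s := by
      intro s _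
      have h1 : HasDerivAt (fun s : ℝ => a + s • (b - a)) ((1:ℝ) • (b - a)) s :=
        ((hasDerivAt_id s).smul_const (b - a)).const_add a
      rw [one_smul] at h1
      exact ((hwc.differentiable (by norm_num)) _).hasFDerivAt.comp_hasDerivAt s h1
    have hcd : Continuous fun s : ℝ => fderiv ℝ w (a + s • (b - a)) (b - a) := by
      have h1 : Continuous (fderiv ℝ w) := hwc.continuous_fderiv (by norm_num)
      exact (h1.comp (by fun_prop)).clm_apply continuous_const
    have h2 := intervalIntegral.integral_eq_sub_of_hasDerivAt hd (hcd.intervalIntegrable 0 1)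
    simp only [one_smul, zero_smul, add_zero, add_sub_cancel] at h2
    rw [← neg_sub, enorm_neg, ← h2, intervalIntegral.integral_of_le zero_le_one]
    refine (enorm_integral_le_lintegral_enorm _).trans ?_
    rw [setLIntegral_congr Ioo_ae_eq_Ioc.symm]
    refine lintegral_mono fun s => ?_
    rw [hg]
    exact ContinuousLinearMap.le_opENorm _ _) 0 (by simp) (t⁻¹ • (y - x)) (by
      simp only [Metric.mem_closedBall, dist_zero_right, norm_smul, norm_inv, Real.norm_eq_abs,
        abs_of_pos ht0]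
      rw [← norm_neg (y - x), neg_sub, ← ht, inv_mul_cancel₀ ht0.ne'])
  have e1 : w 0 = φ x := by simp [hw]
  have e2 : w (t⁻¹ • (y - x)) = φ y := by
    simp only [hw]
    rw [smul_smul, mul_inv_cancel₀ ht0.ne', one_smul, add_sub_cancel]
  rw [e1, e2] at key
  refine key.trans ?_
  refine mul_le_mul_right (ENNReal.rpow_le_rpow ?_ (by positivity)) _
  rw [← En_affine hp0 hφ x ht0]
  exact setLIntegral_le_lintegral _ _

end Pool.Agent.H68R3
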