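import Pool.Agent.H68R3.HM1

set_option autoImplicit false

open MeasureTheory Filter Topology Set
open scoped ENNReal NNReal RealInnerProductSpace

/-!
Truncation, point capacity of the unit ball and the lower bound.
-/

namespace Pool.Agent.H68R3

open Pool.Agent.Helper533.Polar

variable {n : ℕ} {p : ℝ}

theorem BB_sub {x y : ℝ} (hx : 1 ≤ x) (hy : 1 ≤ y) : BB x - BB y = x - y := by
  have h1 := intervalIntegral.integral_add_adjacent_intervals (BB_int 0 y) (BB_int y x)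
  have h2 : ∫ t in y..x, Real.smoothTransition t = ∫ t in y..x, (1:ℝ) := by
    refine intervalIntegral.integral_congr fun t ht => ?_
    exact Real.smoothTransition.one_of_one_le ((le_min hy hx).trans ht.1)
  unfold BB
  rw [← h1, h2]
  simp

/-- smooth truncation from below and from above -/
theorem exists_trunc {η : ℝ} (h0 : 0 < η) (h1 : η < 1 / 3) : ∃ β : ℝ → ℝ,
    ContDiff ℝ (⊤ : ℕ∞) β ∧ (∀ s, s ≤ η → β s = 0) ∧ (∀ s, 1 - η ≤ s → β s = 1) ∧
      ∀ s, |deriv β s| ≤ (1 - 3 * η)⁻¹ := by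
  have h3 : 0 < 1 - 3 * η := by linarith
  set β : ℝ → ℝ := fun s => (1 - 3 * η)⁻¹ *
    (η * BB (η⁻¹ * (s - η)) - η * BB (η⁻¹ * (s - (1 - 2 * η)))) with hβ
  have hder : ∀ s, HasDerivAt β ((1 - 3 * η)⁻¹ *
      (Real.smoothTransition (η⁻¹ * (s - η)) -
        Real.smoothTransition (η⁻¹ * (s - (1 - 2 * η))))) s := by
    intro s
    have k1 : ∀ c : ℝ, HasDerivAt (fun s : ℝ => η * BB (η⁻¹ * (s - c)))
        (Real.smoothTransition (η⁻¹ * (s - c))) s := by
      intro c
      have k2 : HasDerivAt (fun s : ℝ => η⁻¹ * (s - c)) (η⁻¹ * 1) s :=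
        ((hasDerivAt_id s).sub_const c).const_mul _
      have k3 := ((BB_hasDerivAt (η⁻¹ * (s - c))).comp s k2).const_mul η
      refine k3.congr_deriv ?_
      field_simp
    exact ((k1 _).sub (k1 _)).const_mul _
  refine ⟨β, ?_, fun s hs => ?_, fun s hs => ?_, fun s => ?_⟩
  · have k1 := BB_contDiff
    have k2 : ∀ c : ℝ, ContDiff ℝ (⊤ : ℕ∞) fun s : ℝ => BB (η⁻¹ * (s - c)) := fun c =>
      k1.comp (contDiff_const.mul (contDiff_id.sub contDiff_const))
    exact contDiff_const.mul ((contDiff_const.mul (k2 _)).sub (contDiff_const.mul (k2 _)))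
  · simp only [β]
    rw [BB_nonpos, BB_nonpos]
    · simp
    · exact mul_nonpos_of_nonneg_of_nonpos (by positivity) (by linarith)
    · exact mul_nonpos_of_nonneg_of_nonpos (by positivity) (by linarith)
  · simp only [β]
    rw [← mul_sub, BB_sub]
    · field_simp
      ring
    · rw [inv_mul_eq_div, one_le_div h0]; linarith
    · rw [inv_mul_eq_div, one_le_div h0]; linarith
  · rw [(hder s).deriv, abs_mul, abs_of_pos (inv_pos.2 h3)]
    refine mul_le_of_le_one_right (inv_pos.2 h3).le ?_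
    have := Real.smoothTransition.nonneg (η⁻¹ * (s - η))
    have := Real.smoothTransition.le_one (η⁻¹ * (s - η))
    have := Real.smoothTransition.nonneg (η⁻¹ * (s - (1 - 2 * η)))
    have := Real.smoothTransition.le_one (η⁻¹ * (s - (1 - 2 * η)))
    rw [abs_le]
    constructor <;> linarith

/-- continuous functions of finite energy supported in the closed unit ball -/
structure Fe (p : ℝ) (u : Sp n → ℝ) (W : Sp n → Sp n) : Prop where
  cont : Continuous u
  h0 : H0 p volume univ u W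
  out : ∀ x, 1 ≤ ‖x‖ → u x = 0

theorem Fe.moll (hn : 1 ≤ n) (hp : 1 < p) {u : Sp n → ℝ} {W : Sp n → Sp n} (h : Fe p u W) {δ : ℝ}
    (hδ : 0 < δ) : ∃ φ : Sp n → ℝ, Cc univ φ ∧ (∀ x, |φ x - u x| ≤ δ) ∧
      En p (gradient φ) ≤ En p W := by
  obtain ⟨φ, h1, -, -, -, h2, h3⟩ := mollify_weak hn hp h.h0.mu h.h0.mU
    (isCompact_closedBall (0 : Sp n) 1) (Eventually.of_forall fun x hx => h.out x (by
      simp only [Metric.mem_closedBall, dist_zero_right, not_le] at hx
      exact hx.le)) (fun φ hφ => H0.ibp hp h.h0 hφ) hδ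
  refine ⟨φ, h1, h3 h.cont, ?_⟩
  have h4 := h2 univ MeasurableSet.univ
  have h5 : Metric.thickening δ (univ : Set (Sp n)) = univ :=
    eq_univ_of_univ_subset (Metric.self_subset_thickening hδ univ)
  rw [h5] at h4
  simp only [Measure.restrict_univ] at h4
  exact h4

/-- Morrey's inequality, real form -/
theorem morreyR (hn : 1 ≤ n) (hp : (n : ℝ) < p) : ∃ K : ℝ, 0 < K ∧
    ∀ (u : Sp n → ℝ) (W : Sp n → Sp n), Fe p u W → ∀ E : ℝ, 0 ≤ E → En p W ≤ ENNReal.ofReal E →
      ∀ x y, |u x - u y| ≤ K * (‖x - y‖ ^ (p - n) * E) ^ (1 / p) := by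
  have hn' : (1 : ℝ) ≤ n := by exact_mod_cast hn
  have hp0 : 0 < p := by linarith
  obtain ⟨C, hC, h⟩ := morrey hn hp
  refine ⟨C.toReal + 1, by positivity, fun u W hu E hE hEW x y => ?_⟩
  refine le_of_forall_pos_le_add fun δ hδ => ?_
  obtain ⟨φ, h1, h2, h3⟩ := hu.moll hn (by linarith) (δ := δ / 2) (by positivity)
  have h4 := h φ (h1.smooth.of_le (by exact_mod_cast le_top)) x y
  have h5 : ‖φ x - φ y‖ₑ ≤ ENNReal.ofReal (C.toReal * (‖x - y‖ ^ (p - n) * E) ^ (1 / p)) := by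
    refine h4.trans ?_
    rw [ENNReal.ofReal_mul ENNReal.toReal_nonneg, ENNReal.ofReal_toReal hC]
    refine mul_le_mul_right ?_ _
    rw [← ENNReal.ofReal_rpow_of_nonneg (p := 1 / p) (by positivity) (by positivity),
      ENNReal.ofReal_mul (by positivity)]
    exact ENNReal.rpow_le_rpow (mul_le_mul_right (h3.trans hEW) _) (by positivity)
  rw [Real.enorm_eq_ofReal_abs, ENNReal.ofReal_le_ofReal_iff (by positivity)] at h5
  have h6 := h2 x
  have h7 := h2 y
  have h8 : 0 ≤ (‖x - y‖ ^ (p - n) * E) ^ (1 / p) := by positivity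
  have h9 : |u x - u y| ≤ |φ x - φ y| + δ := by
    rw [abs_le] at h6 h7 ⊢
    have := neg_abs_le (φ x - φ y)
    have := le_abs_self (φ x - φ y)
    constructor <;> linarith
  linarith

/-- admissible functions for the capacity of a point in the unit ball -/
structure Adm1 (φ : Sp n → ℝ) : Prop where
  cc : Cc (Metric.ball 0 1) φ
  one : ∀ᶠ z in 𝓝 (0 : Sp n), φ z = 1

/-- capacity of a point in the unit ball -/
noncomputable def cp (n : ℕ) (p : ℝ) : ℝ≥0∞ := ⨅ (φ : Sp n → ℝ) (_ : Adm1 φ), En p (gradient φ)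

theorem Cc_affine {D : Set (Sp n)} {φ : Sp n → ℝ} (h : Cc D φ) (x : Sp n) {t : ℝ} (ht : t ≠ 0) :
    Cc ((fun z => x + t • z) ⁻¹' D) (fun z => φ (x + t • z)) := by
  have hc : Continuous fun z : Sp n => x + t • z := by fun_prop
  have hsub : tsupport (fun z => φ (x + t • z)) ⊆ (fun z => x + t • z) ⁻¹' tsupport φ := by
    refine closure_minimal ?_ ((isClosed_tsupport φ).preimage hc)
    intro z hz
    exact subset_tsupport φ hz
  refine ⟨h.smooth.comp (by fun_prop), ?_, hsub.trans (preimage_mono h.supp)⟩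
  refine HasCompactSupport.of_support_subset_isCompact (K := (fun y => t⁻¹ • (y - x)) '' tsupport φ)
    (h.comp.isCompact.image (by fun_prop)) ?_
  intro z hz
  refine ⟨x + t • z, subset_tsupport φ hz, ?_⟩
  simp only [add_sub_cancel_left]
  rw [smul_smul, inv_mul_cancel₀ ht, one_smul]

/-- capacity bound for functions supported in a ball -/
theorem cp_le_ball (hp : 0 < p) {v : Sp n → ℝ} {x : Sp n} {ρ : ℝ} (hρ : 0 < ρ)
    (hv : Cc (Metric.ball x ρ) v) (h1 : ∀ᶠ z in 𝓝 x, v z = 1) :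
    cp n p ≤ ENNReal.ofReal (ρ ^ (p - n)) * En p (gradient v) := by
  rw [← En_affine hp (hv.smooth.of_le (by exact_mod_cast le_top)) x hρ]
  refine iInf₂_le_of_le _ ⟨(Cc_affine hv x hρ.ne').mono ?_, ?_⟩ le_rfl
  · intro z hz
    simp only [mem_preimage, Metric.mem_ball, dist_eq_norm, add_sub_cancel_left, norm_smul,
      Real.norm_eq_abs, abs_of_pos hρ] at hz
    simp only [Metric.mem_ball, dist_zero_right]
    by_contra hc
    push Not at hc
    nlinarith
  · have hc : Tendsto (fun z : Sp n => x + ρ • z) (𝓝 0) (𝓝 x) := by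
      have : Continuous fun z : Sp n => x + ρ • z := by fun_prop
      have h2 := this.tendsto 0
      simpa using h2
    exact hc.eventually h1

/-- smooth functions that are small on a sphere and almost one at the centre -/
theorem cp_le_sphere (hp : 0 < p) {φ : Sp n → ℝ} {D : Set (Sp n)} (hφ : Cc D φ) {x : Sp n}
    {ρ η : ℝ} (hρ : 0 < ρ) (h0 : 0 < η) (h3 : η < 1 / 3)
    (hS : ∀ y, dist y x = ρ → φ y < η) (hx : 1 - η < φ x) :
    cp n p ≤ ENNReal.ofReal (ρ ^ (p - n) * ((1 - 3 * η)⁻¹) ^ p) * En p (gradient φ) := by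
  obtain ⟨β, hβ, hβ0, hβ1, hβd⟩ := exists_trunc h0 h3
  have h3' : 0 < 1 - 3 * η := by linarith
  set K : Set (Sp n) := {z | dist z x ≤ ρ ∧ η ≤ φ z} with hK
  have hKc : IsCompact K := by
    refine (isCompact_closedBall x ρ).of_isClosed_subset ?_ fun z hz => hz.1
    exact (isClosed_le (continuous_id.dist continuous_const) continuous_const).inter
      (isClosed_le continuous_const hφ.cont)
  have hKs : K ⊆ Metric.ball x ρ := by
    intro z hz
    rcases lt_or_eq_of_le hz.1 with h | h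
    · exact h
    · exact absurd hz.2 (not_le.2 (hS z h))
  obtain ⟨χ, hχ, -, W, hW, hKW, -, hχ1⟩ := exists_cutoff hKc Metric.isOpen_ball hKs
  set v : Sp n → ℝ := fun z => χ z * β (φ z) with hv
  have hβs : ContDiff ℝ (⊤ : ℕ∞) fun z => β (φ z) := hβ.comp hφ.smooth
  have hvc : Cc (Metric.ball x ρ) v := hχ.mul_smooth hβs
  have hgβ : ∀ z, gradient (fun z => β (φ z)) z = deriv β (φ z) • gradient φ z := fun z =>
    grad_comp (hφ.diff z) ((hβ.differentiable (by simp)) _)
  have hgβle : ∀ z, ‖gradient (fun z => β (φ z)) z‖ ≤ ‖(1 - 3 * η)⁻¹ • gradient φ z‖ := by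
    intro z
    rw [hgβ, norm_smul, norm_smul, Real.norm_eq_abs, Real.norm_eq_abs, abs_of_pos (inv_pos.2 h3')]
    exact mul_le_mul_of_nonneg_right (hβd _) (norm_nonneg _)
  have hgv : ∀ z, ‖gradient v z‖ ≤ ‖(1 - 3 * η)⁻¹ • gradient φ z‖ := by
    intro z
    by_cases hzb : z ∈ Metric.ball x ρ
    · by_cases hzK : z ∈ K
      · have h4 : v =ᶠ[𝓝 z] fun z => β (φ z) := by
          filter_upwards [hW.mem_nhds (hKW hzK)] with y hy
          simp only [v]
          rw [hχ1 y hy, one_mul]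
        rw [h4.gradient_eq]
        exact hgβle z
      · have h5 : φ z < η := by
          by_contra hc
          exact hzK ⟨(Metric.mem_ball.1 hzb).le, not_lt.1 hc⟩
        have h4 : v =ᶠ[𝓝 z] fun _ => 0 := by
          filter_upwards [(isOpen_lt hφ.cont continuous_const).mem_nhds h5] with y hy
          simp only [v]
          rw [hβ0 _ (le_of_lt hy), mul_zero]
        rw [h4.gradient_eq]
        simp [gradient]
    · rw [grad_zero_of_notMem fun h => hzb (hvc.supp h)]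
      simp
  have hone : ∀ᶠ z in 𝓝 x, v z = 1 := by
    have hxK : x ∈ K := ⟨by simp [hρ.le], by linarith⟩
    filter_upwards [hW.mem_nhds (hKW hxK), (isOpen_lt continuous_const hφ.cont).mem_nhds hx]
      with y hy1 hy2
    simp only [v]
    rw [hχ1 y hy1, hβ1 _ (le_of_lt hy2), one_mul]
  refine (cp_le_ball hp hρ hvc hone).trans ?_
  rw [ENNReal.ofReal_mul (by positivity), mul_assoc]
  refine mul_le_mul_right ?_ _
  refine (En_mono hp hgv).trans (le_of_eq ?_)
  rw [En_smul hp, abs_of_pos (inv_pos.2 h3')]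

/-- oscillation on a good sphere, in terms of the `p`-energy -/
theorem osc_good (hn : 2 ≤ n) : ∃ C : ℝ, 0 < C ∧ ∀ p : ℝ, (n : ℝ) < p → p ≤ n + 1 →
    ∀ (φ : Sp n → ℝ) (x : Sp n) (R E : ℝ), 0 < R → 0 ≤ E → ContDiff ℝ 1 φ →
      En p (gradient φ) ≤ ENNReal.ofReal E →
      ∃ ρ : ℝ, R ≤ ρ ∧ ρ ≤ 2 * R ∧ ∀ y z, dist y x = ρ → dist z x = ρ →
        |φ y - φ z| ≤ C * (R ^ (p - n) * E) ^ (1 / p) := by
  obtain ⟨C₀, hC₀, hosc⟩ := sphere_osc_smooth hn
  have hn0 : (0:ℝ) < n := by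
    have : 0 < n := by omega
    exact_mod_cast this
  set v : ℝ := (volume (Metric.closedBall (0 : Sp n) 1)).toReal with hv
  have hvt : volume (Metric.closedBall (0 : Sp n) 1) ≠ ∞ :=
    (isCompact_closedBall (0 : Sp n) 1).measure_lt_top.ne
  set M : ℝ := max 1 v with hM
  have hM1 : 1 ≤ M := le_max_left _ _
  refine ⟨((C₀.toReal + 1) * (2 * M)) ^ (1 / (n:ℝ)), by positivity, ?_⟩
  intro p hp hp1 φ x R E hR hE hφ hEn
  have hp0 : 0 < p := hn0.trans hp
  obtain ⟨ρ, h1, h2, h3⟩ := hosc Unit (fun _ => φ) x R hR (fun _ => hφ)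
  refine ⟨ρ, h1, h2, fun y z hy hz => ?_⟩
  have h4 := h3 () y hy z hz
  simp only [Finset.univ_unique, Finset.sum_singleton] at h4
  set S : Set (Sp n) := {y | R ≤ dist y x ∧ dist y x ≤ 2 * R} with hS
  have hgc : Continuous (gradient φ) :=
    ((InnerProductSpace.toDual ℝ (Sp n)).symm.continuous).comp (hφ.continuous_fderiv (by norm_num))
  have hq : 1 < p / n := (one_lt_div hn0).2 hp
  have h5 := Pool.Agent.Helper795.LusinN.lintegral_le_rpow (volume.restrict S) hq
    (h := fun y => ‖gradient φ y‖ₑ ^ (n:ℝ)) (by exact (hgc.measurable.enorm.pow_const _).aemeasurable)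
  have e1 : ∀ y, (‖gradient φ y‖ₑ ^ (n:ℝ)) ^ (p / n) = ‖gradient φ y‖ₑ ^ p := by
    intro y
    rw [← ENNReal.rpow_mul]
    congr 1; field_simp
  simp_rw [e1] at h5
  rw [Measure.restrict_apply_univ] at h5
  have e2 : 1 / (p / n) = n / p := by field_simp
  rw [e2] at h5
  have hvol : volume S ≤ ENNReal.ofReal ((2 * R) ^ n * v) := by
    calc volume S ≤ volume (Metric.closedBall x (2 * R)) := measure_mono fun y hy => hy.2
      _ = ENNReal.ofReal ((2 * R) ^ n) * volume (Metric.closedBall (0 : Sp n) 1) := by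
          rw [Measure.addHaar_closedBall' _ _ (by positivity), finrank_euclideanSpace_fin]
      _ = _ := by rw [ENNReal.ofReal_mul (by positivity), ENNReal.ofReal_toReal hvt]
  have hθ : 0 ≤ 1 - (n:ℝ) / p := by
    have : (n:ℝ) / p ≤ 1 := (div_le_one hp0).2 hp.le
    linarith
  have h6 : ∫⁻ y in S, ‖gradient φ y‖ₑ ^ (n:ℝ) ≤
      ENNReal.ofReal (E ^ ((n:ℝ) / p) * ((2 * R) ^ n * v) ^ (1 - (n:ℝ) / p)) := by
    refine h5.trans ?_
    rw [ENNReal.ofReal_mul (by positivity), ← ENNReal.ofReal_rpow_of_nonneg hE (by positivity),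
      ← ENNReal.ofReal_rpow_of_nonneg (by positivity) hθ]
    refine mul_le_mul' (ENNReal.rpow_le_rpow ?_ (by positivity)) (ENNReal.rpow_le_rpow hvol hθ)
    exact (setLIntegral_le_lintegral _ _).trans hEn
  have h7 : ‖φ y - φ z‖ₑ ^ (n:ℝ) ≤ ENNReal.ofReal ((C₀.toReal + 1) *
      (E ^ ((n:ℝ) / p) * ((2 * R) ^ n * v) ^ (1 - (n:ℝ) / p))) := by
    refine h4.trans ?_
    rw [ENNReal.ofReal_mul (by positivity)]
    refine mul_le_mul' ?_ h6
    rw [← ENNReal.ofReal_toReal hC₀]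
    refine ENNReal.ofReal_le_ofReal ?_
    rw [ENNReal.toReal_ofReal ENNReal.toReal_nonneg]
    linarith
  rw [Real.enorm_eq_ofReal_abs, ENNReal.ofReal_rpow_of_nonneg (abs_nonneg _) hn0.le,
    ENNReal.ofReal_le_ofReal_iff (by positivity)] at h7
  -- simplify the right-hand side
  have h8 : ((2 * R) ^ n * v) ^ (1 - (n:ℝ) / p) ≤ 2 * M * (R ^ (p - n)) ^ ((n:ℝ) / p) := by
    rw [Real.mul_rpow (by positivity) ENNReal.toReal_nonneg, ← Real.rpow_natCast,
      ← Real.rpow_mul (by positivity), Real.mul_rpow (by norm_num) hR.le, ← Real.rpow_mul hR.le]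
    have e3 : (n:ℝ) * (1 - n / p) = (p - n) * (n / p) := by field_simp
    rw [e3]
    have k1 : (2:ℝ) ^ ((p - n) * ((n:ℝ) / p)) ≤ 2 := by
      calc (2:ℝ) ^ ((p - n) * ((n:ℝ) / p)) ≤ 2 ^ (1:ℝ) := by
            refine Real.rpow_le_rpow_of_exponent_le (by norm_num) ?_
            have : (n:ℝ) / p ≤ 1 := (div_le_one hp0).2 hp.le
            have h9 : 0 ≤ (n:ℝ) / p := by positivity
            nlinarith
        _ = 2 := Real.rpow_one 2
    have k2 : v ^ (1 - (n:ℝ) / p) ≤ M := by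
      calc v ^ (1 - (n:ℝ) / p) ≤ M ^ (1 - (n:ℝ) / p) :=
            Real.rpow_le_rpow ENNReal.toReal_nonneg (le_max_right _ _) hθ
        _ ≤ M ^ (1:ℝ) := by
            refine Real.rpow_le_rpow_of_exponent_le hM1 ?_
            have : 0 ≤ (n:ℝ) / p := by positivity
            linarith
        _ = M := Real.rpow_one M
    have k3 : 0 ≤ R ^ ((p - n) * ((n:ℝ) / p)) := by positivity
    have k4 : 0 ≤ v ^ (1 - (n:ℝ) / p) := Real.rpow_nonneg ENNReal.toReal_nonneg _
    calc _ = (2:ℝ) ^ ((p - n) * ((n:ℝ) / p)) * v ^ (1 - (n:ℝ) / p) *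
          R ^ ((p - n) * ((n:ℝ) / p)) := by ring
      _ ≤ 2 * M * R ^ ((p - n) * ((n:ℝ) / p)) := by
          refine mul_le_mul_of_nonneg_right ?_ k3
          exact mul_le_mul k1 k2 k4 (by norm_num)
  have h9 : |φ y - φ z| ^ (n:ℝ) ≤
      (C₀.toReal + 1) * (2 * M) * (R ^ (p - n) * E) ^ ((n:ℝ) / p) := by
    refine h7.trans ?_
    rw [Real.mul_rpow (by positivity) hE]
    have : 0 ≤ E ^ ((n:ℝ) / p) := by positivity
    have h10 : 0 ≤ C₀.toReal + 1 := by positivity
    calc _ ≤ (C₀.toReal + 1) * (E ^ ((n:ℝ) / p) * (2 * M * (R ^ (p - n)) ^ ((n:ℝ) / p))) := by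
          refine mul_le_mul_of_nonneg_left (mul_le_mul_of_nonneg_left h8 this) h10
      _ = _ := by ring
  have h10 : |φ y - φ z| = (|φ y - φ z| ^ (n:ℝ)) ^ (1 / (n:ℝ)) := by
    rw [← Real.rpow_mul (abs_nonneg _), mul_one_div_cancel hn0.ne', Real.rpow_one]
  rw [h10]
  refine (Real.rpow_le_rpow (by positivity) h9 (by positivity)).trans (le_of_eq ?_)
  rw [Real.mul_rpow (by positivity) (by positivity), ← Real.rpow_mul (by positivity)]
  congr 2
  field_simp

/-- the lower bound -/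
theorem lower (hn : 2 ≤ n) : ∃ C : ℝ, 0 < C ∧ ∀ p : ℝ, (n : ℝ) < p → p ≤ n + 1 →
    ∀ (u : Sp n → ℝ) (W : Sp n → Sp n), Fe p u W → ∀ (x : Sp n) (R E η : ℝ), 0 < R → 0 ≤ E →
      En p W ≤ ENNReal.ofReal E → u x = 1 →
      (∀ r, R ≤ r → r ≤ 2 * R → ∃ y, dist y x = r ∧ u y = 0) → 0 < η → η < 1 / 3 →
      C * (R ^ (p - n) * E) ^ (1 / p) < η →
      cp n p ≤ ENNReal.ofReal ((2 * R) ^ (p - n) * ((1 - 3 * η)⁻¹) ^ p * E) := by
  obtain ⟨C, hC, h⟩ := osc_good hn
  refine ⟨C, hC, fun p hp hp1 u W hu x R E η hR hE hEW hux hcirc h0 h3 hosc => ?_⟩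
  have hn0 : (2:ℝ) ≤ n := by exact_mod_cast hn
  have hp0 : 0 < p := by linarith
  set a : ℝ := C * (R ^ (p - n) * E) ^ (1 / p) with ha
  have ha0 : 0 ≤ a := by positivity
  obtain ⟨φ, h4, h5, h6⟩ := hu.moll (by omega) (by linarith) (δ := (η - a) / 2) (by linarith)
  obtain ⟨ρ, h7, h8, h9⟩ := h p hp hp1 φ x R E hR hE
    (h4.smooth.of_le (by exact_mod_cast le_top)) (h6.trans hEW)
  obtain ⟨y, hy, huy⟩ := hcirc ρ h7 h8
  have hρ : 0 < ρ := hR.trans_le h7
  have h3' : 0 < 1 - 3 * η := by linarith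
  refine (cp_le_sphere hp0 h4 (x := x) hρ h0 h3 (fun z hz => ?_) ?_).trans ?_
  · have h10 := h9 z y hz hy
    have h11 := h5 y
    rw [huy, sub_zero] at h11
    have := le_abs_self (φ z - φ y)
    have := le_abs_self (φ y)
    linarith
  · have h11 := h5 x
    rw [hux, abs_le] at h11
    linarith
  · rw [ENNReal.ofReal_mul (p := (2 * R) ^ (p - n) * ((1 - 3 * η)⁻¹) ^ p) (by positivity)]
    refine mul_le_mul' (ENNReal.ofReal_le_ofReal ?_) (h6.trans hEW)
    refine mul_le_mul_of_nonneg_right ?_ (by positivity)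
    exact Real.rpow_le_rpow hρ.le h8 (by linarith)

end Pool.Agent.H68R3
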