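import Pool.Agent.H68R3.HM2

set_option autoImplicit false

open MeasureTheory Filter Topology Set
open scoped ENNReal NNReal RealInnerProductSpace

/-!
The capacity of a point: finiteness, positivity, smallness for `p` close to `n`; the upper bound.
-/

namespace Pool.Agent.H68R3

open Pool.Agent.Helper533.Polar

variable {n : ℕ} {p : ℝ}

theorem exists_Adm1 : ∃ φ : Sp n → ℝ, Adm1 φ := by
  obtain ⟨η, hη, -, W, hW, hKW, -, h1⟩ := exists_cutoff (isCompact_singleton (x := (0 : Sp n)))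
    (Metric.isOpen_ball (x := (0 : Sp n)) (ε := 1)) (by simp)
  exact ⟨η, hη, by
    filter_upwards [hW.mem_nhds (hKW rfl)] with y hy
    exact h1 y hy⟩

theorem cp_ne_top (hp : 0 < p) : cp n p ≠ ∞ := by
  obtain ⟨φ, hφ⟩ := exists_Adm1 (n := n)
  refine ne_of_lt (lt_of_le_of_lt (iInf₂_le φ hφ) (lt_top_iff_ne_top.2 ?_))
  exact Cc_En_ne_top hp hφ.cc

theorem cp_pos (hn : 1 ≤ n) (hp : (n : ℝ) < p) : 0 < cp n p := by
  have hn' : (1 : ℝ) ≤ n := by exact_mod_cast hn
  have hp0 : 0 < p := by linarith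
  obtain ⟨C, hC, h⟩ := morrey hn hp
  obtain ⟨e, he⟩ : ∃ e : Sp n, ‖e‖ = 1 := ⟨EuclideanSpace.single ⟨0, hn⟩ 1, by simp⟩
  have key : (C⁻¹) ^ p ≤ cp n p := by
    refine le_iInf₂ fun φ hφ => ?_
    have h1 := h φ (hφ.cc.smooth.of_le (by exact_mod_cast le_top)) 0 e
    have h2 : φ 0 = 1 := hφ.one.self_of_nhds
    have h3 : φ e = 0 := zero_of_notMem fun h' => by
      have := hφ.cc.supp h'
      simp [he] at this
    rw [h2, h3, sub_zero, zero_sub, norm_neg, he, Real.one_rpow, ENNReal.ofReal_one, one_mul] at h1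
    simp only [enorm_one] at h1
    have hC0 : C ≠ 0 := by
      rintro rfl
      simp at h1
    have h4 : C⁻¹ ≤ En p (gradient φ) ^ (1 / p) := by
      rw [ENNReal.inv_le_iff_le_mul (fun _ => hC0) (fun h' => absurd h' hC)]
      exact h1
    calc C⁻¹ ^ p ≤ (En p (gradient φ) ^ (1 / p)) ^ p := ENNReal.rpow_le_rpow h4 hp0.le
      _ = En p (gradient φ) := by
          rw [← ENNReal.rpow_mul, one_div, inv_mul_cancel₀ hp0.ne', ENNReal.rpow_one]
  refine lt_of_lt_of_le ?_ key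
  exact ENNReal.rpow_pos (ENNReal.inv_pos.2 hC) (ENNReal.inv_ne_top.2 (by
    rintro rfl
    obtain ⟨φ, hφ⟩ := exists_Adm1 (n := n)
    have h1 := h φ (hφ.cc.smooth.of_le (by exact_mod_cast le_top)) 0 e
    have h2 : φ 0 = 1 := hφ.one.self_of_nhds
    have h3 : φ e = 0 := zero_of_notMem fun h' => by
      have := hφ.cc.supp h'
      simp [he] at this
    rw [h2, h3] at h1
    simp at h1))

theorem En_add_le (hp : 0 < p) {U V : Sp n → Sp n} (hU : Continuous U)
    (h : ∀ z, U z = 0 ∨ V z = 0) : En p (fun z => U z + V z) ≤ En p U + En p V := by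
  unfold En
  rw [← lintegral_add_left (hU.measurable.enorm.pow_const _)]
  refine lintegral_mono fun z => ?_
  show ‖U z + V z‖ₑ ^ p ≤ ‖U z‖ₑ ^ p + ‖V z‖ₑ ^ p
  rcases h z with h1 | h1
  · rw [h1, zero_add, enorm_zero, ENNReal.zero_rpow_of_pos hp, zero_add]
  · rw [h1, add_zero, enorm_zero, ENNReal.zero_rpow_of_pos hp, add_zero]

theorem En_neg (V : Sp n → Sp n) : En p (fun z => - V z) = En p V := by
  unfold En
  simp

/-- halving the conformal energy -/
theorem halve (hn : 2 ≤ n) {φ : Sp n → ℝ} (hφ : Adm1 φ) : ∃ ψ : Sp n → ℝ, Adm1 ψ ∧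
    En n (gradient ψ) ≤ ENNReal.ofReal (1 / 2) * En n (gradient φ) := by
  have hn0 : (2:ℝ) ≤ n := by exact_mod_cast hn
  have hn0' : (0:ℝ) < n := by linarith
  obtain ⟨τ, hτ, hτ1⟩ := Metric.eventually_nhds_iff.1 hφ.one
  -- make `τ ≤ 1`
  obtain ⟨τ, hτ, hτ1, hτ2⟩ : ∃ τ : ℝ, 0 < τ ∧ τ ≤ 1 ∧ ∀ z : Sp n, ‖z‖ < τ → φ z = 1 :=
    ⟨min τ 1, lt_min hτ one_pos, min_le_right _ _, fun z hz => hτ1 (by
      rw [dist_zero_right]; exact hz.trans_le (min_le_left _ _))⟩
  set φ' : Sp n → ℝ := fun z => φ (0 + τ⁻¹ • z) with hφ'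
  have hcc' : Cc (Metric.ball 0 τ) φ' := by
    refine (Cc_affine hφ.cc 0 (inv_ne_zero hτ.ne')).mono ?_
    intro z hz
    simp only [mem_preimage, Metric.mem_ball, dist_zero_right, zero_add, norm_smul, norm_inv,
      Real.norm_eq_abs, abs_of_pos hτ] at hz ⊢
    rwa [inv_mul_lt_iff₀ hτ, mul_one] at hz
  have hcc'' : Cc (Metric.ball 0 1) φ' := hcc'.mono (Metric.ball_subset_ball hτ1)
  set ψ : Sp n → ℝ := fun z => (1 / 2) * (φ z + φ' z) with hψ
  have hg : gradient ψ = fun z => (1 / 2 : ℝ) • (gradient φ z + gradient φ' z) := by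
    ext1 z
    have h1 := grad_const_mul (1 / 2) (((hφ.cc.add hcc'').diff) z)
    rw [hψ, h1, grad_add (hφ.cc.diff z) (hcc''.diff z)]
  refine ⟨ψ, ⟨(hφ.cc.add hcc'').const_mul _, ?_⟩, ?_⟩
  · have h2 : Tendsto (fun z : Sp n => (0 : Sp n) + τ⁻¹ • z) (𝓝 0) (𝓝 0) := by
      have : Continuous fun z : Sp n => (0 : Sp n) + τ⁻¹ • z := by fun_prop
      have h2 := this.tendsto 0
      simpa using h2
    filter_upwards [hφ.one, h2.eventually hφ.one] with z h3 h4
    simp only [ψ, φ']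
    rw [h3, h4]; norm_num
  · rw [hg, En_smul hn0' (1 / 2) (fun z => gradient φ z + gradient φ' z)]
    have h3 : En n (gradient φ') = En n (gradient φ) := by
      rw [En_affine hn0' (hφ.cc.smooth.of_le (by exact_mod_cast le_top)) 0 (inv_pos.2 hτ), sub_self,
        Real.rpow_zero, ENNReal.ofReal_one, one_mul]
    have h4 := En_add_le hn0' (U := gradient φ) (V := gradient φ') hφ.cc.cont_grad (by
      intro z
      by_cases hz : ‖z‖ < τ
      · left
        refine grad_zero_of_const_on (W := Metric.ball 0 τ) Metric.isOpen_ball (c := 1) ?_ ?_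
        · intro x hx
          exact hτ2 x (by simpa using hx)
        · simpa using hz
      · right
        refine grad_zero_of_notMem fun h' => hz ?_
        have := hcc'.supp h'
        simpa using this)
    rw [h3, ← two_mul] at h4
    refine (mul_le_mul_right h4 _).trans ?_
    rw [← mul_assoc]
    refine mul_le_mul_left ?_ _
    rw [← ENNReal.ofReal_ofNat, ← ENNReal.ofReal_mul (by positivity)]
    refine ENNReal.ofReal_le_ofReal ?_
    rw [abs_of_pos (by norm_num : (0:ℝ) < 1 / 2)]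
    have : ((1:ℝ) / 2) ^ (n:ℝ) ≤ (1 / 2) ^ (2:ℝ) :=
      Real.rpow_le_rpow_of_exponent_ge (by norm_num) (by norm_num) hn0
    have h5 : ((1:ℝ) / 2) ^ (2:ℝ) = 1 / 4 := by
      rw [show (2:ℝ) = ((2:ℕ):ℝ) by norm_num, Real.rpow_natCast]; norm_num
    rw [h5] at this
    linarith

theorem exists_small (hn : 2 ≤ n) {δ : ℝ} (hδ : 0 < δ) : ∃ φ : Sp n → ℝ, Adm1 φ ∧
    En n (gradient φ) ≤ ENNReal.ofReal δ := by
  have hn0 : (2:ℝ) ≤ n := by exact_mod_cast hn
  obtain ⟨φ₀, hφ₀⟩ := exists_Adm1 (n := n)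
  have ht : En n (gradient φ₀) ≠ ∞ := Cc_En_ne_top (by linarith) hφ₀.cc
  set a : ℝ := (En n (gradient φ₀)).toReal with ha
  have ha0 : 0 ≤ a := ENNReal.toReal_nonneg
  have key : ∀ k : ℕ, ∃ φ : Sp n → ℝ, Adm1 φ ∧
      En n (gradient φ) ≤ ENNReal.ofReal ((1 / 2) ^ k * a) := by
    intro k
    induction k with
    | zero => exact ⟨φ₀, hφ₀, by rw [pow_zero, one_mul, ha, ENNReal.ofReal_toReal ht]⟩
    | succ k ih =>
      obtain ⟨φ, h1, h2⟩ := ih
      obtain ⟨ψ, h3, h4⟩ := halve hn h1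
      refine ⟨ψ, h3, h4.trans ((mul_le_mul_right h2 _).trans (le_of_eq ?_))⟩
      rw [← ENNReal.ofReal_mul (by norm_num)]
      congr 1; ring
  obtain ⟨k, hk⟩ := exists_pow_lt_of_lt_one (y := (1 / 2 : ℝ)) (x := δ / (a + 1)) (by positivity)
    (by norm_num)
  obtain ⟨φ, h1, h2⟩ := key k
  refine ⟨φ, h1, h2.trans (ENNReal.ofReal_le_ofReal ?_)⟩
  have h3 : (1 / 2 : ℝ) ^ k * (a + 1) < δ := (lt_div_iff₀ (by positivity)).1 hk
  have h4 : 0 ≤ (1 / 2 : ℝ) ^ k := by positivity
  nlinarith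

/-- the capacity of a point tends to zero as `p` decreases to `n` -/
theorem cp_small (hn : 2 ≤ n) {δ : ℝ} (hδ : 0 < δ) :
    ∀ᶠ p in 𝓝[>] (n : ℝ), cp n p < ENNReal.ofReal δ := by
  have hn0 : (2:ℝ) ≤ n := by exact_mod_cast hn
  obtain ⟨φ, hφ, hE⟩ := exists_small hn (δ := δ / 4) (by positivity)
  obtain ⟨M, hM⟩ := hφ.cc.cont_grad.bounded_above_of_compact_support hφ.cc.comp_grad
  set M' : ℝ := max 1 M with hM'
  have hM1 : 1 ≤ M' := le_max_left _ _
  have hM2 : ∀ x, ‖gradient φ x‖ ≤ M' := fun x => (hM x).trans (le_max_right _ _)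
  have hcont : Continuous fun p : ℝ => M' ^ (p - n) :=
    Continuous.rpow continuous_const (by fun_prop) (fun _ => Or.inl (by positivity))
  have h1 : ∀ᶠ p : ℝ in 𝓝[>] (n : ℝ), M' ^ (p - n) < 2 := by
    have : Tendsto (fun p : ℝ => M' ^ (p - n)) (𝓝[>] (n:ℝ)) (𝓝 1) := by
      have h2 := (hcont.tendsto (n:ℝ)).mono_left (nhdsWithin_le_nhds (s := Ioi (n:ℝ)))
      simpa using h2
    exact this.eventually (gt_mem_nhds (by norm_num))
  filter_upwards [h1, self_mem_nhdsWithin] with p hp1 hp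
  have hp' : (n:ℝ) < p := hp
  have hle : En p (gradient φ) ≤ ENNReal.ofReal (M' ^ (p - n)) * En n (gradient φ) := by
    unfold En
    rw [← lintegral_const_mul' _ _ ENNReal.ofReal_ne_top]
    refine lintegral_mono fun x => ?_
    rw [← ofReal_norm, ENNReal.ofReal_rpow_of_nonneg (norm_nonneg _) (by linarith),
      ENNReal.ofReal_rpow_of_nonneg (norm_nonneg _) (by linarith),
      ← ENNReal.ofReal_mul (by positivity)]
    refine ENNReal.ofReal_le_ofReal ?_
    have : p = (p - n) + n := by ring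
    conv_lhs => rw [this]
    rw [Real.rpow_add_of_nonneg (norm_nonneg _) (by linarith) (by linarith)]
    refine mul_le_mul_of_nonneg_right ?_ (by positivity)
    exact Real.rpow_le_rpow (norm_nonneg _) (hM2 x) (by linarith)
  calc cp n p ≤ En p (gradient φ) := iInf₂_le φ hφ
    _ ≤ ENNReal.ofReal (M' ^ (p - n)) * En n (gradient φ) := hle
    _ ≤ ENNReal.ofReal 2 * ENNReal.ofReal (δ / 4) :=
        mul_le_mul' (ENNReal.ofReal_le_ofReal hp1.le) hE
    _ = ENNReal.ofReal (δ / 2) := by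
        rw [← ENNReal.ofReal_mul (by norm_num)]; congr 1; ring
    _ < ENNReal.ofReal δ := by
        rw [ENNReal.ofReal_lt_ofReal_iff hδ]; linarith

/-- the local competitor near a tiny hole -/
theorem upper (hn : 2 ≤ n) (hp : (n : ℝ) < p) {κ : ℝ} (hκ : 0 < κ) (e : Sp n) (he : ‖e‖ = 1) :
    ∃ (ε r : ℝ) (ψ : Sp n → ℝ), 0 < ε ∧ ε < r ∧ r ≤ 1 / 64 ∧ Cc (Metric.ball 0 (1 / 4)) ψ ∧
      (∀ z, ‖z‖ ≤ ε → ψ z = 0) ∧ ψ (r • e) = 1 ∧
      ENNReal.ofReal (r ^ (p - n)) * En p (gradient ψ) ≤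
        ENNReal.ofReal ((cp n p).toReal / 2 + κ) := by
  have hn0 : (2:ℝ) ≤ n := by exact_mod_cast hn
  have hp0 : 0 < p := by linarith
  have hcpt : cp n p ≠ ∞ := cp_ne_top hp0
  set c : ℝ := (cp n p).toReal with hc
  have hc0 : 0 ≤ c := ENNReal.toReal_nonneg
  -- near optimal function
  obtain ⟨φ, hφ, hφE⟩ : ∃ φ : Sp n → ℝ, Adm1 φ ∧ En p (gradient φ) < ENNReal.ofReal (c + κ) := by
    have h1 : cp n p < ENNReal.ofReal (c + κ) := by
      rw [← ENNReal.ofReal_toReal hcpt, ENNReal.ofReal_lt_ofReal_iff (by linarith)]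
      linarith
    unfold cp at h1
    simp only [iInf_lt_iff] at h1
    obtain ⟨φ, h2, h3⟩ := h1
    exact ⟨φ, h2, h3⟩
  obtain ⟨Φ, hΦ, -, W, hW, hKW, -, hΦ1⟩ := exists_cutoff
    (isCompact_closedBall (0 : Sp n) (1 / 8)) (Metric.isOpen_ball (x := (0 : Sp n)) (ε := 1 / 4))
    (Metric.closedBall_subset_ball (by norm_num))
  have hΦt : En p (gradient Φ) ≠ ∞ := Cc_En_ne_top hp0 hΦ
  set a : ℝ := (En p (gradient Φ)).toReal with ha
  have ha0 : 0 ≤ a := ENNReal.toReal_nonneg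
  -- choice of `r`
  obtain ⟨r, hr, hr1, hr2⟩ : ∃ r : ℝ, 0 < r ∧ r ≤ 1 / 64 ∧ r ^ (p - n) * a ≤ κ / 2 := by
    have h1 : Tendsto (fun r : ℝ => r ^ (p - n) * a) (𝓝[>] 0) (𝓝 0) := by
      have h2 : ContinuousAt (fun r : ℝ => r ^ (p - n)) 0 :=
        Real.continuousAt_rpow_const 0 (p - n) (Or.inr (by linarith))
      have h3 := (h2.tendsto.mul_const a).mono_left (nhdsWithin_le_nhds (s := Ioi (0:ℝ)))
      rw [Real.zero_rpow (by linarith), zero_mul] at h3
      exact h3
    have h2 : ∀ᶠ r in 𝓝[>] (0:ℝ), r ^ (p - n) * a < κ / 2 :=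
      h1.eventually (gt_mem_nhds (by positivity))
    have h3 : ∀ᶠ r in 𝓝[>] (0:ℝ), r < 1 / 64 :=
      nhdsWithin_le_nhds (gt_mem_nhds (by norm_num))
    obtain ⟨r, hr⟩ := (h2.and (h3.and self_mem_nhdsWithin)).exists
    exact ⟨r, hr.2.2, hr.2.1.le, hr.1.le⟩
  obtain ⟨τ, hτ, hτ1⟩ := Metric.eventually_nhds_iff.1 hφ.one
  set t : ℝ := 2 / r with ht
  have ht0 : 0 < t := by positivity
  have htr : t * r = 2 := by rw [ht]; field_simp
  set φx : Sp n → ℝ := fun z => φ (-(t • (r • e)) + t • z) with hφx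
  set φc : Sp n → ℝ := fun z => φ (0 + t • z) with hφc
  have hcx : Cc (Metric.ball (r • e) (r / 2)) φx := by
    refine (Cc_affine hφ.cc _ ht0.ne').mono ?_
    intro z hz
    simp only [mem_preimage, Metric.mem_ball, dist_zero_right] at hz
    rw [neg_add_eq_sub, ← smul_sub, norm_smul, Real.norm_eq_abs, abs_of_pos ht0, ht] at hz
    rw [Metric.mem_ball, dist_eq_norm]
    rw [div_mul_eq_mul_div, div_lt_one hr] at hz
    linarith
  have hcc : Cc (Metric.ball 0 (r / 2)) φc := by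
    refine (Cc_affine hφ.cc _ ht0.ne').mono ?_
    intro z hz
    simp only [mem_preimage, Metric.mem_ball, dist_zero_right] at hz
    rw [zero_add, norm_smul, Real.norm_eq_abs, abs_of_pos ht0, ht] at hz
    rw [Metric.mem_ball, dist_zero_right]
    rw [div_mul_eq_mul_div, div_lt_one hr] at hz
    linarith
  have hcx' : Cc (Metric.ball 0 (1 / 4)) φx := hcx.mono (Metric.ball_subset_ball' (by
    rw [dist_zero_right, norm_smul, he, Real.norm_eq_abs, abs_of_pos hr]; linarith))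
  have hcc' : Cc (Metric.ball 0 (1 / 4)) φc := hcc.mono (Metric.ball_subset_ball (by linarith))
  set ψ : Sp n → ℝ := fun z => (1 / 2) * (Φ z + (φx z - φc z)) with hψ
  have hψc : Cc (Metric.ball 0 (1 / 4)) ψ := (hΦ.add (hcx'.sub hcc')).const_mul _
  have hΦ18 : ∀ z : Sp n, ‖z‖ ≤ 1 / 8 → Φ z = 1 := fun z hz => hΦ1 z (hKW (by simpa using hz))
  have hφ01 : φ 0 = 1 := hφ.one.self_of_nhds
  have hxn : ‖r • e‖ = r := by rw [norm_smul, he, Real.norm_eq_abs, abs_of_pos hr, mul_one]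
  refine ⟨min (τ * r / 4) (r / 4), r, ψ, by positivity, ?_, hr1, hψc, ?_, ?_, ?_⟩
  · exact (min_le_right _ _).trans_lt (by linarith)
  · intro z hz
    have hz1 : ‖z‖ ≤ τ * r / 4 := hz.trans (min_le_left _ _)
    have hz2 : ‖z‖ ≤ r / 4 := hz.trans (min_le_right _ _)
    have h1 : φc z = 1 := by
      simp only [φc]
      refine hτ1 ?_
      rw [dist_zero_right, zero_add, norm_smul, Real.norm_eq_abs, abs_of_pos ht0, ht,
        div_mul_eq_mul_div, div_lt_iff₀ hr]
      nlinarith [mul_pos hτ hr]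
    have h2 : φx z = 0 := by
      refine zero_of_notMem fun h' => ?_
      have h3 := hcx.supp h'
      rw [Metric.mem_ball, dist_eq_norm] at h3
      have h4 := norm_sub_norm_le (r • e) z
      rw [hxn, norm_sub_rev] at h4
      linarith
    simp only [ψ]
    rw [h1, h2, hΦ18 z (by linarith)]; ring
  · have h1 : φx (r • e) = 1 := by
      simp only [φx]
      rw [neg_add_cancel, hφ01]
    have h2 : φc (r • e) = 0 := by
      refine zero_of_notMem fun h' => ?_
      have h3 := hcc.supp h'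
      rw [Metric.mem_ball, dist_zero_right, hxn] at h3
      linarith
    simp only [ψ]
    rw [h1, h2, hΦ18 _ (by rw [hxn]; linarith)]; ring
  · have hg : gradient ψ =
        fun z => (1 / 2 : ℝ) • (gradient Φ z + (gradient φx z + - gradient φc z)) := by
      ext1 z
      have h1 := grad_const_mul (1 / 2) (((hΦ.add (hcx'.sub hcc')).diff) z)
      rw [hψ, h1, grad_add (hΦ.diff z) ((hcx'.sub hcc').diff z), grad_sub (hcx'.diff z) (hcc'.diff z),
        sub_eq_add_neg]
    have hgΦ : ∀ z : Sp n, ‖z‖ ≤ 1 / 8 → gradient Φ z = 0 := fun z hz =>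
      grad_zero_of_const_on hW hΦ1 (hKW (by simpa using hz))
    have hgx : ∀ z : Sp n, r / 2 ≤ ‖z - r • e‖ → gradient φx z = 0 := fun z hz =>
      grad_zero_of_notMem fun h' => by
        have := hcx.supp h'
        rw [Metric.mem_ball, dist_eq_norm] at this
        linarith
    have hgc : ∀ z : Sp n, r / 2 ≤ ‖z‖ → gradient φc z = 0 := fun z hz =>
      grad_zero_of_notMem fun h' => by
        have := hcc.supp h'
        rw [Metric.mem_ball, dist_zero_right] at this
        linarith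
    have hE1 : En p (gradient φx) = ENNReal.ofReal (t ^ (p - n)) * En p (gradient φ) :=
      En_affine hp0 (hφ.cc.smooth.of_le (by exact_mod_cast le_top)) _ ht0
    have hE2 : En p (gradient φc) = ENNReal.ofReal (t ^ (p - n)) * En p (gradient φ) :=
      En_affine hp0 (hφ.cc.smooth.of_le (by exact_mod_cast le_top)) _ ht0
    have h1 := En_add_le hp0 (U := gradient φx) (V := fun z => - gradient φc z) hcx.cont_grad (by
      intro z
      by_cases hz : r / 2 ≤ ‖z‖
      · right; rw [hgc z hz, neg_zero]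
      · left
        refine hgx z ?_
        have h4 := norm_sub_norm_le (r • e) z
        rw [hxn, norm_sub_rev] at h4
        linarith)
    have h2 := En_add_le hp0 (U := gradient Φ)
      (V := fun z => gradient φx z + - gradient φc z) hΦ.cont_grad (by
      intro z
      by_cases hz : ‖z‖ ≤ 1 / 8
      · left; exact hgΦ z hz
      · right
        rw [hgc z (by linarith), hgx z ?_]
        · simp
        · have h4 := norm_sub_norm_le z (r • e)
          rw [hxn] at h4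
          linarith)
    rw [En_neg, hE1, hE2, ← two_mul] at h1
    rw [hg, En_smul hp0 (1 / 2) (fun z => gradient Φ z + (gradient φx z + - gradient φc z))]
    have h3 : En p (fun z => gradient Φ z + (gradient φx z + - gradient φc z)) ≤
        ENNReal.ofReal (a + 2 * (t ^ (p - n) * (c + κ))) := by
      refine h2.trans ?_
      rw [ENNReal.ofReal_add ha0 (by positivity), ha, ENNReal.ofReal_toReal hΦt]
      refine add_le_add le_rfl (h1.trans ?_)
      rw [ENNReal.ofReal_mul (by norm_num), ENNReal.ofReal_ofNat,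
        ENNReal.ofReal_mul (by positivity)]
      exact mul_le_mul_right (mul_le_mul_right hφE.le _) _
    refine (mul_le_mul_right (mul_le_mul_right h3 _) _).trans ?_
    rw [← ENNReal.ofReal_mul (by positivity), ← ENNReal.ofReal_mul (by positivity)]
    refine ENNReal.ofReal_le_ofReal ?_
    rw [abs_of_pos (by norm_num : (0:ℝ) < 1 / 2)]
    -- real arithmetic
    have hrt : r ^ (p - n) * t ^ (p - n) = 2 ^ (p - n) := by
      rw [← Real.mul_rpow hr.le ht0.le, mul_comm r t, htr]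
    have h22 : (1 / 2 : ℝ) ^ p * 2 ^ (p - n) = (1 / 2) ^ (n:ℝ) := by
      rw [one_div, Real.inv_rpow (by norm_num), Real.inv_rpow (by norm_num),
        Real.rpow_sub (by norm_num)]
      have h5 : (2:ℝ) ^ p ≠ 0 := (Real.rpow_pos_of_pos (by norm_num) _).ne'
      field_simp
    have h2n : ((1:ℝ) / 2) ^ (n:ℝ) ≤ 1 / 4 := by
      have h5 : ((1:ℝ) / 2) ^ (n:ℝ) ≤ (1 / 2) ^ (2:ℝ) :=
        Real.rpow_le_rpow_of_exponent_ge (by norm_num) (by norm_num) hn0
      have h6 : ((1:ℝ) / 2) ^ (2:ℝ) = 1 / 4 := by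
        rw [show (2:ℝ) = ((2:ℕ):ℝ) by norm_num, Real.rpow_natCast]; norm_num
      rwa [h6] at h5
    have h2p : ((1:ℝ) / 2) ^ p ≤ 1 := Real.rpow_le_one (by norm_num) (by norm_num) hp0.le
    have h2p0 : 0 ≤ ((1:ℝ) / 2) ^ p := by positivity
    calc r ^ (p - n) * ((1 / 2 : ℝ) ^ p * (a + 2 * (t ^ (p - n) * (c + κ))))
        = (1 / 2 : ℝ) ^ p * (r ^ (p - n) * a) +
          2 * ((1 / 2 : ℝ) ^ p * (r ^ (p - n) * t ^ (p - n))) * (c + κ) := by ring
      _ = (1 / 2 : ℝ) ^ p * (r ^ (p - n) * a) + 2 * (1 / 2) ^ (n:ℝ) * (c + κ) := by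
          rw [hrt, h22]
      _ ≤ 1 * (κ / 2) + 2 * (1 / 4) * (c + κ) := by
          refine add_le_add ?_ ?_
          · refine mul_le_mul h2p hr2 (by positivity) (by norm_num)
          · refine mul_le_mul_of_nonneg_right ?_ (by linarith)
            linarith
      _ = c / 2 + κ := by ring

end Pool.Agent.H68R3
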