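import Pool.Agent.H68R3.HM3

set_option autoImplicit false

open MeasureTheory Filter Topology Set
open scoped ENNReal NNReal RealInnerProductSpace

/-!
The family of domains: the unit ball minus two small balls.
-/

namespace Pool.Agent.H68R3

open Pool.Agent.Helper533.Polar

variable {n : ℕ} {p : ℝ}

/-- radius of the hole at the origin -/
noncomputable def rA (ε s : ℝ) : ℝ := max ε (1 / 16 - s / 8)

/-- radius of the hole at `e / 2` -/
noncomputable def rB (ε s : ℝ) : ℝ := max ε (1 / 16 - (1 - s) / 8)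

/-- signed distance function to the complement -/
noncomputable def DD (e : Sp n) (ε s : ℝ) (x : Sp n) : ℝ :=
  min (1 - ‖x‖) (min (‖x‖ - rA ε s) (‖x - (1 / 2 : ℝ) • e‖ - rB ε s))

/-- the domain -/
def Om (e : Sp n) (ε s : ℝ) : Set (Sp n) := {x | 0 < DD e ε s x}

variable {e : Sp n} {ε s s' : ℝ} {x y : Sp n}

theorem le_rA : ε ≤ rA ε s := le_max_left _ _
theorem le_rB : ε ≤ rB ε s := le_max_left _ _

theorem rA_le (hε : ε ≤ 1 / 16) (hs : 0 ≤ s) : rA ε s ≤ 1 / 16 := max_le hε (by linarith)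
theorem rB_le (hε : ε ≤ 1 / 16) (hs : s ≤ 1) : rB ε s ≤ 1 / 16 := max_le hε (by linarith)

theorem rA_lip : |rA ε s - rA ε s'| ≤ |s - s'| := by
  unfold rA
  refine (abs_max_sub_max_le_max _ _ _ _).trans ?_
  rw [sub_self, abs_zero]
  refine max_le (abs_nonneg _) ?_
  rw [show 1 / 16 - s / 8 - (1 / 16 - s' / 8) = -((s - s') / 8) by ring, abs_neg, abs_div]
  have := abs_nonneg (s - s')
  rw [abs_of_pos (by norm_num : (0:ℝ) < 8)]
  linarith

theorem rB_lip : |rB ε s - rB ε s'| ≤ |s - s'| := by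
  unfold rB
  refine (abs_max_sub_max_le_max _ _ _ _).trans ?_
  rw [sub_self, abs_zero]
  refine max_le (abs_nonneg _) ?_
  rw [show 1 / 16 - (1 - s) / 8 - (1 / 16 - (1 - s') / 8) = (s - s') / 8 by ring, abs_div]
  have := abs_nonneg (s - s')
  rw [abs_of_pos (by norm_num : (0:ℝ) < 8)]
  linarith

theorem DD_lip_s : DD e ε s x ≤ DD e ε s' x + |s - s'| := by
  have h1 := abs_le.1 (rA_lip (ε := ε) (s := s) (s' := s'))
  have h2 := abs_le.1 (rB_lip (ε := ε) (s := s) (s' := s'))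
  have h3 := abs_nonneg (s - s')
  unfold DD
  rw [← min_add_add_right, ← min_add_add_right]
  exact min_le_min (by linarith) (min_le_min (by linarith) (by linarith))

theorem DD_lip_x : DD e ε s x ≤ DD e ε s y + ‖x - y‖ := by
  have h1 : ‖x‖ ≤ ‖y‖ + ‖x - y‖ := by
    have := norm_add_le y (x - y)
    rwa [add_sub_cancel] at this
  have h2 : ‖y‖ ≤ ‖x‖ + ‖x - y‖ := by
    have := norm_sub_le x (x - y)
    rwa [sub_sub_cancel] at this
  have h3 : ‖x - (1 / 2 : ℝ) • e‖ ≤ ‖y - (1 / 2 : ℝ) • e‖ + ‖x - y‖ := by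
    have := norm_add_le (y - (1 / 2 : ℝ) • e) (x - y)
    rwa [show y - (1 / 2 : ℝ) • e + (x - y) = x - (1 / 2 : ℝ) • e by abel] at this
  unfold DD
  rw [← min_add_add_right, ← min_add_add_right]
  exact min_le_min (by linarith) (min_le_min (by linarith) (by linarith))

theorem DD_tendsto {ι : Type*} {l : Filter ι} {s : ι → ℝ} {x : ι → Sp n} {s₀ : ℝ} {x₀ : Sp n}
    (hs : Tendsto s l (𝓝 s₀)) (hx : Tendsto x l (𝓝 x₀)) :
    Tendsto (fun k => DD e ε (s k) (x k)) l (𝓝 (DD e ε s₀ x₀)) := by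
  rw [Metric.tendsto_nhds] at *
  intro δ hδ
  filter_upwards [hs (δ / 2) (by positivity), hx (δ / 2) (by positivity)] with k h1 h2
  rw [Real.dist_eq] at h1 ⊢
  rw [dist_eq_norm] at h2
  have h3 := DD_lip_s (e := e) (ε := ε) (s := s k) (s' := s₀) (x := x k)
  have h4 := DD_lip_s (e := e) (ε := ε) (s := s₀) (s' := s k) (x := x k)
  have h5 := DD_lip_x (e := e) (ε := ε) (s := s₀) (x := x k) (y := x₀)
  have h6 := DD_lip_x (e := e) (ε := ε) (s := s₀) (x := x₀) (y := x k)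
  rw [abs_sub_comm] at h4
  rw [norm_sub_rev] at h6
  rw [abs_lt]
  constructor <;> linarith

theorem continuous_DD : Continuous (DD e ε s) := by
  unfold DD
  fun_prop

theorem isOpen_Om : IsOpen (Om e ε s) := isOpen_lt continuous_const continuous_DD

theorem not_mem_Om : x ∉ Om e ε s ↔ DD e ε s x ≤ 0 := by
  simp only [Om, mem_ofPred_eq, not_lt]

theorem DD_le1 : DD e ε s x ≤ 1 - ‖x‖ := min_le_left _ _
theorem DD_leA : DD e ε s x ≤ ‖x‖ - rA ε s := (min_le_right _ _).trans (min_le_left _ _)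
theorem DD_leB : DD e ε s x ≤ ‖x - (1 / 2 : ℝ) • e‖ - rB ε s :=
  (min_le_right _ _).trans (min_le_right _ _)

theorem exists_pt (c : Sp n) (hx : x ≠ c) {ρ : ℝ} (hρ : 0 ≤ ρ) :
    ∃ y, ‖y - c‖ = ρ ∧ dist x y = |‖x - c‖ - ρ| := by
  have hN : 0 < ‖x - c‖ := norm_pos_iff.2 (sub_ne_zero.2 hx)
  refine ⟨c + (ρ / ‖x - c‖) • (x - c), ?_, ?_⟩
  · rw [add_sub_cancel_left, norm_smul, Real.norm_eq_abs, abs_of_nonneg (by positivity)]
    field_simp
  · rw [dist_eq_norm, show x - (c + (ρ / ‖x - c‖) • (x - c)) = (1 - ρ / ‖x - c‖) • (x - c) by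
      rw [sub_smul, one_smul]; abel, norm_smul, Real.norm_eq_abs]
    rw [← abs_of_pos hN, ← abs_mul, abs_of_pos hN]
    congr 1
    field_simp

theorem infDist_Om (hε : 0 < ε) (hx : x ∈ Om e ε s) : Metric.infDist x (Om e ε s)ᶜ = DD e ε s x := by
  have hx' : 0 < DD e ε s x := hx
  have h1 := DD_le1 (e := e) (ε := ε) (s := s) (x := x)
  have h2 := DD_leA (e := e) (ε := ε) (s := s) (x := x)
  have h3 := DD_leB (e := e) (ε := ε) (s := s) (x := x)
  have hA := le_rA (ε := ε) (s := s)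
  have hB := le_rB (ε := ε) (s := s)
  have hne : ((Om e ε s)ᶜ).Nonempty := by
    refine ⟨0, ?_⟩
    rw [mem_compl_iff, not_mem_Om]
    refine DD_leA.trans ?_
    rw [norm_zero]; linarith
  have hx0 : x ≠ 0 := by
    rintro rfl
    rw [norm_zero] at h2; linarith
  have hxb : x ≠ (1 / 2 : ℝ) • e := by
    intro h
    rw [← h, sub_self, norm_zero] at h3; linarith
  apply le_antisymm
  · obtain ⟨y, hy, hyd⟩ : ∃ y, y ∈ (Om e ε s)ᶜ ∧ dist x y = DD e ε s x := by
      have hcase : DD e ε s x = 1 - ‖x‖ ∨ DD e ε s x = ‖x‖ - rA ε s ∨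
          DD e ε s x = ‖x - (1 / 2 : ℝ) • e‖ - rB ε s := by
        unfold DD
        rcases min_choice (1 - ‖x‖) (min (‖x‖ - rA ε s) (‖x - (1 / 2 : ℝ) • e‖ - rB ε s)) with h | h
        · exact Or.inl h
        · rcases min_choice (‖x‖ - rA ε s) (‖x - (1 / 2 : ℝ) • e‖ - rB ε s) with h' | h'
          · exact Or.inr (Or.inl (h.trans h'))
          · exact Or.inr (Or.inr (h.trans h'))
      rcases hcase with h | h | h
      · obtain ⟨y, hy1, hy2⟩ := exists_pt (0 : Sp n) hx0 (ρ := 1) zero_le_one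
        rw [sub_zero] at hy1 hy2
        refine ⟨y, ?_, ?_⟩
        · rw [mem_compl_iff, not_mem_Om]
          refine DD_le1.trans (by rw [hy1]; simp)
        · rw [hy2, h, abs_sub_comm, abs_of_pos (by linarith)]
      · obtain ⟨y, hy1, hy2⟩ := exists_pt (0 : Sp n) hx0 (ρ := rA ε s) (by linarith)
        rw [sub_zero] at hy1 hy2
        refine ⟨y, ?_, ?_⟩
        · rw [mem_compl_iff, not_mem_Om]
          refine DD_leA.trans (by rw [hy1]; simp)
        · rw [hy2, h, abs_of_pos (by linarith)]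
      · obtain ⟨y, hy1, hy2⟩ := exists_pt ((1 / 2 : ℝ) • e) hxb (ρ := rB ε s) (by linarith)
        refine ⟨y, ?_, ?_⟩
        · rw [mem_compl_iff, not_mem_Om]
          refine DD_leB.trans (by rw [hy1]; simp)
        · rw [hy2, h, abs_of_pos (by linarith)]
    rw [← hyd]
    exact Metric.infDist_le_dist_of_mem hy
  · refine (Metric.le_infDist hne).2 fun y hy => ?_
    rw [mem_compl_iff, not_mem_Om] at hy
    have := DD_lip_x (e := e) (ε := ε) (s := s) (x := x) (y := y)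
    rw [dist_eq_norm]
    linarith

/-- nearest point -/
theorem exists_near (hε : 0 < ε) (hx : 0 < DD e ε s x) :
    ∃ y, DD e ε s y ≤ 0 ∧ dist x y = DD e ε s x := by
  have hne : ((Om e ε s)ᶜ).Nonempty := by
    refine ⟨0, ?_⟩
    rw [mem_compl_iff, not_mem_Om]
    refine DD_leA.trans ?_
    rw [norm_zero]
    linarith [le_rA (ε := ε) (s := s)]
  obtain ⟨y, hy, hyd⟩ :=
    (isOpen_Om (e := e) (ε := ε) (s := s)).isClosed_compl.exists_infDist_eq_dist hne x
  rw [infDist_Om hε hx] at hyd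
  exact ⟨y, not_mem_Om.1 hy, hyd.symm⟩

theorem circle_out (hx : x ≠ 0) {r : ℝ} (hr : 0 ≤ r) (h : 1 - ‖x‖ ≤ r) :
    ∃ y, dist y x = r ∧ 1 ≤ ‖y‖ := by
  have hN : 0 < ‖x‖ := norm_pos_iff.2 hx
  refine ⟨(1 + r / ‖x‖) • x, ?_, ?_⟩
  · rw [dist_eq_norm, add_smul, one_smul, add_sub_cancel_left, norm_smul, Real.norm_eq_abs,
      abs_of_nonneg (by positivity)]
    field_simp
  · rw [norm_smul, Real.norm_eq_abs, abs_of_nonneg (by positivity), add_mul, one_mul,
      div_mul_cancel₀ _ hN.ne']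
    linarith

theorem circle_hole (c : Sp n) {ρ d r : ℝ} (hd : d = ‖x - c‖ - ρ) (hρ : 0 < ρ) (h0 : 0 < d)
    (h2 : d ≤ 2 * ρ) (h3 : d ≤ r) (h4 : r ≤ 2 * d) : ∃ y, dist y x = r ∧ ‖y - c‖ ≤ ρ := by
  have hN : 0 < ‖x - c‖ := by linarith
  have hr0 : 0 < r := h0.trans_le h3
  refine ⟨x - (r / ‖x - c‖) • (x - c), ?_, ?_⟩
  · rw [dist_eq_norm, sub_sub_cancel_left, norm_neg, norm_smul, Real.norm_eq_abs,
      abs_of_nonneg (by positivity)]
    field_simp
  · rw [show x - (r / ‖x - c‖) • (x - c) - c = (1 - r / ‖x - c‖) • (x - c) by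
      rw [sub_smul, one_smul]; abel, norm_smul, Real.norm_eq_abs]
    rw [← abs_of_pos hN, ← abs_mul, abs_of_pos hN]
    rw [show (1 - r / ‖x - c‖) * ‖x - c‖ = ‖x - c‖ - r by field_simp]
    rw [abs_le]
    constructor <;> linarith

/-- admissible data: a competitor with value one at `x` -/
structure Dat (p : ℝ) (e : Sp n) (ε s : ℝ) (u : Sp n → ℝ) (W : Sp n → Sp n) (x : Sp n) : Prop where
  fe : Fe p u W
  zero : ∀ z, DD e ε s z ≤ 0 → u z = 0
  pos : 0 < DD e ε s x
  one : u x = 1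

/-- normalised energy -/
noncomputable def FF (p : ℝ) (e : Sp n) (ε s : ℝ) (W : Sp n → Sp n) (x : Sp n) : ℝ≥0∞ :=
  ENNReal.ofReal (DD e ε s x ^ (p - n)) * En p W

/-- the exponent is close enough to the dimension -/
structure Good (n : ℕ) (C p : ℝ) : Prop where
  lt : (n : ℝ) < p
  le : p ≤ n + 1
  pow : (64 : ℝ) ^ (p - n) ≤ 11 / 10
  osc : C * (cp n p).toReal ^ (1 / p) < 1 / (100 * (n + 1))

theorem eventually_good (hn : 2 ≤ n) {C : ℝ} (hC : 0 < C) : ∀ᶠ p in 𝓝[>] (n : ℝ), Good n C p := by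
  have hn0 : (2:ℝ) ≤ n := by exact_mod_cast hn
  set η : ℝ := 1 / (100 * (n + 1)) with hη
  have hη0 : 0 < η := by positivity
  set q : ℝ := min 1 (η / C) with hq
  have hq0 : 0 < q := lt_min one_pos (by positivity)
  have h1 := cp_small hn (δ := q ^ (n + 1)) (by positivity)
  have h2 : ∀ᶠ p : ℝ in 𝓝[>] (n : ℝ), p < n + 1 :=
    nhdsWithin_le_nhds (gt_mem_nhds (by linarith))
  have h3 : ∀ᶠ p : ℝ in 𝓝[>] (n : ℝ), (64 : ℝ) ^ (p - n) < 11 / 10 := by
    have hcont : Continuous fun p : ℝ => (64 : ℝ) ^ (p - n) :=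
      Continuous.rpow continuous_const (by fun_prop) (fun _ => Or.inl (by norm_num))
    have : Tendsto (fun p : ℝ => (64 : ℝ) ^ (p - n)) (𝓝[>] (n:ℝ)) (𝓝 1) := by
      have h2 := (hcont.tendsto (n:ℝ)).mono_left (nhdsWithin_le_nhds (s := Ioi (n:ℝ)))
      simpa using h2
    exact this.eventually (gt_mem_nhds (by norm_num))
  filter_upwards [h1, h2, h3, self_mem_nhdsWithin] with p k1 k2 k3 k4
  have k4' : (n:ℝ) < p := k4
  have hp0 : 0 < p := by linarith
  refine ⟨k4', k2.le, k3.le, ?_⟩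
  have k5 : (cp n p).toReal < q ^ (n + 1) := by
    rw [← ENNReal.toReal_ofReal (r := q ^ (n + 1)) (by positivity)]
    exact (ENNReal.toReal_lt_toReal (cp_ne_top hp0) ENNReal.ofReal_ne_top).2 k1
  have k6 : q ^ (n + 1) ≤ q ^ p := by
    have : q ^ ((n:ℝ) + 1) ≤ q ^ p :=
      Real.rpow_le_rpow_of_exponent_ge hq0 (min_le_left _ _) k2.le
    rwa [show ((n:ℝ) + 1) = ((n + 1 : ℕ) : ℝ) by push_cast; ring, Real.rpow_natCast] at this
  have k7 : (cp n p).toReal ^ (1 / p) < q := by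
    have k8 := Real.rpow_lt_rpow ENNReal.toReal_nonneg (k5.trans_le k6) (z := 1 / p) (by positivity)
    rwa [← Real.rpow_mul hq0.le, mul_one_div_cancel hp0.ne', Real.rpow_one] at k8
  have k9 : (cp n p).toReal ^ (1 / p) < η / C := k7.trans_le (min_le_right _ _)
  rw [lt_div_iff₀ hC, mul_comm] at k9
  exact k9

/-- localisation of the peaks -/
theorem localize (hn : 2 ≤ n) : ∃ C : ℝ, 0 < C ∧ ∀ (p : ℝ), Good n C p → ∀ (e : Sp n), ‖e‖ = 1 →
    ∀ (ε s : ℝ), 0 < ε → ε ≤ 1 / 16 → 0 ≤ s → s ≤ 1 → ∀ u W x, Dat p e ε s u W x →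
      FF p e ε s W x < ENNReal.ofReal (4 / 5 * (cp n p).toReal) →
      (‖x‖ ≤ 1 / 8 ∧ 2 * rA ε s < DD e ε s x) ∨
        (‖x - (1 / 2 : ℝ) • e‖ ≤ 1 / 8 ∧ 2 * rB ε s < DD e ε s x) := by
  obtain ⟨C, hC, hlow⟩ := lower hn
  refine ⟨C, hC, fun p hp e he ε s hε hε1 hs0 hs1 u W x hD hF => ?_⟩
  have hn0 : (2:ℝ) ≤ n := by exact_mod_cast hn
  have hpn := hp.lt
  have hp0 : 0 < p := by linarith
  set c : ℝ := (cp n p).toReal with hc
  have hcp : 0 < cp n p := cp_pos (by omega) hp.lt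
  have hct : cp n p ≠ ∞ := cp_ne_top hp0
  have hc0 : 0 < c := ENNReal.toReal_pos hcp.ne' hct
  set d : ℝ := DD e ε s x with hd
  have hd0 : 0 < d := hD.pos
  have hEt : En p W ≠ ∞ := En_ne_top hp0 hD.fe.h0.mU
  set E : ℝ := (En p W).toReal with hE
  have hE0 : 0 ≤ E := ENNReal.toReal_nonneg
  have hEW : En p W ≤ ENNReal.ofReal E := by rw [hE, ENNReal.ofReal_toReal hEt]
  have hF' : d ^ (p - n) * E < 4 / 5 * c := by
    unfold FF at hF
    rw [← ENNReal.ofReal_toReal hEt, ← ENNReal.ofReal_mul (by positivity),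
      ENNReal.ofReal_lt_ofReal_iff (by positivity)] at hF
    exact hF
  set η : ℝ := 1 / (100 * (n + 1)) with hη
  have hη0 : 0 < η := by positivity
  have hη3 : η < 1 / 3 := by
    rw [hη, div_lt_div_iff₀ (by positivity) (by norm_num)]; linarith
  have h3η : 0 < 1 - 3 * η := by linarith
  -- the constant
  have hK : ((1 - 3 * η)⁻¹) ^ p ≤ 100 / 97 := by
    have h1 : (97:ℝ) / 100 ≤ (1 - 3 * η) ^ (n + 1) := by
      have h2 := one_add_mul_le_pow (a := -(3 * η)) (by linarith) (n + 1)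
      have h3 : (1:ℝ) + ((n + 1 : ℕ) : ℝ) * -(3 * η) = 97 / 100 := by
        rw [hη]; push_cast; field_simp; norm_num
      rw [h3] at h2
      rwa [← sub_eq_add_neg] at h2
    have h2 : (1 - 3 * η) ^ (n + 1) ≤ (1 - 3 * η) ^ p := by
      have : (1 - 3 * η) ^ ((n:ℝ) + 1) ≤ (1 - 3 * η) ^ p :=
        Real.rpow_le_rpow_of_exponent_ge h3η (by linarith) hp.le
      rwa [show ((n:ℝ) + 1) = ((n + 1 : ℕ) : ℝ) by push_cast; ring, Real.rpow_natCast] at this
    rw [Real.inv_rpow h3η.le, show (100:ℝ) / 97 = (97 / 100)⁻¹ by norm_num]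
    exact inv_anti₀ (by norm_num) (h1.trans h2)
  -- generic contradiction
  have key : ∀ R : ℝ, 0 < R → R ≤ 32 * d →
      (∀ r, R ≤ r → r ≤ 2 * R → ∃ y, dist y x = r ∧ u y = 0) → False := by
    intro R hR hRd hcirc
    have h64 : (1:ℝ) ≤ 64 ^ (p - n) := Real.one_le_rpow (by norm_num) (by linarith)
    have hRp : R ^ (p - n) * E ≤ 64 ^ (p - n) * (d ^ (p - n) * E) := by
      rw [← mul_assoc, ← Real.mul_rpow (by norm_num) hd0.le]
      refine mul_le_mul_of_nonneg_right ?_ hE0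
      exact Real.rpow_le_rpow hR.le (by linarith) (by linarith)
    have h2Rp : (2 * R) ^ (p - n) * E ≤ 64 ^ (p - n) * (d ^ (p - n) * E) := by
      rw [← mul_assoc, ← Real.mul_rpow (by norm_num) hd0.le]
      refine mul_le_mul_of_nonneg_right ?_ hE0
      exact Real.rpow_le_rpow (by positivity) (by linarith) (by linarith)
    have hdE : 0 ≤ d ^ (p - n) * E := by positivity
    have h1 : R ^ (p - n) * E ≤ c := by
      refine hRp.trans ?_
      calc (64:ℝ) ^ (p - n) * (d ^ (p - n) * E) ≤ 11 / 10 * (4 / 5 * c) :=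
            mul_le_mul hp.pow hF'.le hdE (by norm_num)
        _ ≤ c := by linarith
    have h2 : C * (R ^ (p - n) * E) ^ (1 / p) < η := by
      refine lt_of_le_of_lt ?_ hp.osc
      refine mul_le_mul_of_nonneg_left ?_ hC.le
      exact Real.rpow_le_rpow (by positivity) h1 (by positivity)
    have h3 := hlow p hp.lt hp.le u W hD.fe x R E η hR hE0 hEW hD.one hcirc hη0 hη3 h2
    rw [← ENNReal.ofReal_toReal hct, ENNReal.ofReal_le_ofReal_iff (by positivity)] at h3
    have h4 : (2 * R) ^ (p - n) * ((1 - 3 * η)⁻¹) ^ p * E ≤ 100 / 97 * (11 / 10 * (4 / 5 * c)) := by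
      calc (2 * R) ^ (p - n) * ((1 - 3 * η)⁻¹) ^ p * E
          = ((1 - 3 * η)⁻¹) ^ p * ((2 * R) ^ (p - n) * E) := by ring
        _ ≤ 100 / 97 * (64 ^ (p - n) * (d ^ (p - n) * E)) :=
            mul_le_mul hK h2Rp (by positivity) (by norm_num)
        _ ≤ 100 / 97 * (11 / 10 * (4 / 5 * c)) := by
            refine mul_le_mul_of_nonneg_left ?_ (by norm_num)
            exact mul_le_mul hp.pow hF'.le hdE (by norm_num)
    linarith
  have h1 := DD_le1 (e := e) (ε := ε) (s := s) (x := x)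
  have h2 := DD_leA (e := e) (ε := ε) (s := s) (x := x)
  have h3 := DD_leB (e := e) (ε := ε) (s := s) (x := x)
  have hA := le_rA (ε := ε) (s := s)
  have hB := le_rB (ε := ε) (s := s)
  have hA' := rA_le (ε := ε) (s := s) hε1 hs0
  have hB' := rB_le (ε := ε) (s := s) hε1 hs1
  have hx0 : x ≠ 0 := by
    rintro rfl
    rw [norm_zero] at h2; linarith
  have hout : ∀ y : Sp n, 1 ≤ ‖y‖ → u y = 0 := hD.fe.out
  have hcase : d = 1 - ‖x‖ ∨ d = ‖x‖ - rA ε s ∨ d = ‖x - (1 / 2 : ℝ) • e‖ - rB ε s := by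
    rw [hd]
    unfold DD
    rcases min_choice (1 - ‖x‖) (min (‖x‖ - rA ε s) (‖x - (1 / 2 : ℝ) • e‖ - rB ε s)) with h | h
    · exact Or.inl h
    · rcases min_choice (‖x‖ - rA ε s) (‖x - (1 / 2 : ℝ) • e‖ - rB ε s) with h' | h'
      · exact Or.inr (Or.inl (h.trans h'))
      · exact Or.inr (Or.inr (h.trans h'))
  rcases hcase with h | h | h
  · exfalso
    refine key d hd0 (by linarith) fun r hr1 hr2 => ?_
    obtain ⟨y, hy1, hy2⟩ := circle_out hx0 (r := r) (by linarith) (by linarith)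
    exact ⟨y, hy1, hout y hy2⟩
  · by_cases hx8 : ‖x‖ ≤ 1 / 8
    · left
      refine ⟨hx8, ?_⟩
      by_contra hcon
      push Not at hcon
      refine key d hd0 (by linarith) fun r hr1 hr2 => ?_
      obtain ⟨y, hy1, hy2⟩ := circle_hole (x := x) (0 : Sp n) (ρ := rA ε s) (d := d) (r := r)
        (by rw [sub_zero]; exact h) (by linarith) hd0 hcon hr1 hr2
      refine ⟨y, hy1, hD.zero y (DD_leA.trans ?_)⟩
      rw [sub_zero] at hy2; linarith
    · exfalso
      push Not at hx8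
      refine key 2 (by norm_num) (by linarith) fun r hr1 hr2 => ?_
      obtain ⟨y, hy1, hy2⟩ := circle_out hx0 (r := r) (by linarith)
        (by linarith [norm_nonneg x])
      exact ⟨y, hy1, hout y hy2⟩
  · by_cases hx8 : ‖x - (1 / 2 : ℝ) • e‖ ≤ 1 / 8
    · right
      refine ⟨hx8, ?_⟩
      by_contra hcon
      push Not at hcon
      refine key d hd0 (by linarith) fun r hr1 hr2 => ?_
      obtain ⟨y, hy1, hy2⟩ := circle_hole (x := x) ((1 / 2 : ℝ) • e) (ρ := rB ε s) (d := d) (r := r)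
        h (by linarith) hd0 hcon hr1 hr2
      refine ⟨y, hy1, hD.zero y (DD_leB.trans ?_)⟩
      linarith
    · exfalso
      push Not at hx8
      refine key 2 (by norm_num) (by linarith) fun r hr1 hr2 => ?_
      obtain ⟨y, hy1, hy2⟩ := circle_out hx0 (r := r) (by linarith)
        (by linarith [norm_nonneg x])
      exact ⟨y, hy1, hout y hy2⟩

/-- upper bound for all parameters -/
theorem upper_all (hn : 2 ≤ n) (hp : (n : ℝ) < p) (he : ‖e‖ = 1) :
    ∃ ε : ℝ, 0 < ε ∧ ε ≤ 1 / 64 ∧ ∀ s, 0 ≤ s → s ≤ 1 → ∃ u W x, Dat p e ε s u W x ∧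
      FF p e ε s W x ≤ ENNReal.ofReal (3 / 5 * (cp n p).toReal) := by
  have hn0 : (2:ℝ) ≤ n := by exact_mod_cast hn
  have hp0 : 0 < p := by linarith
  have hcp : 0 < cp n p := cp_pos (by omega) hp
  have hct : cp n p ≠ ∞ := cp_ne_top hp0
  have hc0 : 0 < (cp n p).toReal := ENNReal.toReal_pos hcp.ne' hct
  obtain ⟨ε, r, ψ, hε, hεr, hr, hψ, hψ0, hψ1, hψE⟩ := upper hn hp
    (κ := (cp n p).toReal / 10) (by positivity) e he
  refine ⟨ε, hε, by linarith, fun s hs0 hs1 => ?_⟩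
  have hr0 : 0 < r := hε.trans hεr
  have hA' := rA_le (ε := ε) (s := s) (by linarith) hs0
  have hB' := rB_le (ε := ε) (s := s) (by linarith) hs1
  have hb : ‖(1 / 2 : ℝ) • e‖ = 1 / 2 := by
    rw [norm_smul, he, Real.norm_eq_abs, abs_of_pos (by norm_num), mul_one]
  have hre : ‖r • e‖ = r := by rw [norm_smul, he, Real.norm_eq_abs, abs_of_pos hr0, mul_one]
  -- generic construction
  have key : ∀ c : Sp n, ‖c‖ ≤ 1 / 2 → (∀ z, DD e ε s z ≤ 0 → ‖z - c‖ ≤ ε ∨ 1 / 4 ≤ ‖z - c‖) →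
      0 < DD e ε s (c + r • e) → DD e ε s (c + r • e) ≤ r → ∃ u W x, Dat p e ε s u W x ∧
      FF p e ε s W x ≤ ENNReal.ofReal (3 / 5 * (cp n p).toReal) := by
    intro c hc hz hpos hle
    have hcc := Cc_affine hψ (-c) (t := 1) one_ne_zero
    set u : Sp n → ℝ := fun z => ψ (-c + (1:ℝ) • z) with hu
    have huz : ∀ z, u z = ψ (z - c) := by
      intro z; simp only [u]; rw [one_smul, neg_add_eq_sub]
    have hψout : ∀ z : Sp n, 1 / 4 ≤ ‖z‖ → ψ z = 0 := fun z hz => zero_of_notMem fun h' => by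
      have := hψ.supp h'
      rw [Metric.mem_ball, dist_zero_right] at this
      linarith
    refine ⟨u, gradient u, c + r • e, ⟨⟨hcc.cont, H0.of_Cc (hcc.mono (subset_univ _)), ?_⟩,
      ?_, hpos, ?_⟩, ?_⟩
    · intro x hx
      rw [huz]
      refine hψout _ ?_
      have := norm_sub_norm_le x c
      linarith
    · intro z hzD
      rw [huz]
      rcases hz z hzD with h | h
      · exact hψ0 _ h
      · exact hψout _ h
    · rw [huz, add_sub_cancel_left, hψ1]
    · unfold FF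
      rw [En_affine hp0 (hψ.smooth.of_le (by exact_mod_cast le_top)) (-c) one_pos, Real.one_rpow,
        ENNReal.ofReal_one, one_mul]
      refine (mul_le_mul_left (ENNReal.ofReal_le_ofReal
        (Real.rpow_le_rpow hpos.le hle (by linarith))) _).trans (hψE.trans ?_)
      refine ENNReal.ofReal_le_ofReal ?_
      linarith
  rcases le_total s (1 / 2) with hs | hs
  · have hrB : rB ε s = ε := max_eq_left (by linarith)
    have e1 : (1 / 2 : ℝ) • e + r • e = (1 / 2 + r) • e := by rw [add_smul]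
    have n1 : ‖(1 / 2 : ℝ) • e + r • e‖ = 1 / 2 + r := by
      rw [e1, norm_smul, he, Real.norm_eq_abs, abs_of_pos (by linarith), mul_one]
    refine key ((1 / 2 : ℝ) • e) hb.le ?_ ?_ ?_
    · intro z hz
      by_cases h1 : ‖z - (1 / 2 : ℝ) • e‖ ≤ ε
      · exact Or.inl h1
      · right
        push Not at h1
        unfold DD at hz
        rw [min_le_iff, min_le_iff, hrB] at hz
        rcases hz with h | h | h
        · have := norm_sub_norm_le z ((1 / 2 : ℝ) • e)
          linarith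
        · have := norm_sub_norm_le ((1 / 2 : ℝ) • e) z
          rw [norm_sub_rev] at this
          linarith
        · linarith
    · unfold DD
      rw [n1, add_sub_cancel_left, hre, hrB]
      refine lt_min (by linarith) (lt_min (by linarith) (by linarith))
    · refine DD_leB.trans ?_
      rw [add_sub_cancel_left, hre, hrB]; linarith
  · have hrA : rA ε s = ε := max_eq_left (by linarith)
    refine key 0 (by simp) ?_ ?_ ?_
    · intro z hz
      rw [sub_zero]
      by_cases h1 : ‖z‖ ≤ ε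
      · exact Or.inl h1
      · right
        push Not at h1
        unfold DD at hz
        rw [min_le_iff, min_le_iff, hrA] at hz
        rcases hz with h | h | h
        · linarith
        · linarith
        · have := norm_sub_norm_le ((1 / 2 : ℝ) • e) z
          have h4 : ‖(1 / 2 : ℝ) • e‖ - ‖z‖ ≤ ‖z - (1 / 2 : ℝ) • e‖ := by
            rw [norm_sub_rev]; exact norm_sub_norm_le _ _
          linarith
    · unfold DD
      rw [zero_add, hre, hrA]
      have h4 : ‖(1 / 2 : ℝ) • e‖ - ‖r • e‖ ≤ ‖r • e - (1 / 2 : ℝ) • e‖ := by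
        rw [norm_sub_rev]; exact norm_sub_norm_le _ _
      rw [hb, hre] at h4
      refine lt_min (by linarith) (lt_min (by linarith) (by linarith))
    · refine DD_leA.trans ?_
      rw [zero_add, hre, hrA]; linarith

end Pool.Agent.H68R3
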