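import Pool.Agent.H68R3.HM4

set_option autoImplicit false

open MeasureTheory Filter Topology Set
open scoped ENNReal NNReal RealInnerProductSpace

/-!
Compactness, and a parameter with extremals peaking near both holes.
-/

namespace Pool.Agent.H68R3

open Pool.Agent.Helper533.Polar

variable {n : ℕ} {p : ℝ} {e : Sp n} {ε s s' : ℝ} {x y : Sp n}

theorem modulus (hp : (n : ℝ) < p) (hp0 : 0 < p) {K M : ℝ} {δ : ℝ} (hδ : 0 < δ) :
    ∃ τ : ℝ, 0 < τ ∧ ∀ t, 0 ≤ t → t < τ → K * (t ^ (p - n) * M) ^ (1 / p) < δ := by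
  have h1 : ContinuousAt (fun t : ℝ => K * (t ^ (p - n) * M) ^ (1 / p)) 0 := by
    have h2 : ContinuousAt (fun t : ℝ => t ^ (p - n)) 0 :=
      Real.continuousAt_rpow_const 0 (p - n) (Or.inr (by linarith))
    have h3 : ContinuousAt (fun t : ℝ => t ^ (p - n) * M) 0 := h2.mul continuousAt_const
    exact continuousAt_const.mul (h3.rpow_const (Or.inr (by positivity)))
  have h2 : Tendsto (fun t : ℝ => K * (t ^ (p - n) * M) ^ (1 / p)) (𝓝 0) (𝓝 0) := by
    have h3 := h1.tendsto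
    rw [Real.zero_rpow (by linarith), zero_mul, Real.zero_rpow (by positivity), mul_zero] at h3
    exact h3
  obtain ⟨τ, hτ, h⟩ := Metric.eventually_nhds_iff.1 (h2.eventually (gt_mem_nhds hδ))
  exact ⟨τ, hτ, fun t ht ht' => h (by rw [Real.dist_eq, sub_zero, abs_of_nonneg ht]; exact ht')⟩

theorem eLpNorm_le_of_En (hp : 0 < p) {W : Sp n → Sp n} {c : ℝ≥0∞} (h : En p W ≤ c) :
    eLpNorm W (ENNReal.ofReal p) volume ≤ c ^ (1 / p) := by
  rw [En_eq hp] at h
  have h1 := ENNReal.rpow_le_rpow h (z := 1 / p) (by positivity)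
  rwa [← ENNReal.rpow_mul, mul_one_div_cancel hp.ne', ENNReal.rpow_one] at h1

theorem En_le_of_eLpNorm (hp : 0 < p) {W : Sp n → Sp n} {c : ℝ≥0∞}
    (h : eLpNorm W (ENNReal.ofReal p) volume ≤ c ^ (1 / p)) : En p W ≤ c := by
  rw [En_eq hp]
  have h1 := ENNReal.rpow_le_rpow h hp.le
  rwa [← ENNReal.rpow_mul, one_div, inv_mul_cancel₀ hp.ne', ENNReal.rpow_one] at h1

/-- uniqueness of weak gradients -/
theorem H0_grad_unique (hp : 1 < p) {u : Sp n → ℝ} {U V : Sp n → Sp n}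
    (h1 : H0 p volume univ u U) (h2 : H0 p volume univ u V) : U =ᵐ[volume] V := by
  refine ae_eq_of_integral_contDiff_smul_eq (memLp_locInt781 hp h1.mU)
    (memLp_locInt781 hp h2.mU) fun g hg hgc => ?_
  have hcc : Cc univ g := ⟨hg, hgc, subset_univ _⟩
  have h3 := H0.ibp hp h1 hcc
  have h4 := H0.ibp hp h2 hcc
  exact neg_injective (h3.symm.trans h4)

theorem En_congr {U V : Sp n → Sp n} (h : U =ᵐ[volume] V) : En p U = En p V := by
  unfold En
  refine lintegral_congr_ae ?_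
  filter_upwards [h] with x hx
  rw [hx]

/-- core compactness -/
theorem compact_core (hn : 2 ≤ n) (hp : (n : ℝ) < p) {M : ℝ} (hM : 0 ≤ M)
    {u : ℕ → Sp n → ℝ} {W : ℕ → Sp n → Sp n} {x : ℕ → Sp n} (h : ∀ k, Fe p (u k) (W k))
    (hE : ∀ k, En p (W k) ≤ ENNReal.ofReal M) (hx : ∀ k, ‖x k‖ ≤ 1) :
    ∃ (φ : ℕ → ℕ) (u' : Sp n → ℝ) (x' : Sp n), StrictMono φ ∧
      Tendsto (fun k => x (φ k)) atTop (𝓝 x') ∧ Continuous u' ∧ (∀ y, 1 ≤ ‖y‖ → u' y = 0) ∧
      (∀ y, Tendsto (fun k => u (φ k) y) atTop (𝓝 (u' y))) ∧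
      Tendsto (fun k => u (φ k) (x (φ k))) atTop (𝓝 (u' x')) ∧
      ∀ c : ℝ≥0∞, c ≠ ∞ → (∀ᶠ k in atTop, En p (W (φ k)) ≤ c) →
        ∃ W', H0 p volume univ u' W' ∧ En p W' ≤ c := by
  have hn0 : (2:ℝ) ≤ n := by exact_mod_cast hn
  have hp0 : 0 < p := by linarith
  have hp1 : 1 < p := by linarith
  have hP1 : (1 : ℝ≥0∞) ≤ ENNReal.ofReal p := by simpa using ENNReal.ofReal_le_ofReal hp1.le
  have hP0 : ENNReal.ofReal p ≠ 0 := (zero_lt_one.trans_le hP1).ne'
  have hPt : ENNReal.ofReal p ≠ ∞ := ENNReal.ofReal_ne_top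
  obtain ⟨K, hK, hmor⟩ := morreyR (n := n) (by omega) hp
  have hmod : ∀ k y z, |u k y - u k z| ≤ K * (‖y - z‖ ^ (p - n) * M) ^ (1 / p) := fun k y z =>
    hmor _ _ (h k) M hM (hE k) y z
  have hδ : ∀ δ : ℝ, 0 < δ → ∃ τ : ℝ, 0 < τ ∧ ∀ k y z, dist y z < τ → |u k y - u k z| ≤ δ := by
    intro δ hδ
    obtain ⟨τ, hτ, h1⟩ := modulus (n := n) hp hp0 (K := K) (M := M) hδ
    exact ⟨τ, hτ, fun k y z hyz => (hmod k y z).trans (h1 _ (norm_nonneg _) (by
      rwa [← dist_eq_norm])).le⟩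
  obtain ⟨e, he⟩ : ∃ e : Sp n, ‖e‖ = 1 := ⟨EuclideanSpace.single ⟨0, by omega⟩ 1, by simp⟩
  set B : ℝ := K * (2 ^ (p - n) * M) ^ (1 / p) with hB
  have hB0 : 0 ≤ B := by positivity
  have hbd : ∀ k y, |u k y| ≤ B := by
    intro k y
    rcases le_total 1 ‖y‖ with hy | hy
    · rw [(h k).out y hy, abs_zero]; exact hB0
    · have h1 := hmod k y e
      rw [(h k).out e he.ge, sub_zero] at h1
      refine h1.trans ?_
      have h2 : ‖y - e‖ ≤ 2 := by
        have := norm_sub_le y e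
        linarith
      refine mul_le_mul_of_nonneg_left ?_ hK.le
      refine Real.rpow_le_rpow (by positivity) (mul_le_mul_of_nonneg_right ?_ hM) (by positivity)
      exact Real.rpow_le_rpow (norm_nonneg _) h2 (by linarith)
  let q : ℕ → Sp n := TopologicalSpace.denseSeq (Sp n)
  have hcomp : IsCompact ((Set.pi univ (fun _ : ℕ => Icc (-B) B)) ×ˢ
      (Metric.closedBall (0 : Sp n) 1)) :=
    (isCompact_univ_pi fun _ => isCompact_Icc).prod (isCompact_closedBall _ _)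
  obtain ⟨⟨l, x'⟩, -, φ, hφ, hl⟩ := hcomp.tendsto_subseq (x := fun k => (fun i => u k (q i), x k))
    (fun k => by
      refine ⟨fun i _ => ?_, by simpa using hx k⟩
      exact abs_le.1 (hbd k (q i)))
  have hl1 : Tendsto (fun k => (fun i => u (φ k) (q i))) atTop (𝓝 l) :=
    (continuous_fst.tendsto _).comp hl
  have hl2 : Tendsto (fun k => x (φ k)) atTop (𝓝 x') := (continuous_snd.tendsto _).comp hl
  have hl' : ∀ i, Tendsto (fun k => u (φ k) (q i)) atTop (𝓝 (l i)) := fun i =>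
    (tendsto_pi_nhds.1 hl1) i
  have hcau : ∀ y, CauchySeq (fun k => u (φ k) y) := by
    intro y
    rw [Metric.cauchySeq_iff']
    intro δ hδ'
    obtain ⟨τ, hτ, hτ'⟩ := hδ (δ / 4) (by positivity)
    obtain ⟨i, hi⟩ := (TopologicalSpace.denseRange_denseSeq (Sp n)).exists_dist_lt y hτ
    have h1 := (hl' i).cauchySeq
    rw [Metric.cauchySeq_iff'] at h1
    obtain ⟨N, hN⟩ := h1 (δ / 4) (by positivity)
    refine ⟨N, fun k hk => ?_⟩
    have h2 := hN k hk
    rw [Real.dist_eq] at h2 ⊢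
    have h3 := hτ' (φ k) y (q i) hi
    have h4 := hτ' (φ N) y (q i) hi
    rw [abs_lt] at h2 ⊢
    rw [abs_le] at h3 h4
    constructor <;> linarith
  choose v hv using fun y => cauchySeq_tendsto_of_complete (hcau y)
  have hvmod : ∀ δ > 0, ∃ τ : ℝ, 0 < τ ∧ ∀ y z, dist y z < τ → |v y - v z| ≤ δ := by
    intro δ hδ'
    obtain ⟨τ, hτ, hτ'⟩ := hδ δ hδ'
    exact ⟨τ, hτ, fun y z hyz => le_of_tendsto' ((hv y).sub (hv z)).abs fun k =>
      hτ' (φ k) y z hyz⟩
  have hvB : ∀ y, |v y| ≤ B := fun y => le_of_tendsto' (hv y).abs fun k => hbd (φ k) y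
  have hout : ∀ y, 1 ≤ ‖y‖ → v y = 0 := by
    intro y hy
    refine tendsto_nhds_unique (hv y) ?_
    simp only [fun k => (h (φ k)).out y hy]
    exact tendsto_const_nhds
  have hvc : Continuous v := by
    rw [Metric.continuous_iff]
    intro y δ hδ'
    obtain ⟨τ, hτ, hτ'⟩ := hvmod (δ / 2) (by positivity)
    refine ⟨τ, hτ, fun z hz => ?_⟩
    rw [Real.dist_eq]
    have := hτ' z y hz
    linarith
  have hvK : HasCompactSupport v := by
    refine HasCompactSupport.intro (isCompact_closedBall (0 : Sp n) 1) fun y hy => hout y ?_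
    simp only [Metric.mem_closedBall, dist_zero_right, not_le] at hy
    exact hy.le
  have hvL : MemLp v (ENNReal.ofReal p) volume := hvc.memLp_of_hasCompactSupport hvK
  have hlim : Tendsto (fun j => eLpNorm (fun x => v x - u (φ j) x) (ENNReal.ofReal p) volume)
      atTop (𝓝 0) := by
    have hg : MemLp ((Metric.closedBall (0 : Sp n) 1).indicator fun _ => 2 * B)
        (ENNReal.ofReal p) volume :=
      memLp_indicator_const _ Metric.isClosed_closedBall.measurableSet _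
        (Or.inr (isCompact_closedBall (0 : Sp n) 1).measure_lt_top.ne)
    refine Lp_dct hP0 hPt (g := (Metric.closedBall (0 : Sp n) 1).indicator fun _ => 2 * B) hg
      ?_ ?_ ?_
    · intro j
      exact (hvc.sub (h (φ j)).cont).aestronglyMeasurable
    · intro j
      filter_upwards with y
      by_cases hy : y ∈ Metric.closedBall (0 : Sp n) 1
      · rw [indicator_of_mem hy, Real.norm_eq_abs, abs_le]
        have h1 := abs_le.1 (hvB y)
        have h2 := abs_le.1 (hbd (φ j) y)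
        constructor <;> linarith
      · rw [indicator_of_notMem hy]
        simp only [Metric.mem_closedBall, dist_zero_right, not_le] at hy
        rw [hout y hy.le, (h (φ j)).out y hy.le]; simp
    · filter_upwards with y
      have := (hv y).const_sub (v y)
      simpa using this
  refine ⟨φ, v, x', hφ, hl2, hvc, hout, hv, ?_, ?_⟩
  · rw [Metric.tendsto_nhds]
    intro δ hδ'
    obtain ⟨τ, hτ, hτ'⟩ := hδ (δ / 2) (by positivity)
    filter_upwards [(Metric.tendsto_nhds.1 hl2) τ hτ,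
      (Metric.tendsto_nhds.1 (hv x')) (δ / 2) (by positivity)] with k h1 h2
    have h3 := hτ' (φ k) _ _ h1
    rw [Real.dist_eq] at h2 ⊢
    rw [abs_lt] at h2 ⊢
    rw [abs_le] at h3
    constructor <;> linarith
  · intro c hc hev
    obtain ⟨J, hJ⟩ := eventually_atTop.1 hev
    have hJ' : ∀ j, eLpNorm (W (φ (j + J))) (ENNReal.ofReal p) volume ≤ c ^ (1 / p) := fun j =>
      eLpNorm_le_of_En hp0 (hJ (j + J) (Nat.le_add_left J j))
    obtain ⟨F, hF, hFC, -⟩ := H0.weak_lim hp1 MeasurableSet.univ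
      (fun j => (h (φ (j + J))).h0) (C := c ^ (1 / p)) (C1 := c ^ (1 / p))
      (ENNReal.rpow_ne_top_of_nonneg (by positivity) hc) hJ'
      (fun j => by rw [indicator_univ]; exact hJ' j) hvL
      (hlim.comp (tendsto_add_atTop_nat J))
    exact ⟨F, hF, En_le_of_eLpNorm hp0 hFC⟩

/-- functions vanishing off the domain are small near the boundary -/
theorem small_near (hε : 0 < ε) (hpn : (n : ℝ) < p) (hp0 : 0 < p) {K : ℝ} (hK : 0 < K) (hmor : ∀ (u : Sp n → ℝ) (W : Sp n → Sp n), Fe p u W →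
      ∀ E : ℝ, 0 ≤ E → En p W ≤ ENNReal.ofReal E →
      ∀ x y, |u x - u y| ≤ K * (‖x - y‖ ^ (p - n) * E) ^ (1 / p))
    {u : Sp n → ℝ} {W : Sp n → Sp n} (hu : Fe p u W) (hz : ∀ z, DD e ε s z ≤ 0 → u z = 0)
    {E : ℝ} (hE : 0 ≤ E) (hEW : En p W ≤ ENNReal.ofReal E) {z : Sp n} {t : ℝ} (ht : 0 ≤ t)
    (hzt : DD e ε s z ≤ t) : |u z| ≤ K * (t ^ (p - n) * E) ^ (1 / p) := by
  by_cases h0 : DD e ε s z ≤ 0
  · rw [hz z h0, abs_zero]; positivity
  push Not at h0
  obtain ⟨y, hy, hyd⟩ := exists_near hε h0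
  have h1 := hmor u W hu E hE hEW z y
  rw [hz y hy, sub_zero] at h1
  refine h1.trans (mul_le_mul_of_nonneg_left ?_ hK.le)
  refine Real.rpow_le_rpow (by positivity) (mul_le_mul_of_nonneg_right ?_ hE) (by positivity)
  refine Real.rpow_le_rpow (norm_nonneg _) ?_ (by linarith)
  rw [← dist_eq_norm, hyd]
  exact hzt

/-- compactness for varying domains -/
theorem compact (hn : 2 ≤ n) (hp : (n : ℝ) < p) (hε : 0 < ε) {s : ℕ → ℝ} {s₀ : ℝ}
    (hs : Tendsto s atTop (𝓝 s₀)) {u : ℕ → Sp n → ℝ} {W : ℕ → Sp n → Sp n} {x : ℕ → Sp n}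
    (h : ∀ k, Dat p e ε (s k) (u k) (W k) (x k)) {d₀ : ℝ} (hd₀ : 0 < d₀)
    (hd : ∀ k, d₀ ≤ DD e ε (s k) (x k)) {Λ : ℝ} (hΛ0 : 0 ≤ Λ)
    (hΛ : ∀ c, Λ < c → ∀ᶠ k in atTop, FF p e ε (s k) (W k) (x k) ≤ ENNReal.ofReal c) :
    ∃ (φ : ℕ → ℕ) (u' : Sp n → ℝ) (W' : Sp n → Sp n) (x' : Sp n), StrictMono φ ∧
      Tendsto (fun k => x (φ k)) atTop (𝓝 x') ∧ Dat p e ε s₀ u' W' x' ∧
      FF p e ε s₀ W' x' ≤ ENNReal.ofReal Λ := by
  have hn0 : (2:ℝ) ≤ n := by exact_mod_cast hn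
  have hp0 : 0 < p := by linarith
  have hp1 : 1 < p := by linarith
  obtain ⟨K, hK, hmor⟩ := morreyR (n := n) (by omega) hp
  obtain ⟨N, hN⟩ := eventually_atTop.1 (hΛ (Λ + 1) (by linarith))
  have hd₀p : 0 < d₀ ^ (p - n) := by positivity
  set M : ℝ := (Λ + 1) / d₀ ^ (p - n) with hM
  have hM0 : 0 ≤ M := by positivity
  have hEn : ∀ (s' : ℝ) (W : Sp n → Sp n) (x : Sp n) (c d : ℝ), 0 < d → d ≤ DD e ε s' x →
      FF p e ε s' W x ≤ ENNReal.ofReal c → En p W ≤ ENNReal.ofReal (c / d ^ (p - n)) := by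
    intro s' W x c d hd hdd hF
    have hdp : 0 < d ^ (p - n) := by positivity
    rw [ENNReal.ofReal_div_of_pos hdp, ENNReal.le_div_iff_mul_le
      (Or.inl (ENNReal.ofReal_pos.2 hdp).ne') (Or.inl ENNReal.ofReal_ne_top), mul_comm]
    refine le_trans (mul_le_mul_left (ENNReal.ofReal_le_ofReal ?_) _) hF
    exact Real.rpow_le_rpow hd.le hdd (by linarith)
  have hxle : ∀ k, ‖x k‖ ≤ 1 := by
    intro k
    have h1 := DD_le1 (e := e) (ε := ε) (s := s k) (x := x k)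
    have h2 := (h k).pos
    linarith
  obtain ⟨φ, u', x', hφ, hx', huc, hout, hlim, hlimx, hW⟩ := compact_core hn hp hM0
    (u := fun k => u (k + N)) (W := fun k => W (k + N)) (x := fun k => x (k + N))
    (fun k => (h (k + N)).fe)
    (fun k => hEn _ _ _ _ _ hd₀ (hd _) (hN (k + N) (Nat.le_add_left _ _)))
    (fun k => hxle _)
  have hφ' : Tendsto (fun k => φ k + N) atTop atTop :=
    (tendsto_add_atTop_nat N).comp hφ.tendsto_atTop
  have hs' : Tendsto (fun k => s (φ k + N)) atTop (𝓝 s₀) := hs.comp hφ'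
  have hDD : Tendsto (fun k => DD e ε (s (φ k + N)) (x (φ k + N))) atTop
      (𝓝 (DD e ε s₀ x')) := DD_tendsto hs' hx'
  have hdx' : d₀ ≤ DD e ε s₀ x' := ge_of_tendsto' hDD fun k => hd _
  have hux' : u' x' = 1 := by
    refine tendsto_nhds_unique hlimx ?_
    simp only [fun k => (h (φ k + N)).one]
    exact tendsto_const_nhds
  have hzero : ∀ z, DD e ε s₀ z ≤ 0 → u' z = 0 := by
    intro z hz
    have h1 : ∀ k, |u (φ k + N) z| ≤
        K * (|s (φ k + N) - s₀| ^ (p - n) * M) ^ (1 / p) := by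
      intro k
      refine small_near hε hp hp0 hK hmor (h (φ k + N)).fe (h (φ k + N)).zero hM0
        (hEn _ _ _ _ _ hd₀ (hd _) (hN (φ k + N) (Nat.le_add_left _ _))) (abs_nonneg _) ?_
      have := DD_lip_s (e := e) (ε := ε) (s := s (φ k + N)) (s' := s₀) (x := z)
      linarith
    have h2 : Tendsto (fun k => K * (|s (φ k + N) - s₀| ^ (p - n) * M) ^ (1 / p)) atTop (𝓝 0) := by
      rw [Metric.tendsto_nhds]
      intro δ hδ
      obtain ⟨τ, hτ, h3⟩ := modulus (n := n) hp hp0 (K := K) (M := M) hδ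
      filter_upwards [(Metric.tendsto_nhds.1 hs') τ hτ] with k hk
      rw [Real.dist_eq] at hk
      rw [Real.dist_eq, sub_zero, abs_of_nonneg (by positivity)]
      exact h3 _ (abs_nonneg _) hk
    have h3 : Tendsto (fun k => |u (φ k + N) z|) atTop (𝓝 0) :=
      squeeze_zero (fun k => abs_nonneg _) h1 h2
    have h4 : Tendsto (fun k => |u (φ k + N) z|) atTop (𝓝 |u' z|) := (hlim z).abs
    have h5 := tendsto_nhds_unique h4 h3
    exact abs_eq_zero.1 h5
  set D : ℝ := DD e ε s₀ x' with hD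
  have hD0 : 0 < D := hd₀.trans_le hdx'
  -- bound of energies
  have hEc : ∀ c, Λ < c → ∀ᶠ k in atTop, En p (W (φ k + N)) ≤ ENNReal.ofReal (c / D ^ (p - n)) := by
    intro c hc
    obtain ⟨c', hc', hc''⟩ := exists_between hc
    have hc'0 : 0 < c' := hΛ0.trans_lt hc'
    have h1 : ∀ᶠ k in atTop, c' / DD e ε (s (φ k + N)) (x (φ k + N)) ^ (p - n) <
        c / D ^ (p - n) := by
      have h2 : Tendsto (fun k => c' / DD e ε (s (φ k + N)) (x (φ k + N)) ^ (p - n)) atTop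
          (𝓝 (c' / D ^ (p - n))) := by
        refine Tendsto.div tendsto_const_nhds ?_ (by positivity)
        exact (Real.continuousAt_rpow_const D (p - n) (Or.inl hD0.ne')).tendsto.comp hDD
      refine h2.eventually (gt_mem_nhds ?_)
      exact div_lt_div_of_pos_right hc'' (by positivity)
    filter_upwards [h1, hφ'.eventually (hΛ c' hc')] with k hk1 hk2
    refine (hEn _ _ _ _ _ (hd₀.trans_le (hd _)) le_rfl hk2).trans ?_
    exact ENNReal.ofReal_le_ofReal hk1.le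
  obtain ⟨W', hW', -⟩ := hW _ ENNReal.ofReal_ne_top (hEc (Λ + 1) (by linarith))
  have hW'E : ∀ c, Λ < c → En p W' ≤ ENNReal.ofReal (c / D ^ (p - n)) := by
    intro c hc
    obtain ⟨W'', h1, h2⟩ := hW _ ENNReal.ofReal_ne_top (hEc c hc)
    rw [En_congr (H0_grad_unique hp1 hW' h1)]
    exact h2
  refine ⟨fun k => φ k + N, u', W', x', fun a b hab => Nat.add_lt_add_right (hφ hab) N, hx',
    ⟨⟨huc, hW', hout⟩, hzero, hD0, hux'⟩, ?_⟩
  unfold FF
  refine ENNReal.le_of_forall_pos_le_add fun δ hδ _ => ?_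
  have h1 := hW'E (Λ + δ) (by
    have : (0:ℝ) < δ := hδ
    linarith)
  refine (mul_le_mul_right h1 _).trans ?_
  rw [← hD, ← ENNReal.ofReal_mul (by positivity), mul_div_cancel₀ _ (by positivity)]
  rw [ENNReal.ofReal_add hΛ0 (by positivity), ENNReal.ofReal_coe_nnreal]

/-- upper semicontinuity -/
theorem usc (hn : 2 ≤ n) (hp : (n : ℝ) < p) (hε : 0 < ε) {u : Sp n → ℝ} {W : Sp n → Sp n}
    (h : Dat p e ε s u W x) {c : ℝ} (hc : FF p e ε s W x < ENNReal.ofReal c) :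
    ∀ᶠ s' in 𝓝 s, ∃ u' W', Dat p e ε s' u' W' x ∧ FF p e ε s' W' x < ENNReal.ofReal c := by
  have hn0 : (2:ℝ) ≤ n := by exact_mod_cast hn
  have hp0 : 0 < p := by linarith
  have hp1 : 1 < p := by linarith
  obtain ⟨K, hK, hmor⟩ := morreyR (n := n) (by omega) hp
  have hEt : En p W ≠ ∞ := En_ne_top hp0 h.fe.h0.mU
  set E : ℝ := (En p W).toReal with hE
  have hE0 : 0 ≤ E := ENNReal.toReal_nonneg
  have hEW : En p W = ENNReal.ofReal E := by rw [hE, ENNReal.ofReal_toReal hEt]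
  have hDpos := h.pos
  have hc0 : 0 < c := by
    by_contra h'
    rw [ENNReal.ofReal_of_nonpos (not_lt.1 h')] at hc
    exact absurd hc not_lt_zero
  have hc' : DD e ε s x ^ (p - n) * E < c := by
    unfold FF at hc
    rw [hEW, ← ENNReal.ofReal_mul (by positivity), ENNReal.ofReal_lt_ofReal_iff hc0] at hc
    exact hc
  -- choose `δ`
  obtain ⟨δ, hδ0, hδ1, hδc⟩ : ∃ δ : ℝ, 0 < δ ∧ δ < 1 ∧
      DD e ε s x ^ (p - n) * (((1 - δ)⁻¹) ^ p * E) < c := by
    have h1 : ContinuousAt (fun δ : ℝ => DD e ε s x ^ (p - n) * (((1 - δ)⁻¹) ^ p * E)) 0 := by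
      have h2 : ContinuousAt (fun δ : ℝ => (1 - δ)⁻¹) 0 :=
        ContinuousAt.inv₀ (by fun_prop) (by norm_num)
      exact continuousAt_const.mul ((h2.rpow_const (Or.inr hp0.le)).mul continuousAt_const)
    have h2 : ∀ᶠ δ in 𝓝 (0:ℝ), DD e ε s x ^ (p - n) * (((1 - δ)⁻¹) ^ p * E) < c := by
      refine h1.eventually (gt_mem_nhds ?_)
      show DD e ε s x ^ (p - n) * (((1 - 0)⁻¹) ^ p * E) < c
      rw [sub_zero, inv_one, Real.one_rpow, one_mul]
      exact hc'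
    have h2' : ∀ᶠ δ in 𝓝[>] (0:ℝ), DD e ε s x ^ (p - n) * (((1 - δ)⁻¹) ^ p * E) < c :=
      nhdsWithin_le_nhds h2
    have h2'' : ∀ᶠ δ in 𝓝[>] (0:ℝ), δ < 1 :=
      nhdsWithin_le_nhds (gt_mem_nhds (by norm_num : (0:ℝ) < 1))
    obtain ⟨δ, h3⟩ := (h2'.and (h2''.and self_mem_nhdsWithin)).exists
    exact ⟨δ, h3.2.2, h3.2.1, h3.1⟩
  have h1δ : 0 < 1 - δ := by linarith
  set u' : Sp n → ℝ := fun z => (1 - δ)⁻¹ * max (u z - δ) 0 with hu'
  set W' : Sp n → Sp n := fun z => (1 - δ)⁻¹ • ((if δ < u z then (1 : ℝ) else 0) • W z) with hW'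
  have hH : H0 p volume univ u' W' := H0.const_mul _ (H0.pos hp1 h.fe.h0 hδ0.le)
  have hEn' : En p W' ≤ ENNReal.ofReal (((1 - δ)⁻¹) ^ p * E) := by
    rw [hW', En_smul hp0 (1 - δ)⁻¹ (fun z => (if δ < u z then (1 : ℝ) else 0) • W z),
      abs_of_pos (inv_pos.2 h1δ), ENNReal.ofReal_mul (by positivity), ← hEW]
    refine mul_le_mul_right (En_mono hp0 fun z => ?_) _
    rw [norm_smul]
    split_ifs <;> simp
  have hcont : Tendsto (fun s' => DD e ε s' x) (𝓝 s) (𝓝 (DD e ε s x)) :=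
    DD_tendsto tendsto_id tendsto_const_nhds
  have e1 : ∀ᶠ s' in 𝓝 s, 0 < DD e ε s' x := hcont.eventually (lt_mem_nhds hDpos)
  have e2 : ∀ᶠ s' in 𝓝 s, DD e ε s' x ^ (p - n) * (((1 - δ)⁻¹) ^ p * E) < c := by
    have h2 : Tendsto (fun s' => DD e ε s' x ^ (p - n) * (((1 - δ)⁻¹) ^ p * E)) (𝓝 s)
        (𝓝 (DD e ε s x ^ (p - n) * (((1 - δ)⁻¹) ^ p * E))) :=
      ((Real.continuousAt_rpow_const _ (p - n) (Or.inl hDpos.ne')).tendsto.comp hcont).mul_const _
    exact h2.eventually (gt_mem_nhds hδc)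
  obtain ⟨τ, hτ, hτ'⟩ := modulus (n := n) hp hp0 (K := K) (M := E) hδ0
  have e3 : ∀ᶠ s' in 𝓝 s, |s - s'| < τ := by
    have h2 : Tendsto (fun s' => |s - s'|) (𝓝 s) (𝓝 |s - s|) :=
      (tendsto_const_nhds.sub tendsto_id).abs
    rw [sub_self, abs_zero] at h2
    exact h2.eventually (gt_mem_nhds hτ)
  filter_upwards [e1, e2, e3] with s' k1 k2 k3
  refine ⟨u', W', ⟨⟨?_, hH, ?_⟩, ?_, k1, ?_⟩, ?_⟩
  · have := h.fe.cont
    simp only [u']
    fun_prop
  · intro y hy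
    simp only [u']
    rw [h.fe.out y hy, max_eq_right (by linarith), mul_zero]
  · intro z hz
    have h2 : DD e ε s z ≤ |s - s'| := by
      have := DD_lip_s (e := e) (ε := ε) (s := s) (s' := s') (x := z)
      linarith
    have h3 := small_near hε hp hp0 hK hmor h.fe h.zero hE0 hEW.le (abs_nonneg _) h2
    have h4 := hτ' _ (abs_nonneg _) k3
    simp only [u']
    rw [max_eq_right, mul_zero]
    have := le_abs_self (u z)
    linarith
  · simp only [u']
    rw [h.one, max_eq_left h1δ.le, inv_mul_cancel₀ h1δ.ne']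
  · unfold FF
    refine lt_of_le_of_lt (mul_le_mul_right hEn' _) ?_
    rw [← ENNReal.ofReal_mul (by positivity), ENNReal.ofReal_lt_ofReal_iff hc0]
    exact k2

/-- the sharp constant in terms of peaks -/
noncomputable def lam (p : ℝ) (e : Sp n) (ε s : ℝ) : ℝ≥0∞ :=
  ⨅ (u : Sp n → ℝ) (W : Sp n → Sp n) (x : Sp n) (_ : Dat p e ε s u W x), FF p e ε s W x

theorem lam_le {u : Sp n → ℝ} {W : Sp n → Sp n} (h : Dat p e ε s u W x) :
    lam p e ε s ≤ FF p e ε s W x :=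
  iInf₂_le_of_le u W (iInf₂_le_of_le x h le_rfl)

theorem exists_of_lam_lt {c : ℝ≥0∞} (h : lam p e ε s < c) :
    ∃ u W x, Dat p e ε s u W x ∧ FF p e ε s W x < c := by
  unfold lam at h
  simp only [iInf_lt_iff] at h
  obtain ⟨u, W, x, h1, h2⟩ := h
  exact ⟨u, W, x, h1, h2⟩

/-- a parameter with extremals peaking near both holes -/
theorem exists_two (hn : 2 ≤ n) : ∃ C : ℝ, 0 < C ∧ ∀ (p : ℝ), Good n C p → ∀ (e : Sp n), ‖e‖ = 1 →
    ∃ ε s : ℝ, 0 < ε ∧ ε ≤ 1 / 64 ∧ 0 ≤ s ∧ s ≤ 1 ∧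
      (∃ u W x, Dat p e ε s u W x ∧ FF p e ε s W x ≤ lam p e ε s ∧ ‖x‖ ≤ 1 / 8) ∧
      (∃ u W x, Dat p e ε s u W x ∧ FF p e ε s W x ≤ lam p e ε s ∧
        ‖x - (1 / 2 : ℝ) • e‖ ≤ 1 / 8) := by
  obtain ⟨C, hC, hloc⟩ := localize hn
  refine ⟨C, hC, fun p hp e he => ?_⟩
  have hn0 : (2:ℝ) ≤ n := by exact_mod_cast hn
  have hpn := hp.lt
  have hp0 : 0 < p := by linarith
  have hcp : 0 < cp n p := cp_pos (by omega) hpn
  have hct : cp n p ≠ ∞ := cp_ne_top hp0
  have hc0 : 0 < (cp n p).toReal := ENNReal.toReal_pos hcp.ne' hct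
  obtain ⟨ε, hε, hε1, hup⟩ := upper_all hn hpn he
  have hlam : ∀ s, 0 ≤ s → s ≤ 1 → lam p e ε s ≤ ENNReal.ofReal (3 / 5 * (cp n p).toReal) := by
    intro s h0 h1
    obtain ⟨u, W, x, h2, h3⟩ := hup s h0 h1
    exact (lam_le h2).trans h3
  have hlt : ENNReal.ofReal (3 / 5 * (cp n p).toReal) < ENNReal.ofReal (4 / 5 * (cp n p).toReal) := by
    rw [ENNReal.ofReal_lt_ofReal_iff (by positivity)]
    linarith
  have hlamt : ∀ s, 0 ≤ s → s ≤ 1 → lam p e ε s ≠ ∞ := fun s h0 h1 =>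
    ((hlam s h0 h1).trans_lt ENNReal.ofReal_lt_top).ne
  have hloc' : ∀ s, 0 ≤ s → s ≤ 1 → ∀ u W x, Dat p e ε s u W x →
      FF p e ε s W x < ENNReal.ofReal (4 / 5 * (cp n p).toReal) → 2 * ε ≤ DD e ε s x := by
    intro s h0 h1 u W x h2 h3
    rcases hloc p hp e he ε s hε (by linarith) h0 h1 u W x h2 h3 with h | h
    · linarith [h.2, le_rA (ε := ε) (s := s)]
    · linarith [h.2, le_rB (ε := ε) (s := s)]
  -- existence of extremals
  have hex : ∀ s, 0 ≤ s → s ≤ 1 → ∃ u W x, Dat p e ε s u W x ∧ FF p e ε s W x ≤ lam p e ε s := by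
    intro s h0 h1
    have hk : ∀ k : ℕ, ∃ u W x, Dat p e ε s u W x ∧ FF p e ε s W x <
        min (ENNReal.ofReal (4 / 5 * (cp n p).toReal))
          (ENNReal.ofReal ((lam p e ε s).toReal + 1 / ((k:ℝ) + 1))) := by
      intro k
      refine exists_of_lam_lt (lt_min ((hlam s h0 h1).trans_lt hlt) ?_)
      conv_lhs => rw [← ENNReal.ofReal_toReal (hlamt s h0 h1)]
      have : 0 < 1 / ((k:ℝ) + 1) := by positivity
      rw [ENNReal.ofReal_lt_ofReal_iff (by positivity)]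
      linarith
    choose u W x hD hF using hk
    obtain ⟨φ, u', W', x', -, -, h2, h3⟩ := compact hn hpn hε (s := fun _ => s)
      tendsto_const_nhds hD (d₀ := 2 * ε) (by positivity)
      (fun k => hloc' s h0 h1 _ _ _ (hD k) ((hF k).trans_le (min_le_left _ _)))
      (Λ := (lam p e ε s).toReal) ENNReal.toReal_nonneg (by
        intro c hc
        have h4 : Tendsto (fun k : ℕ => 1 / ((k:ℝ) + 1)) atTop (𝓝 0) :=
          tendsto_one_div_add_atTop_nhds_zero_nat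
        filter_upwards [h4.eventually (gt_mem_nhds (sub_pos.2 hc))] with k hk
        refine ((hF k).trans_le (min_le_right _ _)).le.trans (ENNReal.ofReal_le_ofReal ?_)
        linarith)
    rw [ENNReal.ofReal_toReal (hlamt s h0 h1)] at h3
    exact ⟨u', W', x', h2, h3⟩
  -- closedness
  have hclosed : ∀ P : Set (Sp n), IsClosed P → IsClosed {s : ℝ | s ∈ Icc (0:ℝ) 1 ∧
      ∃ u W x, Dat p e ε s u W x ∧ FF p e ε s W x ≤ lam p e ε s ∧ x ∈ P} := by
    intro P hP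
    refine IsSeqClosed.isClosed fun s s₀ hs hlim => ?_
    have hs₀ : s₀ ∈ Icc (0:ℝ) 1 := isClosed_Icc.mem_of_tendsto hlim
      (Eventually.of_forall fun k => (hs k).1)
    refine ⟨hs₀, ?_⟩
    choose u W x hD hF hxP using fun k => (hs k).2
    obtain ⟨φ, u', W', x', hφ, h1, h2, h3⟩ := compact hn hpn hε hlim hD
      (d₀ := 2 * ε) (by positivity)
      (fun k => hloc' _ (hs k).1.1 (hs k).1.2 _ _ _ (hD k)
        ((hF k).trans_lt ((hlam _ (hs k).1.1 (hs k).1.2).trans_lt hlt)))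
      (Λ := (lam p e ε s₀).toReal) ENNReal.toReal_nonneg (by
        intro c hc
        have h4 : lam p e ε s₀ < ENNReal.ofReal c := by
          rw [← ENNReal.ofReal_toReal (hlamt s₀ hs₀.1 hs₀.2)]
          exact (ENNReal.ofReal_lt_ofReal_iff (ENNReal.toReal_nonneg.trans_lt hc)).2 hc
        obtain ⟨u₁, W₁, x₁, h5, h6⟩ := exists_of_lam_lt h4
        filter_upwards [hlim.eventually (usc hn hpn hε h5 h6)] with k hk
        obtain ⟨u₂, W₂, h7, h8⟩ := hk
        exact (hF k).trans ((lam_le h7).trans h8.le))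
    rw [ENNReal.ofReal_toReal (hlamt s₀ hs₀.1 hs₀.2)] at h3
    exact ⟨u', W', x', h2, h3, hP.mem_of_tendsto h1 (Eventually.of_forall fun k => hxP _)⟩
  have hPA : IsClosed {x : Sp n | ‖x‖ ≤ 1 / 8} := isClosed_le continuous_norm continuous_const
  have hPB : IsClosed {x : Sp n | ‖x - (1 / 2 : ℝ) • e‖ ≤ 1 / 8} :=
    isClosed_le (by fun_prop) continuous_const
  have hpre : IsPreconnected (Icc (0:ℝ) 1) := isPreconnected_Icc
  rw [isPreconnected_closed_iff] at hpre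
  obtain ⟨s, hs, ⟨-, hA⟩, -, hB⟩ := hpre _ _ (hclosed _ hPA) (hclosed _ hPB) (by
    intro s hs
    obtain ⟨u, W, x, h1, h2⟩ := hex s hs.1 hs.2
    rcases hloc p hp e he ε s hε (by linarith) hs.1 hs.2 u W x h1
      (h2.trans_lt ((hlam s hs.1 hs.2).trans_lt hlt)) with h | h
    · exact Or.inl ⟨hs, u, W, x, h1, h2, h.1⟩
    · exact Or.inr ⟨hs, u, W, x, h1, h2, h.1⟩) (by
    refine ⟨1, ⟨zero_le_one, le_rfl⟩, ⟨zero_le_one, le_rfl⟩, ?_⟩
    obtain ⟨u, W, x, h1, h2⟩ := hex 1 zero_le_one le_rfl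
    rcases hloc p hp e he ε 1 hε (by linarith) zero_le_one le_rfl u W x h1
      (h2.trans_lt ((hlam 1 zero_le_one le_rfl).trans_lt hlt)) with h | h
    · exact ⟨u, W, x, h1, h2, h.1⟩
    · exfalso
      have h3 := DD_leB (e := e) (ε := ε) (s := 1) (x := x)
      have h4 : rB ε 1 = 1 / 16 := by
        unfold rB
        rw [max_eq_right (by linarith)]; norm_num
      rw [h4] at h h3
      linarith [h.1, h.2]) (by
    refine ⟨0, ⟨le_rfl, zero_le_one⟩, ⟨le_rfl, zero_le_one⟩, ?_⟩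
    obtain ⟨u, W, x, h1, h2⟩ := hex 0 le_rfl zero_le_one
    rcases hloc p hp e he ε 0 hε (by linarith) le_rfl zero_le_one u W x h1
      (h2.trans_lt ((hlam 0 le_rfl zero_le_one).trans_lt hlt)) with h | h
    · exfalso
      have h3 := DD_leA (e := e) (ε := ε) (s := 0) (x := x)
      have h4 : rA ε 0 = 1 / 16 := by
        unfold rA
        rw [max_eq_right (by linarith)]; norm_num
      rw [h4] at h h3
      linarith [h.1, h.2]
    · exact ⟨u, W, x, h1, h2, h.1⟩)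
  exact ⟨ε, s, hε, hε1, hs.1, hs.2, hA, hB⟩

end Pool.Agent.H68R3
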