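import Pool.Agent.H68R3.HM5
import Mathlib.Analysis.InnerProductSpace.NormPow

set_option autoImplicit false

open MeasureTheory Filter Topology Set
open scoped ENNReal NNReal RealInnerProductSpace

/-!
Peaks are unique, similarities of the domain, connectedness.
-/

namespace Pool.Agent.H68R3

open Pool.Agent.Helper533.Polar

variable {n : ℕ} {p : ℝ} {e : Sp n} {ε s s' : ℝ} {x y : Sp n}

theorem lam_mul (hp1 : 1 < p) {u : Sp n → ℝ} {W : Sp n → Sp n} (hu : Fe p u W)
    (hz : ∀ z, DD e ε s z ≤ 0 → u z = 0) (hx : 0 < DD e ε s x) :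
    lam p e ε s * ENNReal.ofReal (|u x| ^ p) ≤ FF p e ε s W x := by
  have hp0 : 0 < p := by linarith
  by_cases hux : u x = 0
  · rw [hux, abs_zero, Real.zero_rpow hp0.ne', ENNReal.ofReal_zero, mul_zero]
    exact zero_le
  have hpos : 0 < |u x| ^ p := Real.rpow_pos_of_pos (abs_pos.2 hux) _
  have hD : Dat p e ε s (fun z => (u x)⁻¹ * u z) (fun z => (u x)⁻¹ • W z) x :=
    ⟨⟨by have := hu.cont; fun_prop, H0.const_mul _ hu.h0, fun y hy => by
        rw [hu.out y hy, mul_zero]⟩,
      fun z h => by rw [hz z h, mul_zero], hx, inv_mul_cancel₀ hux⟩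
  have h1 := lam_le hD
  unfold FF at h1 ⊢
  rw [En_smul hp0 (u x)⁻¹ W] at h1
  calc lam p e ε s * ENNReal.ofReal (|u x| ^ p)
      ≤ ENNReal.ofReal (DD e ε s x ^ (p - n)) * (ENNReal.ofReal (|(u x)⁻¹| ^ p) * En p W) *
        ENNReal.ofReal (|u x| ^ p) := mul_le_mul_left h1 _
    _ = ENNReal.ofReal (DD e ε s x ^ (p - n)) * En p W *
        (ENNReal.ofReal (|(u x)⁻¹| ^ p) * ENNReal.ofReal (|u x| ^ p)) := by ring
    _ = ENNReal.ofReal (DD e ε s x ^ (p - n)) * En p W := by
        rw [← ENNReal.ofReal_mul (by positivity), ← Real.mul_rpow (by positivity) (by positivity),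
          ← abs_mul, inv_mul_cancel₀ hux, abs_one, Real.one_rpow, ENNReal.ofReal_one, mul_one]

/-- the energy is differentiable along lines -/
theorem hasDerivAt_energy (hp1 : 1 < p) {W G : Sp n → Sp n}
    (hW : MemLp W (ENNReal.ofReal p) volume) (hG : MemLp G (ENNReal.ofReal p) volume) :
    ∃ L : ℝ, HasDerivAt (fun t : ℝ => ∫ z, ‖W z + t • G z‖ ^ p) L 0 := by
  have hp0 : 0 < p := by linarith
  have hP0 : ENNReal.ofReal p ≠ 0 := by simpa using hp0
  set F : ℝ → Sp n → ℝ := fun t z => ‖W z + t • G z‖ ^ p with hF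
  set F' : ℝ → Sp n → ℝ := fun t z =>
    (p * ‖W z + t • G z‖ ^ (p - 2)) * ⟪W z + t • G z, G z⟫ with hF'
  have hmem : ∀ t : ℝ, MemLp (fun z => W z + t • G z) (ENNReal.ofReal p) volume := fun t =>
    hW.add (hG.const_smul t)
  have hint : ∀ {f : Sp n → ℝ}, MemLp f (ENNReal.ofReal p) volume →
      Integrable (fun z => ‖f z‖ ^ p) volume := by
    intro f hf
    have := hf.integrable_norm_rpow hP0 ENNReal.ofReal_ne_top
    rwa [ENNReal.toReal_ofReal hp0.le] at this
  have hFm : ∀ t, AEStronglyMeasurable (F t) volume := fun t =>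
    ((hmem t).1.norm.aemeasurable.pow_const p).aestronglyMeasurable
  have hFi : Integrable (F 0) volume := by
    have := (hmem 0).integrable_norm_rpow hP0 ENNReal.ofReal_ne_top
    rwa [ENNReal.toReal_ofReal hp0.le] at this
  have hF'm : AEStronglyMeasurable (F' 0) volume := by
    have h1 := ((hmem 0).1.norm.aemeasurable.pow_const (p - 2)).const_mul p
    exact (h1.mul ((hmem 0).1.inner hG.1).aemeasurable).aestronglyMeasurable
  have hbd : Integrable (fun z => p * (‖W z‖ + ‖G z‖) ^ p) volume := by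
    have h1 : MemLp (fun z => ‖W z‖ + ‖G z‖) (ENNReal.ofReal p) volume := hW.norm.add hG.norm
    have h2 := (hint h1).const_mul p
    refine h2.congr (Eventually.of_forall fun z => ?_)
    simp only
    rw [Real.norm_eq_abs, abs_of_nonneg (by positivity)]
  have key := hasDerivAt_integral_of_dominated_loc_of_deriv_le (μ := volume) (F := F) (F' := F')
    (x₀ := (0:ℝ)) (s := Metric.ball 0 1) (bound := fun z => p * (‖W z‖ + ‖G z‖) ^ p)
    (Metric.ball_mem_nhds 0 one_pos) (Eventually.of_forall hFm) hFi hF'm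
    (Eventually.of_forall fun z t ht => by
      have ht' : |t| ≤ 1 := by
        rw [Metric.mem_ball, Real.dist_eq, sub_zero] at ht
        exact ht.le
      set a : ℝ := ‖W z + t • G z‖ with ha
      have ha0 : 0 ≤ a := norm_nonneg _
      have hale : a ≤ ‖W z‖ + ‖G z‖ := by
        refine (norm_add_le _ _).trans ?_
        rw [norm_smul, Real.norm_eq_abs]
        have := norm_nonneg (G z)
        nlinarith
      have h1 : |⟪W z + t • G z, G z⟫| ≤ a * ‖G z‖ := abs_real_inner_le_norm _ _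
      simp only [F']
      rw [norm_mul, Real.norm_eq_abs, Real.norm_eq_abs, ← ha,
        abs_of_nonneg (show 0 ≤ p * a ^ (p - 2) by positivity)]
      have h2 : a ^ (p - 2) * a = a ^ (p - 1) := by
        rcases eq_or_lt_of_le ha0 with h0 | h0
        · rw [← h0, mul_zero, Real.zero_rpow (by linarith)]
        · rw [show p - 1 = (p - 2) + 1 by ring, Real.rpow_add_one h0.ne']
      calc p * a ^ (p - 2) * |⟪W z + t • G z, G z⟫| ≤ p * a ^ (p - 2) * (a * ‖G z‖) :=
            mul_le_mul_of_nonneg_left h1 (by positivity)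
        _ = p * (a ^ (p - 1) * ‖G z‖) := by rw [← h2]; ring
        _ ≤ p * ((‖W z‖ + ‖G z‖) ^ (p - 1) * (‖W z‖ + ‖G z‖)) := by
            refine mul_le_mul_of_nonneg_left ?_ hp0.le
            refine mul_le_mul (Real.rpow_le_rpow ha0 hale (by linarith)) ?_ (norm_nonneg _)
              (by positivity)
            linarith [norm_nonneg (W z)]
        _ = p * (‖W z‖ + ‖G z‖) ^ p := by
            congr 1
            have hb : 0 ≤ ‖W z‖ + ‖G z‖ := by positivity
            rcases eq_or_lt_of_le hb with h0 | h0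
            · rw [← h0, mul_zero, Real.zero_rpow hp0.ne']
            · rw [← Real.rpow_add_one h0.ne']; congr 1; ring)
    hbd (Eventually.of_forall fun z t _ => by
      have h1 : HasDerivAt (fun t : ℝ => W z + t • G z) ((1:ℝ) • G z) t :=
        ((hasDerivAt_id t).smul_const (G z)).const_add (W z)
      rw [one_smul] at h1
      have h2 := (hasFDerivAt_norm_rpow (W z + t • G z) hp1).comp_hasDerivAt t h1
      exact h2.congr_deriv rfl)
  exact ⟨_, key.2⟩

theorem En_toReal (hp0 : 0 < p) {W : Sp n → Sp n} (hW : MemLp W (ENNReal.ofReal p) volume) :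
    En p W = ENNReal.ofReal (∫ z, ‖W z‖ ^ p) := by
  have hP0 : ENNReal.ofReal p ≠ 0 := by simpa using hp0
  have hi : Integrable (fun z => ‖W z‖ ^ p) volume := by
    have := hW.integrable_norm_rpow hP0 ENNReal.ofReal_ne_top
    rwa [ENNReal.toReal_ofReal hp0.le] at this
  rw [ofReal_integral_eq_lintegral_ofReal hi (Eventually.of_forall fun z => by positivity)]
  unfold En
  refine lintegral_congr fun z => ?_
  rw [← ofReal_norm, ENNReal.ofReal_rpow_of_nonneg (norm_nonneg _) hp0.le]

/-- an optimal function has only one peak -/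
theorem unique_peak (hn : 2 ≤ n) (hp : (n : ℝ) < p) {u : Sp n → ℝ} {W : Sp n → Sp n}
    (hu : Fe p u W) (hz : ∀ z, DD e ε s z ≤ 0 → u z = 0) (hlt : lam p e ε s ≠ ∞)
    (hl0 : lam p e ε s ≠ 0)
    (hx : 0 < DD e ε s x) (hy : 0 < DD e ε s y) (hxy : x ≠ y) (hux : u x ≠ 0)
    (hpx : FF p e ε s W x ≤ lam p e ε s * ENNReal.ofReal (|u x| ^ p))
    (hpy : FF p e ε s W y ≤ lam p e ε s * ENNReal.ofReal (|u y| ^ p)) : False := by
  have hn0 : (2:ℝ) ≤ n := by exact_mod_cast hn
  have hp0 : 0 < p := by linarith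
  have hp1 : 1 < p := by linarith
  -- bump function
  obtain ⟨χ, hχ, -, V, hV, hKV, -, hχ1⟩ := exists_cutoff (isCompact_singleton (x := x))
    ((isOpen_Om (e := e) (ε := ε) (s := s)).inter (isOpen_compl_singleton (x := y)))
    (by rintro z rfl; exact ⟨hx, hxy⟩)
  have hχx : χ x = 1 := hχ1 x (hKV rfl)
  have hχy : χ y = 0 := zero_of_notMem fun h' => (hχ.supp h').2 rfl
  set G : Sp n → Sp n := fun z => u x • gradient χ z with hG
  have hχ0 : H0 p volume univ χ (gradient χ) := H0.of_Cc (hχ.mono (subset_univ _))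
  have hGm : MemLp G (ENNReal.ofReal p) volume := hχ0.mU.const_smul (u x)
  have hWt : ∀ t : ℝ, MemLp (fun z => W z + t • G z) (ENNReal.ofReal p) volume := fun t =>
    hu.h0.mU.add (hGm.const_smul t)
  have hut : ∀ t : ℝ, Fe p (fun z => u z + t * (u x * χ z)) (fun z => W z + t • G z) := by
    intro t
    refine ⟨?_, ?_, ?_⟩
    · have := hu.cont
      have := hχ.cont
      fun_prop
    · exact H0.add hp1.le hu.h0 ((hχ0.const_mul (u x)).const_mul t)
    · intro z hz1
      have h1 : χ z = 0 := zero_of_notMem fun h' => by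
        have h2 : 0 < DD e ε s z := (hχ.supp h').1
        have h3 := DD_le1 (e := e) (ε := ε) (s := s) (x := z)
        linarith
      rw [hu.out z hz1, h1]; ring
  have hzt : ∀ t : ℝ, ∀ z, DD e ε s z ≤ 0 → u z + t * (u x * χ z) = 0 := by
    intro t z hz1
    have h1 : χ z = 0 := zero_of_notMem fun h' => by
      have h2 : 0 < DD e ε s z := (hχ.supp h').1
      linarith
    rw [hz z hz1, h1]; ring
  set a : ℝ → ℝ := fun t => ∫ z, ‖W z + t • G z‖ ^ p with ha
  have haE : ∀ t, En p (fun z => W z + t • G z) = ENNReal.ofReal (a t) := fun t =>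
    En_toReal hp0 (hWt t)
  have ha0' : En p W = ENNReal.ofReal (a 0) := by
    have := haE 0
    simpa using this
  have hann : ∀ t, 0 ≤ a t := fun t => integral_nonneg fun z => by positivity
  set lr : ℝ := (lam p e ε s).toReal with hlr
  have hlr' : lam p e ε s = ENNReal.ofReal lr := by rw [hlr, ENNReal.ofReal_toReal hlt]
  have hlr0 : 0 < lr := ENNReal.toReal_pos hl0 hlt
  have hdx : 0 < DD e ε s x ^ (p - n) := by positivity
  have hdy : 0 < DD e ε s y ^ (p - n) := by positivity
  have hux0 : 0 < |u x| ^ p := Real.rpow_pos_of_pos (abs_pos.2 hux) _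
  -- at `x`
  have h1 : ∀ t : ℝ, 0 ≤ t → (1 + t) ^ p * a 0 ≤ a t := by
    intro t ht
    have k1 := lam_mul hp1 (hut t) (hzt t) hx
    unfold FF at k1 hpx
    simp only [hχx, mul_one] at k1
    rw [haE t, hlr', ← ENNReal.ofReal_mul hlr0.le, ← ENNReal.ofReal_mul hdx.le,
      ENNReal.ofReal_le_ofReal_iff (mul_nonneg hdx.le (hann t))] at k1
    rw [ha0', hlr', ← ENNReal.ofReal_mul hlr0.le, ← ENNReal.ofReal_mul hdx.le,
      ENNReal.ofReal_le_ofReal_iff (mul_nonneg hlr0.le hux0.le)] at hpx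
    rw [show u x + t * u x = (1 + t) * u x by ring, abs_mul, abs_of_nonneg (by linarith),
      Real.mul_rpow (by linarith) (abs_nonneg _)] at k1
    have k2 : 0 ≤ (1 + t) ^ p := by positivity
    have k3 : DD e ε s x ^ (p - n) * ((1 + t) ^ p * a 0) ≤ DD e ε s x ^ (p - n) * a t := by
      calc _ = (1 + t) ^ p * (DD e ε s x ^ (p - n) * a 0) := by ring
        _ ≤ (1 + t) ^ p * (lr * |u x| ^ p) := mul_le_mul_of_nonneg_left hpx k2
        _ = lr * ((1 + t) ^ p * |u x| ^ p) := by ring
        _ ≤ _ := k1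
    exact le_of_mul_le_mul_left k3 hdx
  have h2 : ∀ t : ℝ, a 0 ≤ a t := by
    intro t
    have k1 := lam_mul hp1 (hut t) (hzt t) hy
    unfold FF at k1 hpy
    simp only [hχy, mul_zero, add_zero] at k1
    rw [haE t] at k1
    rw [ha0'] at hpy
    have k3 := hpy.trans k1
    rw [← ENNReal.ofReal_mul hdy.le, ← ENNReal.ofReal_mul hdy.le,
      ENNReal.ofReal_le_ofReal_iff (mul_nonneg hdy.le (hann t))] at k3
    exact le_of_mul_le_mul_left k3 hdy
  have ha0pos : 0 < a 0 := by
    have k1 := lam_mul hp1 hu hz hx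
    unfold FF at k1
    rw [ha0', hlr', ← ENNReal.ofReal_mul hlr0.le, ← ENNReal.ofReal_mul hdx.le,
      ENNReal.ofReal_le_ofReal_iff (mul_nonneg hdx.le (hann 0))] at k1
    have k2 : 0 < lr * |u x| ^ p := by positivity
    have k3 : 0 < DD e ε s x ^ (p - n) * a 0 := k2.trans_le k1
    exact (pos_iff_pos_of_mul_pos k3).1 hdx
  obtain ⟨L, hL⟩ := hasDerivAt_energy hp1 hu.h0.mU hGm
  have hL0 : L = 0 := by
    have hmin : IsLocalMin a 0 := Eventually.of_forall fun t => h2 t
    exact hmin.hasDerivAt_eq_zero hL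
  rw [hL0] at hL
  -- but the right derivative is at least `p * a 0`
  have hR : HasDerivAt (fun t : ℝ => a t - (1 + t) ^ p * a 0) (0 - (p * (1 + 0) ^ (p - 1) * a 0)) 0 := by
    have k1 : HasDerivAt (fun t : ℝ => (1 + t) ^ p) (p * (1 + 0) ^ (p - 1)) 0 := by
      have k2 : HasDerivAt (fun t : ℝ => 1 + t) 1 0 := (hasDerivAt_id (0:ℝ)).const_add 1
      have k3 := (Real.hasDerivAt_rpow_const (x := 1 + 0) (p := p) (Or.inr hp1.le)).comp (0:ℝ) k2
      refine k3.congr_deriv ?_
      ring
    exact hL.sub (k1.mul_const (a 0))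
  have hneg : (0 - (p * (1 + 0) ^ (p - 1) * a 0)) < 0 := by
    rw [add_zero, Real.one_rpow]
    have : 0 < p * 1 * a 0 := by positivity
    linarith
  have hslope := hR.tendsto_slope_zero_right
  have hev : ∀ᶠ t in 𝓝[>] (0:ℝ), (0:ℝ) ≤ t⁻¹ • ((a (0 + t) - (1 + (0 + t)) ^ p * a 0) -
      (a 0 - (1 + 0) ^ p * a 0)) := by
    filter_upwards [self_mem_nhdsWithin] with t ht
    have ht' : 0 < t := ht
    rw [add_zero, Real.one_rpow, one_mul, sub_self, sub_zero, zero_add, smul_eq_mul]
    have := h1 t ht'.le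
    have h3 : 0 < t⁻¹ := inv_pos.2 ht'
    exact mul_nonneg h3.le (by linarith)
  exact absurd (ge_of_tendsto hslope hev) (not_le.2 hneg)

end Pool.Agent.H68R3
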