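import Pool.Agent.H68R3.HM6

set_option autoImplicit false

open MeasureTheory Filter Topology Set
open scoped ENNReal NNReal RealInnerProductSpace

/-!
Connectedness of the domain; similarities of the domain fix the norm.
-/

namespace Pool.Agent.H68R3

open Pool.Agent.Helper533.Polar

variable {n : ℕ} {p : ℝ} {e : Sp n} {ε s : ℝ} {x y : Sp n}

/-- points in the outer shell belong to the domain -/
theorem shell_sub (he : ‖e‖ = 1) (hε1 : ε ≤ 1 / 16) (hs0 : 0 ≤ s) (hs1 : s ≤ 1)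
    {z : Sp n} (h1 : 9 / 16 < ‖z‖) (h2 : ‖z‖ < 1) : z ∈ Om e ε s := by
  have hA := rA_le (ε := ε) (s := s) hε1 hs0
  have hB := rB_le (ε := ε) (s := s) hε1 hs1
  have hb : ‖(1 / 2 : ℝ) • e‖ = 1 / 2 := by
    rw [norm_smul, he, Real.norm_eq_abs, abs_of_pos (by norm_num), mul_one]
  have h3 := norm_sub_norm_le z ((1 / 2 : ℝ) • e)
  show 0 < DD e ε s z
  unfold DD
  exact lt_min (by linarith) (lt_min (by linarith) (by linarith))

theorem isPreconnected_shell (hn : 2 ≤ n) :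
    IsPreconnected {z : Sp n | 9 / 16 < ‖z‖ ∧ ‖z‖ < 1} := by
  have hrank : 1 < Module.rank ℝ (Sp n) := by
    rw [← Module.finrank_eq_rank, finrank_euclideanSpace_fin]
    exact_mod_cast hn
  have h1 : IsPreconnected (Ioo (9 / 16 : ℝ) 1 ×ˢ Metric.sphere (0 : Sp n) 1) :=
    isPreconnected_Ioo.prod (isPreconnected_sphere hrank 0 1)
  have h2 := h1.image (fun q : ℝ × Sp n => q.1 • q.2) (by fun_prop)
  convert h2 using 1
  ext z
  constructor
  · rintro ⟨h3, h4⟩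
    have hz : 0 < ‖z‖ := by linarith
    refine ⟨(‖z‖, ‖z‖⁻¹ • z), ⟨⟨h3, h4⟩, ?_⟩, ?_⟩
    · rw [mem_sphere_zero_iff_norm, norm_smul, norm_inv, norm_norm, inv_mul_cancel₀ hz.ne']
    · simp only
      rw [smul_smul, mul_inv_cancel₀ hz.ne', one_smul]
  · rintro ⟨⟨t, w⟩, ⟨h3, h4⟩, rfl⟩
    rw [mem_sphere_zero_iff_norm] at h4
    have h5 : ‖t • w‖ = t := by
      rw [norm_smul, h4, mul_one, Real.norm_eq_abs, abs_of_pos (by linarith [h3.1])]
    simp only [mem_ofPred_eq]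
    rw [h5]
    exact h3

/-- the domain is connected -/
theorem isConnected_Om (hn : 2 ≤ n) (he : ‖e‖ = 1) {f : Sp n} (hf : ‖f‖ = 1) (hfe : ⟪f, e⟫ = 0)
    (hε : 0 < ε) (hε1 : ε ≤ 1 / 16) (hs0 : 0 ≤ s) (hs1 : s ≤ 1) : IsConnected (Om e ε s) := by
  have hA := rA_le (ε := ε) (s := s) hε1 hs0
  have hB := rB_le (ε := ε) (s := s) hε1 hs1
  have hA' := le_rA (ε := ε) (s := s)
  have hB' := le_rB (ε := ε) (s := s)
  set z₀ : Sp n := (3 / 4 : ℝ) • e with hz₀
  have hz₀n : ‖z₀‖ = 3 / 4 := by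
    rw [hz₀, norm_smul, he, Real.norm_eq_abs, abs_of_pos (by norm_num), mul_one]
  have hz₀Om : z₀ ∈ Om e ε s := shell_sub he hε1 hs0 hs1 (by rw [hz₀n]; norm_num)
    (by rw [hz₀n]; norm_num)
  refine ⟨⟨z₀, hz₀Om⟩, isPreconnected_of_forall z₀ fun z hz => ?_⟩
  have hz' : 0 < DD e ε s z := hz
  have d1 := DD_le1 (e := e) (ε := ε) (s := s) (x := z)
  have d2 := DD_leA (e := e) (ε := ε) (s := s) (x := z)
  have d3 := DD_leB (e := e) (ε := ε) (s := s) (x := z)
  -- direction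
  obtain ⟨v, hv, hve, hzv⟩ : ∃ v : Sp n, ‖v‖ = 1 ∧ ⟪e, v⟫ = 0 ∧ 0 ≤ ⟪z, v⟫ := by
    rcases le_total 0 ⟪z, f⟫ with h | h
    · exact ⟨f, hf, by rw [real_inner_comm]; exact hfe, h⟩
    · refine ⟨-f, by rw [norm_neg, hf], ?_, ?_⟩
      · rw [inner_neg_right, real_inner_comm, hfe, neg_zero]
      · rw [inner_neg_right]; linarith
  have hmono : ∀ t : ℝ, 0 ≤ t → ‖z‖ ≤ ‖z + t • v‖ := by
    intro t ht
    refine le_of_sq_le_sq ?_ (norm_nonneg _)
    rw [norm_add_sq_real, inner_smul_right, norm_smul, hv]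
    have := mul_nonneg ht hzv
    have h2 : 0 ≤ (‖t‖ * 1) ^ 2 := by positivity
    linarith
  have hmono' : ∀ t : ℝ, 0 ≤ t → ‖z - (1 / 2 : ℝ) • e‖ ≤ ‖z + t • v - (1 / 2 : ℝ) • e‖ := by
    intro t ht
    refine le_of_sq_le_sq ?_ (norm_nonneg _)
    rw [show z + t • v - (1 / 2 : ℝ) • e = (z - (1 / 2 : ℝ) • e) + t • v by abel,
      norm_add_sq_real, inner_smul_right, norm_smul, hv, inner_sub_left, inner_smul_left, hve]
    have := mul_nonneg ht hzv
    have h2 : 0 ≤ (‖t‖ * 1) ^ 2 := by positivity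
    simp only [conj_trivial, mul_zero, sub_zero]
    linarith
  -- intermediate value
  obtain ⟨t, ht, htn⟩ : ∃ t : ℝ, 0 ≤ t ∧ ‖z + t • v‖ = max ‖z‖ (3 / 4) := by
    have hcont : ContinuousOn (fun t : ℝ => ‖z + t • v‖) (Icc 0 2) := by fun_prop
    have h1 := intermediate_value_Icc (by norm_num : (0:ℝ) ≤ 2) hcont
    have h2 : max ‖z‖ (3 / 4) ∈ Icc ‖z + (0:ℝ) • v‖ ‖z + (2:ℝ) • v‖ := by
      rw [zero_smul, add_zero]
      refine ⟨le_max_left _ _, max_le (hmono 2 (by norm_num)) ?_⟩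
      have h3 := norm_sub_norm_le ((2:ℝ) • v) (-z)
      rw [norm_neg, norm_smul, hv, sub_neg_eq_add, add_comm ((2:ℝ) • v) z, Real.norm_eq_abs,
        abs_of_pos (by norm_num)] at h3
      linarith
    obtain ⟨t, ht, h3⟩ := h1 h2
    exact ⟨t, ht.1, h3⟩
  have hz1 : ‖z‖ < 1 := by linarith
  have hmax : max ‖z‖ (3 / 4) < 1 := max_lt hz1 (by norm_num)
  set T : Set (Sp n) := segment ℝ z (z + t • v) ∪ {z : Sp n | 9 / 16 < ‖z‖ ∧ ‖z‖ < 1} with hT
  have hend : z + t • v ∈ {z : Sp n | 9 / 16 < ‖z‖ ∧ ‖z‖ < 1} := by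
    refine ⟨?_, ?_⟩
    · rw [htn]; exact lt_max_of_lt_right (by norm_num)
    · rw [htn]; exact hmax
  refine ⟨T, ?_, Or.inr ⟨by rw [hz₀n]; norm_num, by rw [hz₀n]; norm_num⟩,
    Or.inl (left_mem_segment ℝ _ _), ?_⟩
  · rintro w (hw | hw)
    · have hwn : ‖w‖ < 1 := by
        have hconv := convex_ball (0 : Sp n) 1
        have := hconv.segment_subset (x := z) (y := z + t • v) (by simpa using hz1)
          (by simpa using hend.2) hw
        simpa using this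
      obtain ⟨a, b, ha, hb, hab, rfl⟩ := hw
      have e1 : a • z + b • (z + t • v) = z + (b * t) • v := by
        rw [smul_add, ← add_assoc, ← add_smul, hab, one_smul, smul_smul]
      rw [e1] at hwn ⊢
      have hbt : 0 ≤ b * t := mul_nonneg hb ht
      show 0 < DD e ε s (z + (b * t) • v)
      unfold DD
      have := hmono _ hbt
      have := hmono' _ hbt
      exact lt_min (by linarith) (lt_min (by linarith) (by linarith))
    · exact shell_sub he hε1 hs0 hs1 hw.1 hw.2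
  · exact IsPreconnected.union (z + t • v) (right_mem_segment ℝ _ _) hend
      (convex_segment _ _).isPreconnected (isPreconnected_shell hn)

theorem bounded_Om : Om e ε s ⊆ Metric.ball 0 1 := by
  intro z hz
  have h1 : 0 < DD e ε s z := hz
  have h2 := DD_le1 (e := e) (ε := ε) (s := s) (x := z)
  rw [Metric.mem_ball, dist_zero_right]
  linarith

theorem sim_aux (he : ‖e‖ = 1) (hε1 : ε ≤ 1 / 16) (hs0 : 0 ≤ s) (hs1 : s ≤ 1) {b : Sp n} {r : ℝ}
    (h : ∀ z ∈ Om e ε s, ‖z - b‖ < r) : 1 + ‖b‖ ≤ r := by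
  obtain ⟨w, hw, hwb⟩ : ∃ w : Sp n, ‖w‖ = 1 ∧ b = -(‖b‖ • w) := by
    by_cases hb : b = 0
    · exact ⟨e, he, by rw [hb]; simp⟩
    · have hb' : 0 < ‖b‖ := norm_pos_iff.2 hb
      refine ⟨-(‖b‖⁻¹ • b), ?_, ?_⟩
      · rw [norm_neg, norm_smul, norm_inv, norm_norm, inv_mul_cancel₀ hb'.ne']
      · rw [smul_neg, neg_neg, smul_smul, mul_inv_cancel₀ hb'.ne', one_smul]
  have key : ∀ t : ℝ, 9 / 16 < t → t < 1 → t + ‖b‖ < r := by
    intro t h1 h2
    have hn : ‖t • w‖ = t := by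
      rw [norm_smul, hw, mul_one, Real.norm_eq_abs, abs_of_pos (by linarith)]
    have h3 := h (t • w) (shell_sub he hε1 hs0 hs1 (by rw [hn]; exact h1) (by rw [hn]; exact h2))
    have h4 : t • w - b = (t + ‖b‖) • w := by
      conv_lhs => rw [hwb]
      rw [sub_neg_eq_add, add_smul]
    rw [h4, norm_smul, hw, mul_one, Real.norm_eq_abs, abs_of_nonneg (by positivity)] at h3
    exact h3
  refine le_of_forall_lt fun c hc => ?_
  rcases le_total (c - ‖b‖) (3 / 4) with h1 | h1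
  · have := key (3 / 4) (by norm_num) (by norm_num)
    linarith
  · have := key (c - ‖b‖) (by linarith) (by linarith)
    linarith

/-- similarities of the domain are linear isometries -/
theorem sim_eq (he : ‖e‖ = 1) (hε1 : ε ≤ 1 / 16) (hs0 : 0 ≤ s) (hs1 : s ≤ 1) {r : ℝ} (hr : 0 < r)
    (Q : Sp n ≃ₗᵢ[ℝ] Sp n) (b : Sp n) (hT : (fun x => r • Q x + b) '' Om e ε s = Om e ε s) :
    r = 1 ∧ b = 0 := by
  have h1 : 1 + ‖b‖ ≤ r := by
    refine sim_aux he hε1 hs0 hs1 fun z hz => ?_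
    rw [← hT] at hz
    obtain ⟨w, hw, rfl⟩ := hz
    have := bounded_Om hw
    rw [Metric.mem_ball, dist_zero_right] at this
    simp only [add_sub_cancel_right]
    rw [norm_smul, Q.norm_map, Real.norm_eq_abs, abs_of_pos hr]
    nlinarith
  have h2 : 1 + ‖-(r⁻¹ • Q.symm b)‖ ≤ r⁻¹ := by
    refine sim_aux he hε1 hs0 hs1 fun z hz => ?_
    have h3 : r • Q z + b ∈ Om e ε s := by
      rw [← hT]; exact ⟨z, hz, rfl⟩
    have h4 := bounded_Om h3
    rw [Metric.mem_ball, dist_zero_right] at h4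
    have h5 : r • Q z + b = r • Q (z - -(r⁻¹ • Q.symm b)) := by
      rw [sub_neg_eq_add, map_add, map_smul, Q.apply_symm_apply, smul_add, smul_smul,
        mul_inv_cancel₀ hr.ne', one_smul]
    rw [h5, norm_smul, Q.norm_map, Real.norm_eq_abs, abs_of_pos hr] at h4
    rw [mul_comm] at h4
    have h7 := (lt_div_iff₀ hr).2 h4
    rwa [one_div] at h7
  have hb := norm_nonneg b
  have h3 : 1 ≤ r⁻¹ := by linarith [norm_nonneg (-(r⁻¹ • Q.symm b))]
  have h4 : r ≤ 1 := (one_le_inv₀ hr).1 h3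
  have h5 : ‖b‖ = 0 := by linarith
  exact ⟨by linarith, norm_eq_zero.1 h5⟩

end Pool.Agent.H68R3
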