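import Pool.Agent.Helper533.NHM.Moll
import Pool.Agent.Helper533.Deny.G
import Pool.Agent.Helper533.Polar.Obst

set_option autoImplicit false

open MeasureTheory Filter Topology Set
open scoped ENNReal NNReal RealInnerProductSpace

/-!
Polarization of Sobolev functions with respect to a hyperplane through the origin.
-/

namespace Pool.Agent.H68R3

open Pool.Agent.Helper533.Polar

variable {n : ℕ} {p : ℝ}

/-- a reflection in the hyperplane orthogonal to `ν` -/
structure IsRefl (σ : Sp n ≃ₗᵢ[ℝ] Sp n) (ν : Sp n) : Prop where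
  invol : ∀ y, σ (σ y) = y
  neg : ∀ y, ⟪σ y, ν⟫ = - ⟪y, ν⟫
  fix : ∀ y, ⟪y, ν⟫ = 0 → σ y = y
  move : ∀ y, y - σ y = (2 * ⟪y, ν⟫) • ν

theorem exists_refl (ν : Sp n) (hν : ‖ν‖ = 1) :
    IsRefl ((ℝ ∙ ν)ᗮ.reflection) ν := by
  have key : ∀ y, (ℝ ∙ ν)ᗮ.reflection y = y - (2 * ⟪y, ν⟫) • ν := by
    intro y
    rw [Submodule.reflection_orthogonal_apply, Submodule.reflection_singleton_apply]
    rw [hν]
    simp only [RCLike.ofReal_one, one_pow, div_one, real_inner_comm]
    rw [two_smul, two_mul, add_smul]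
    abel
  have hνν : ⟪ν, ν⟫ = (1:ℝ) := by rw [real_inner_self_eq_norm_sq, hν]; norm_num
  refine ⟨fun y => Submodule.reflection_reflection _ y, fun y => ?_, fun y hy => ?_, fun y => ?_⟩
  · rw [key, inner_sub_left, inner_smul_left, hνν]
    simp
    ring
  · rw [key, hy]; simp
  · rw [key]; abel

theorem gradient_comp_isom (σ : Sp n ≃ₗᵢ[ℝ] Sp n) {φ : Sp n → ℝ} (hφ : Differentiable ℝ φ)
    (y : Sp n) : gradient (fun z => φ (σ z)) y = σ.symm (gradient φ (σ y)) := by
  refine ext_inner_right ℝ fun v => ?_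
  have h1 : ⟪gradient (fun z => φ (σ z)) y, v⟫ = fderiv ℝ (fun z => φ (σ z)) y v := by
    simp [gradient]
  have h2 : ⟪gradient φ (σ y), σ v⟫ = fderiv ℝ φ (σ y) (σ v) := by simp [gradient]
  have h3 : ⟪σ.symm (gradient φ (σ y)), v⟫ = ⟪gradient φ (σ y), σ v⟫ := by
    rw [← σ.inner_map_map, LinearIsometryEquiv.apply_symm_apply]
  rw [h1, h3, h2]
  have h4 : HasFDerivAt (fun z => φ (σ z))
      ((fderiv ℝ φ (σ y)).comp (σ.toContinuousLinearEquiv : Sp n →L[ℝ] Sp n)) y :=
    (hφ (σ y)).hasFDerivAt.comp y σ.toContinuousLinearEquiv.hasFDerivAt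
  rw [h4.fderiv]
  rfl

theorem Cc_comp_isom (σ : Sp n ≃ₗᵢ[ℝ] Sp n) {φ : Sp n → ℝ} (hφ : Cc univ φ) :
    Cc univ (fun y => φ (σ y)) := by
  refine ⟨hφ.smooth.comp σ.contDiff, ?_, subset_univ _⟩
  exact hφ.comp.comp_homeomorph σ.toHomeomorph

theorem H0_comp_isom (σ : Sp n ≃ₗᵢ[ℝ] Sp n) {u : Sp n → ℝ} {U : Sp n → Sp n}
    (h : H0 p volume univ u U) :
    H0 p volume univ (fun y => u (σ y)) (fun y => σ.symm (U (σ y))) := by
  have hm := σ.measurePreserving
  have hmU : MemLp (fun y => σ.symm (U (σ y))) (ENNReal.ofReal p) volume := by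
    have h1 : MemLp (fun y => U (σ y)) (ENNReal.ofReal p) volume :=
      h.mU.comp_measurePreserving hm
    exact h1.continuousLinearMap_comp (σ.symm.toContinuousLinearEquiv : Sp n →L[ℝ] Sp n)
  refine ⟨h.mu.comp_measurePreserving hm, hmU, fun ε hε => ?_⟩
  obtain ⟨φ, h1, h2, h3⟩ := h.app ε hε
  refine ⟨fun y => φ (σ y), Cc_comp_isom σ h1, ?_, ?_⟩
  · have := eLpNorm_comp_measurePreserving (p := ENNReal.ofReal p)
      (h.mu.sub (h1.memLp _)).1 hm
    simp only [Function.comp_def, Pi.sub_apply] at this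
    rw [this]
    exact h2
  · have e : ∀ y, ‖σ.symm (U (σ y)) - gradient (fun z => φ (σ z)) y‖ =
        ‖(fun x => U x - gradient φ x) (σ y)‖ := by
      intro y
      rw [gradient_comp_isom σ (h1.smooth.differentiable (by simp)), ← map_sub, σ.symm.norm_map]
    rw [eLpNorm_congr_norm_ae (Eventually.of_forall e)]
    have := eLpNorm_comp_measurePreserving (p := ENNReal.ofReal p)
      (h.mU.sub (h1.memLp_grad _)).1 hm
    simp only [Function.comp_def, Pi.sub_apply] at this
    rw [this]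
    exact h3

/-- absolute value -/
theorem H0_abs (hp : 1 < p) {u : Sp n → ℝ} {U : Sp n → Sp n} (h : H0 p volume univ u U) :
    H0 p volume univ (fun y => |u y|) (fun y => (SignType.sign (u y) : ℝ) • U y) := by
  have h1 := H0.pos hp h le_rfl
  have h2 := H0.pos hp (H0.neg h) le_rfl
  have h3 := H0.add hp.le h1 h2
  refine h3.congr ?_ ?_
  · filter_upwards with y
    simp only [sub_zero]
    rcases le_total (u y) 0 with h | h
    · rw [max_eq_right h, max_eq_left (by linarith), abs_of_nonpos h]; ring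
    · rw [max_eq_left h, max_eq_right (by linarith), abs_of_nonneg h]; ring
  · filter_upwards with y
    rcases lt_trichotomy (u y) 0 with h | h | h
    · rw [if_neg (by linarith), if_pos (by linarith), sign_neg h]
      simp
    · rw [h]; simp
    · rw [if_pos h, if_neg (by linarith), sign_pos h]
      simp

end Pool.Agent.H68R3
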