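import Pool.Agent.H68R3.Pol1

set_option autoImplicit false

open MeasureTheory Filter Topology Set
open scoped ENNReal NNReal RealInnerProductSpace

namespace Pool.Agent.H68R3

open Pool.Agent.Helper533.Polar

variable {n : ℕ} {p : ℝ}

/-- the sign of the side -/
noncomputable def sg (ν y : Sp n) : ℝ := if 0 ≤ ⟪y, ν⟫ then 1 else -1

theorem sg_meas (ν : Sp n) : Measurable (sg ν) := by
  unfold sg
  refine Measurable.ite ?_ measurable_const measurable_const
  exact measurableSet_le measurable_const (by fun_prop)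

theorem abs_sg (ν y : Sp n) : |sg ν y| = 1 := by
  unfold sg; split_ifs <;> simp

/-- multiplication by the sign of the side, truncated version -/
theorem H0_sign_trunc (hp : 1 < p) {ν : Sp n} {v : Sp n → ℝ} {V : Sp n → Sp n}
    (h : H0 p volume univ v V) (hc : Continuous v) (hK : HasCompactSupport v)
    (hv : ∀ y, ⟪y, ν⟫ = 0 → v y = 0) {δ : ℝ} (hδ : 0 < δ) :
    H0 p volume univ (fun y => sg ν y * max (v y - δ) 0)
      (fun y => (sg ν y * (if δ < v y then (1:ℝ) else 0)) • V y) := by
  -- the compact set where `v ≥ δ`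
  set K : Set (Sp n) := {y | δ ≤ v y} with hKdef
  have hKc : IsCompact K := by
    refine IsCompact.of_isClosed_subset hK (isClosed_le continuous_const hc) ?_
    intro y hy
    apply subset_tsupport
    simp only [K, mem_ofPred_eq] at hy
    rw [Function.mem_support]
    intro h0
    rw [h0] at hy; linarith
  -- a gap
  obtain ⟨κ, hκ, hκK⟩ : ∃ κ : ℝ, 0 < κ ∧ ∀ y ∈ K, κ < |⟪y, ν⟫| := by
    rcases K.eq_empty_or_nonempty with h0 | h0
    · exact ⟨1, one_pos, fun y hy => by rw [h0] at hy; exact absurd hy (notMem_empty _)⟩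
    · obtain ⟨y0, hy0, hmin⟩ := hKc.exists_isMinOn h0
        (f := fun y : Sp n => |⟪y, ν⟫|) (by fun_prop)
      have h1 : 0 < |⟪y0, ν⟫| := by
        rw [abs_pos]
        intro h2
        have := hv y0 h2
        simp only [K, mem_ofPred_eq] at hy0
        rw [this] at hy0; linarith
      refine ⟨|⟪y0, ν⟫| / 2, by linarith, fun y hy => ?_⟩
      have := hmin hy
      simp only [mem_ofPred_eq] at this
      linarith
  obtain ⟨η, hη, -, W, hW, hKW, -, hη1⟩ := exists_cutoff hKc isOpen_univ (subset_univ _)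
  -- smooth sign
  set χ : Sp n → ℝ := fun y => 2 * Real.smoothTransition ((⟪y, ν⟫ / κ + 1) / 2) - 1 with hχdef
  have hχ : ContDiff ℝ (⊤ : ℕ∞) χ := by
    have h0 : ContDiff ℝ (⊤ : ℕ∞) (fun y : Sp n => ⟪y, ν⟫) := contDiff_id.inner ℝ contDiff_const
    have h1 : ContDiff ℝ (⊤ : ℕ∞) (fun y : Sp n => (⟪y, ν⟫ / κ + 1) / 2) :=
      ((h0.div_const κ).add contDiff_const).div_const 2
    exact (contDiff_const.mul (Real.smoothTransition.contDiff.comp h1)).sub contDiff_const
  have hχs : ∀ y, κ ≤ |⟪y, ν⟫| → χ y = sg ν y := by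
    intro y hy
    simp only [χ, sg]
    by_cases h0 : 0 ≤ ⟪y, ν⟫
    · rw [abs_of_nonneg h0] at hy
      rw [if_pos h0, Real.smoothTransition.one_of_one_le]
      · norm_num
      · have : 1 ≤ ⟪y, ν⟫ / κ := by rwa [le_div_iff₀ hκ, one_mul]
        linarith
    · push Not at h0
      rw [abs_of_neg h0] at hy
      rw [if_neg (not_le.2 h0), Real.smoothTransition.zero_of_nonpos]
      · norm_num
      · have : ⟪y, ν⟫ / κ ≤ -1 := by rw [div_le_iff₀ hκ]; linarith
        linarith
  have hηχ : Cc univ (fun y => η y * χ y) := hη.mul_smooth hχ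
  have h1 := H0.mul_Cc hp (H0.pos hp h hδ.le) hηχ
  rw [univ_inter] at h1
  refine h1.congr ?_ ?_
  · filter_upwards with y
    by_cases hy : y ∈ K
    · rw [hη1 y (hKW hy), hχs y (hκK y hy).le, one_mul]
    · simp only [K, mem_ofPred_eq, not_le] at hy
      rw [max_eq_right (by linarith)]; simp
  · filter_upwards with y
    by_cases hy : y ∈ K
    · rw [hη1 y (hKW hy), hχs y (hκK y hy).le, one_mul]
      -- the gradient of the cut-off vanishes
      have hopen : IsOpen (W ∩ {z | κ < |⟪z, ν⟫|} ∩ {z | 0 < ⟪z, ν⟫ * sg ν y}) := by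
        refine (hW.inter (isOpen_lt continuous_const (by fun_prop))).inter
          (isOpen_lt continuous_const (by fun_prop))
      have hmem : y ∈ (W ∩ {z | κ < |⟪z, ν⟫|} ∩ {z | 0 < ⟪z, ν⟫ * sg ν y}) := by
        refine ⟨⟨hKW hy, hκK y hy⟩, ?_⟩
        have h2 := hκK y hy
        simp only [mem_ofPred_eq, sg]
        split_ifs with h3
        · rw [abs_of_nonneg h3] at h2; linarith
        · push Not at h3
          linarith
      have hz := grad_zero_of_const_on (φ := fun y => η y * χ y) hopen (c := sg ν y) (by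
        rintro z ⟨⟨h3, h4⟩, h5⟩
        simp only [mem_ofPred_eq] at h4 h5
        rw [hη1 z h3, hχs z h4.le, one_mul]
        unfold sg at h5 ⊢
        by_cases hz0 : 0 ≤ ⟪z, ν⟫
        · rw [if_pos hz0]
          by_cases hy0 : 0 ≤ ⟪y, ν⟫
          · rw [if_pos hy0]
          · rw [if_neg hy0] at h5; nlinarith
        · rw [if_neg hz0]
          by_cases hy0 : 0 ≤ ⟪y, ν⟫
          · rw [if_pos hy0] at h5; nlinarith
          · rw [if_neg hy0]) hmem
      rw [hz, smul_zero, add_zero, smul_smul]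
    · simp only [K, mem_ofPred_eq, not_le] at hy
      rw [max_eq_right (by linarith), if_neg (by linarith)]
      simp

/-- multiplication by the sign of the side -/
theorem H0_sign (hp : 1 < p) {ν : Sp n} {v : Sp n → ℝ} {V : Sp n → Sp n}
    (h : H0 p volume univ v V) (hc : Continuous v) (hK : HasCompactSupport v)
    (hv : ∀ y, ⟪y, ν⟫ = 0 → v y = 0) (hv0 : ∀ y, 0 ≤ v y) :
    H0 p volume univ (fun y => sg ν y * v y)
      (fun y => (sg ν y * (if 0 < v y then (1:ℝ) else 0)) • V y) := by
  have hP1 : (1 : ℝ≥0∞) ≤ ENNReal.ofReal p := by simpa using ENNReal.ofReal_le_ofReal hp.le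
  have hP0 : ENNReal.ofReal p ≠ 0 := (zero_lt_one.trans_le hP1).ne'
  have hPt : ENNReal.ofReal p ≠ ∞ := ENNReal.ofReal_ne_top
  have hsm := sg_meas ν
  have hind : ∀ δ : ℝ, Measurable (fun y => if δ < v y then (1:ℝ) else 0) := fun δ =>
    Measurable.ite (measurableSet_lt measurable_const hc.measurable) measurable_const
      measurable_const
  have hm1 : AEStronglyMeasurable (fun y => sg ν y * v y) volume :=
    (hsm.mul hc.measurable).aestronglyMeasurable
  have hm2 : ∀ δ : ℝ, AEStronglyMeasurable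
      (fun y => (sg ν y * (if δ < v y then (1:ℝ) else 0)) • V y) volume := fun δ =>
    (hsm.mul (hind δ)).aestronglyMeasurable.smul h.mU.1
  have hM1 : MemLp (fun y => sg ν y * v y) (ENNReal.ofReal p) volume := by
    refine h.mu.of_le hm1 (Eventually.of_forall fun y => ?_)
    rw [norm_mul, Real.norm_eq_abs (sg ν y), abs_sg, one_mul]
  have hM2 : MemLp (fun y => (sg ν y * (if 0 < v y then (1:ℝ) else 0)) • V y)
      (ENNReal.ofReal p) volume := by
    refine h.mU.of_le (hm2 0) (Eventually.of_forall fun y => ?_)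
    rw [norm_smul, norm_mul, Real.norm_eq_abs (sg ν y), abs_sg, one_mul]
    split_ifs <;> simp
  let δ : ℕ → ℝ := fun j => 1 / ((j:ℝ) + 1)
  have hδ : ∀ j, 0 < δ j := fun j => by positivity
  have hδ0 : Tendsto δ atTop (𝓝 0) := tendsto_one_div_add_atTop_nhds_zero_nat
  have t1 : Tendsto (fun j => eLpNorm (fun y => sg ν y * v y - sg ν y * max (v y - δ j) 0)
      (ENNReal.ofReal p) volume) atTop (𝓝 0) := by
    refine Lp_dct hP0 hPt (g := fun y => ‖v y‖) h.mu.norm ?_ ?_ ?_
    · intro j
      exact hm1.sub (hsm.mul (by fun_prop)).aestronglyMeasurable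
    · intro j
      filter_upwards with y
      rw [← mul_sub, norm_mul, Real.norm_eq_abs (sg ν y), abs_sg, one_mul, Real.norm_eq_abs,
        Real.norm_eq_abs, abs_of_nonneg (hv0 y)]
      have := hδ j
      rcases le_total (v y) (δ j) with h1 | h1
      · rw [max_eq_right (by linarith), sub_zero, abs_of_nonneg (hv0 y)]
      · rw [max_eq_left (by linarith), abs_of_nonneg (by linarith)]; linarith
    · filter_upwards with y
      have h1 : Tendsto (fun j => sg ν y * v y - sg ν y * max (v y - δ j) 0) atTop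
          (𝓝 (sg ν y * v y - sg ν y * max (v y - 0) 0)) :=
        tendsto_const_nhds.sub (((tendsto_const_nhds.sub hδ0).max tendsto_const_nhds).const_mul _)
      rw [sub_zero, max_eq_left (hv0 y), sub_self] at h1
      exact h1
  have t2 : Tendsto (fun j => eLpNorm (fun y => (sg ν y * (if 0 < v y then (1:ℝ) else 0)) • V y -
      (sg ν y * (if δ j < v y then (1:ℝ) else 0)) • V y)
      (ENNReal.ofReal p) volume) atTop (𝓝 0) := by
    refine Lp_dct hP0 hPt (g := fun y => ‖V y‖) h.mU.norm ?_ ?_ ?_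
    · intro j
      exact (hm2 0).sub (hm2 (δ j))
    · intro j
      filter_upwards with y
      rw [← sub_smul, ← mul_sub, norm_smul, norm_mul, Real.norm_eq_abs (sg ν y), abs_sg, one_mul]
      have := hδ j
      refine mul_le_of_le_one_left (norm_nonneg _) ?_
      split_ifs <;> simp
    · filter_upwards with y
      by_cases hy : 0 < v y
      · refine tendsto_const_nhds.congr' ?_
        filter_upwards [hδ0.eventually (gt_mem_nhds hy)] with j hj
        rw [if_pos hy, if_pos hj, sub_self]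
      · have h0 : v y = 0 := le_antisymm (not_lt.1 hy) (hv0 y)
        refine tendsto_const_nhds.congr' ?_
        filter_upwards with j
        rw [if_neg hy, if_neg (by rw [h0]; exact (hδ j).le.not_gt), sub_self]
  refine H0.lim hp.le hM1 hM2 fun ε hε => ?_
  obtain ⟨j, hj1, hj2⟩ := exists_le_of_tendsto t1 t2 hε
  exact ⟨_, _, H0_sign_trunc hp h hc hK hv (hδ j), hj1, hj2⟩

/-- polarization -/
noncomputable def pol (σ : Sp n ≃ₗᵢ[ℝ] Sp n) (ν : Sp n) (w : Sp n → ℝ) (y : Sp n) : ℝ :=
  if 0 ≤ ⟪y, ν⟫ then max (w y) (w (σ y)) else min (w y) (w (σ y))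

theorem pol_eq (σ : Sp n ≃ₗᵢ[ℝ] Sp n) (ν : Sp n) (w : Sp n → ℝ) (y : Sp n) :
    pol σ ν w y = (w y + w (σ y)) / 2 + sg ν y * |(w y - w (σ y)) / 2| := by
  unfold pol sg
  rcases le_total (w y) (w (σ y)) with h | h
  · rw [max_eq_right h, min_eq_left h, abs_of_nonpos (by linarith)]
    split_ifs <;> ring
  · rw [max_eq_left h, min_eq_right h, abs_of_nonneg (by linarith)]
    split_ifs <;> ring

/-- gradient of the polarization -/
noncomputable def polG (σ : Sp n ≃ₗᵢ[ℝ] Sp n) (ν : Sp n) (w : Sp n → ℝ) (W : Sp n → Sp n)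
    (y : Sp n) : Sp n :=
  (1 / 2 : ℝ) • (W y + σ (W (σ y))) +
    (sg ν y * (if 0 < |(w y - w (σ y)) / 2| then (1:ℝ) else 0)) •
      ((SignType.sign ((w y - w (σ y)) / 2) : ℝ) • ((1 / 2 : ℝ) • (W y - σ (W (σ y)))))

theorem H0_pol (hp : 1 < p) {σ : Sp n ≃ₗᵢ[ℝ] Sp n} {ν : Sp n} (hσ : IsRefl σ ν) {w : Sp n → ℝ}
    {W : Sp n → Sp n} (h : H0 p volume univ w W) (hc : Continuous w) (hK : HasCompactSupport w) :
    H0 p volume univ (pol σ ν w) (polG σ ν w W) := by
  have hsymm : ∀ y, σ.symm y = σ y := fun y => by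
    rw [LinearIsometryEquiv.symm_apply_eq, hσ.invol]
  have h1 := H0_comp_isom σ h
  simp only [hsymm] at h1
  have hA := H0.const_mul (1 / 2 : ℝ) (H0.add hp.le h h1)
  have hB := H0.const_mul (1 / 2 : ℝ) (H0.sub hp.le h h1)
  have hB' : H0 p volume univ (fun y => |(w y - w (σ y)) / 2|)
      (fun y => (SignType.sign ((w y - w (σ y)) / 2) : ℝ) • ((1 / 2 : ℝ) • (W y - σ (W (σ y))))) := by
    refine (H0_abs hp hB).congr ?_ ?_
    · filter_upwards with y
      congr 1; ring
    · filter_upwards with y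
      rw [show (1 / 2 : ℝ) * (w y - w (σ y)) = (w y - w (σ y)) / 2 by ring]
  have hc' : Continuous (fun y => |(w y - w (σ y)) / 2|) := by
    have := σ.continuous
    fun_prop
  have hK' : HasCompactSupport (fun y => |(w y - w (σ y)) / 2|) := by
    have h2 : HasCompactSupport (fun y => w (σ y)) := hK.comp_homeomorph σ.toHomeomorph
    have h3 : HasCompactSupport (fun y => w y - w (σ y)) := hK.sub h2
    exact h3.comp_left (g := fun t : ℝ => |t / 2|) (by simp)
  have h4 := H0_sign hp (ν := ν) hB' hc' hK' (fun y hy => by rw [hσ.fix y hy]; simp)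
    (fun y => abs_nonneg _)
  refine (H0.add hp.le hA h4).congr ?_ ?_
  · filter_upwards with y
    rw [pol_eq]; ring
  · filter_upwards with y
    rfl

end Pool.Agent.H68R3
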