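import Pool.Agent.H68R3.Pol2

set_option autoImplicit false

open MeasureTheory Filter Topology Set
open scoped ENNReal NNReal RealInnerProductSpace

namespace Pool.Agent.H68R3

open Pool.Agent.Helper533.Polar

variable {n : ℕ} {p : ℝ}

theorem half_convex (hp : 1 ≤ p) (a b : Sp n) :
    ‖(1 / 2 : ℝ) • (a + b)‖ ^ p ≤ (‖a‖ ^ p + ‖b‖ ^ p) / 2 := by
  have h1 : ‖(1 / 2 : ℝ) • (a + b)‖ ≤ (1 / 2 : ℝ) * ‖a‖ + (1 / 2 : ℝ) * ‖b‖ := by
    rw [norm_smul]
    have := norm_add_le a b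
    norm_num
    linarith
  have h2 := (convexOn_rpow hp).2 (norm_nonneg a) (norm_nonneg b)
    (show (0:ℝ) ≤ 1 / 2 by norm_num) (show (0:ℝ) ≤ 1 / 2 by norm_num) (by norm_num)
  simp only [smul_eq_mul] at h2
  refine (Real.rpow_le_rpow (norm_nonneg _) h1 (by linarith)).trans (h2.trans (le_of_eq ?_))
  ring

theorem polG_pointwise (hp : 1 ≤ p) {σ : Sp n ≃ₗᵢ[ℝ] Sp n} {ν : Sp n} (hσ : IsRefl σ ν)
    (w : Sp n → ℝ) (W : Sp n → Sp n) (y : Sp n) :
    ‖polG σ ν w W y‖ ^ p + ‖polG σ ν w W (σ y)‖ ^ p ≤ ‖W y‖ ^ p + ‖W (σ y)‖ ^ p := by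
  have hn : ∀ z, ‖σ z‖ = ‖z‖ := σ.norm_map
  by_cases hb : w y - w (σ y) = 0
  · have hb' : w (σ y) - w (σ (σ y)) = 0 := by rw [hσ.invol]; linarith
    have e1 : polG σ ν w W y = (1 / 2 : ℝ) • (W y + σ (W (σ y))) := by
      unfold polG; rw [hb]; simp
    have e2 : polG σ ν w W (σ y) = (1 / 2 : ℝ) • (W (σ y) + σ (W y)) := by
      unfold polG; rw [hb', hσ.invol]; simp
    rw [e1, e2]
    have h1 := half_convex hp (W y) (σ (W (σ y)))
    have h2 := half_convex hp (W (σ y)) (σ (W y))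
    rw [hn] at h1 h2
    linarith
  · have hy0 : ⟪y, ν⟫ ≠ 0 := fun h0 => hb (by rw [hσ.fix y h0, sub_self])
    have hsg : sg ν (σ y) = - sg ν y := by
      unfold sg
      rw [hσ.neg]
      rcases lt_or_gt_of_ne hy0 with h | h
      · rw [if_pos (by linarith), if_neg (by linarith)]; norm_num
      · rw [if_neg (by linarith), if_pos (by linarith)]
    have hpos : 0 < |(w y - w (σ y)) / 2| := abs_pos.2 (div_ne_zero hb two_ne_zero)
    have hpos' : 0 < |(w (σ y) - w (σ (σ y))) / 2| := by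
      rw [hσ.invol, abs_pos]
      exact div_ne_zero (fun h => hb (by linarith)) two_ne_zero
    have hsgn : (SignType.sign ((w (σ y) - w (σ (σ y))) / 2) : ℝ) =
        - (SignType.sign ((w y - w (σ y)) / 2) : ℝ) := by
      rw [hσ.invol, show (w (σ y) - w y) / 2 = - ((w y - w (σ y)) / 2) by ring,
        Left.sign_neg]
      simp
    obtain ⟨t, ht, htt⟩ : ∃ t : ℝ, sg ν y * (SignType.sign ((w y - w (σ y)) / 2) : ℝ) = t ∧
        (t = 1 ∨ t = -1) := by
      refine ⟨_, rfl, ?_⟩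
      have h1 : sg ν y = 1 ∨ sg ν y = -1 := by unfold sg; split_ifs <;> simp
      have h2 : (SignType.sign ((w y - w (σ y)) / 2) : ℝ) = 1 ∨
          (SignType.sign ((w y - w (σ y)) / 2) : ℝ) = -1 := by
        rcases lt_or_gt_of_ne (show (w y - w (σ y)) / 2 ≠ 0 from div_ne_zero hb two_ne_zero)
          with h | h
        · right; rw [sign_neg h]; simp
        · left; rw [sign_pos h]; simp
      rcases h1 with h1 | h1 <;> rcases h2 with h2 | h2 <;> rw [h1, h2] <;> norm_num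
    have e1 : polG σ ν w W y = (1 / 2 : ℝ) • (W y + σ (W (σ y))) +
        t • ((1 / 2 : ℝ) • (W y - σ (W (σ y)))) := by
      unfold polG
      rw [if_pos hpos, mul_one, smul_smul (sg ν y), ht]
    have e2 : polG σ ν w W (σ y) = (1 / 2 : ℝ) • (W (σ y) + σ (W y)) +
        t • ((1 / 2 : ℝ) • (W (σ y) - σ (W y))) := by
      unfold polG
      rw [if_pos hpos', mul_one, smul_smul (sg ν (σ y)), hsg, hsgn, neg_mul_neg, ht, hσ.invol]
    rcases htt with h1 | h1
    · rw [h1] at e1 e2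
      have e3 : polG σ ν w W y = W y := by rw [e1]; module
      have e4 : polG σ ν w W (σ y) = W (σ y) := by rw [e2]; module
      rw [e3, e4]
    · rw [h1] at e1 e2
      have e3 : polG σ ν w W y = σ (W (σ y)) := by rw [e1]; module
      have e4 : polG σ ν w W (σ y) = σ (W y) := by rw [e2]; module
      rw [e3, e4, hn, hn, add_comm]

theorem polG_energy (hp : 1 < p) {σ : Sp n ≃ₗᵢ[ℝ] Sp n} {ν : Sp n} (hσ : IsRefl σ ν)
    (w : Sp n → ℝ) {W : Sp n → Sp n} (hW : AEStronglyMeasurable W volume)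
    (hG : AEStronglyMeasurable (polG σ ν w W) volume) :
    eLpNorm (polG σ ν w W) (ENNReal.ofReal p) volume ≤ eLpNorm W (ENNReal.ofReal p) volume := by
  have hP1 : (1 : ℝ≥0∞) ≤ ENNReal.ofReal p := by simpa using ENNReal.ofReal_le_ofReal hp.le
  have hP0 : ENNReal.ofReal p ≠ 0 := (zero_lt_one.trans_le hP1).ne'
  have hPt : ENNReal.ofReal p ≠ ∞ := ENNReal.ofReal_ne_top
  have hp0 : 0 < p := by linarith
  have hpt : (ENNReal.ofReal p).toReal = p := ENNReal.toReal_ofReal hp0.le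
  rw [eLpNorm_eq_lintegral_rpow_enorm_toReal hP0 hPt, eLpNorm_eq_lintegral_rpow_enorm_toReal hP0 hPt,
    hpt]
  refine ENNReal.rpow_le_rpow ?_ (by positivity)
  have hm := σ.measurePreserving
  have he : MeasurableEmbedding σ := σ.toHomeomorph.measurableEmbedding
  have inv : ∀ f : Sp n → ℝ≥0∞, ∫⁻ y, f (σ y) = ∫⁻ y, f y := fun f =>
    hm.lintegral_comp_emb he f
  have hpw : ∀ y, ‖polG σ ν w W y‖ₑ ^ p + ‖polG σ ν w W (σ y)‖ₑ ^ p ≤
      ‖W y‖ₑ ^ p + ‖W (σ y)‖ₑ ^ p := by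
    intro y
    have h := polG_pointwise hp.le hσ w W y
    have e : ∀ z : Sp n, ‖z‖ₑ ^ p = ENNReal.ofReal (‖z‖ ^ p) := fun z => by
      rw [← ofReal_norm, ENNReal.ofReal_rpow_of_nonneg (norm_nonneg _) hp0.le]
    rw [e, e, e, e, ← ENNReal.ofReal_add (by positivity) (by positivity),
      ← ENNReal.ofReal_add (by positivity) (by positivity)]
    exact ENNReal.ofReal_le_ofReal h
  have h2 : ∫⁻ y, (‖polG σ ν w W y‖ₑ ^ p + ‖polG σ ν w W (σ y)‖ₑ ^ p) ≤
      ∫⁻ y, (‖W y‖ₑ ^ p + ‖W (σ y)‖ₑ ^ p) := lintegral_mono hpw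
  rw [lintegral_add_left' (hG.enorm.pow_const p), lintegral_add_left' (hW.enorm.pow_const p),
    inv (fun y => ‖polG σ ν w W y‖ₑ ^ p), inv (fun y => ‖W y‖ₑ ^ p), ← two_mul, ← two_mul] at h2
  exact (ENNReal.mul_le_mul_iff_right two_ne_zero (by simp)).1 h2

end Pool.Agent.H68R3
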