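import Pool.Agent.H68R3.Pol3

set_option autoImplicit false

open MeasureTheory Filter Topology Set
open scoped ENNReal NNReal RealInnerProductSpace

namespace Pool.Agent.H68R3

open Pool.Agent.Helper533.Polar

variable {n : ℕ} {p : ℝ}

/-- the class of competitors, closed under polarization and compact -/
structure Cls (p : ℝ) (C : ℝ≥0∞) (δ : ℝ → ℝ) (R B d a : ℝ) (w : Sp n → ℝ) : Prop where
  sob : ∃ W, H0 p volume univ w W ∧ eLpNorm W (ENNReal.ofReal p) volume ≤ C
  mod : ∀ ε > 0, ∀ y z, dist y z < δ ε → |w y - w z| ≤ ε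
  nn : ∀ y, 0 ≤ w y
  le : ∀ y, w y ≤ B
  zero : w 0 = a
  out : ∀ y, R ≤ ‖y‖ → w y = 0
  vanish : ∀ r, d ≤ r → ∃ y, ‖y‖ = r ∧ w y = 0

variable {C : ℝ≥0∞} {δ : ℝ → ℝ} {R B d a : ℝ} {w : Sp n → ℝ}

theorem Cls.continuous (hδ : ∀ ε > 0, 0 < δ ε) (h : Cls p C δ R B d a w) : Continuous w := by
  rw [Metric.continuous_iff]
  intro y ε hε
  refine ⟨δ (ε / 2), hδ _ (by linarith), fun z hz => ?_⟩
  rw [Real.dist_eq]
  have := h.mod (ε / 2) (by linarith) z y hz
  linarith

theorem Cls.compact (h : Cls p C δ R B d a w) : HasCompactSupport w := by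
  refine HasCompactSupport.intro (isCompact_closedBall (0 : Sp n) R) fun y hy => h.out y ?_
  simp only [Metric.mem_closedBall, dist_zero_right, not_le] at hy
  exact hy.le

theorem dist_refl_le {σ : Sp n ≃ₗᵢ[ℝ] Sp n} {ν : Sp n} (hσ : IsRefl σ ν) (hν : ‖ν‖ = 1) {y z : Sp n}
    (hyz : ⟪y, ν⟫ * ⟪z, ν⟫ ≤ 0) : dist y (σ z) ≤ dist y z := by
  rw [dist_eq_norm, dist_eq_norm]
  refine le_of_sq_le_sq ?_ (norm_nonneg _)
  have e : y - σ z = (y - z) + (2 * ⟪z, ν⟫) • ν := by rw [← hσ.move]; abel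
  rw [e, norm_add_sq_real, norm_smul, inner_smul_right, hν, inner_sub_left, mul_one,
    Real.norm_eq_abs, sq_abs]
  nlinarith

theorem abs_max_sub_max_le' {a b c d ε : ℝ} (h1 : |a - c| ≤ ε) (h2 : |b - d| ≤ ε) :
    |max a b - max c d| ≤ ε := by
  rw [abs_le] at *
  constructor
  · rcases le_total c d with h | h
    · rw [max_eq_right h]; have := le_max_right a b; linarith
    · rw [max_eq_left h]; have := le_max_left a b; linarith
  · rcases le_total a b with h | h
    · rw [max_eq_right h]; have := le_max_right c d; linarith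
    · rw [max_eq_left h]; have := le_max_left c d; linarith

theorem abs_min_sub_min_le' {a b c d ε : ℝ} (h1 : |a - c| ≤ ε) (h2 : |b - d| ≤ ε) :
    |min a b - min c d| ≤ ε := by
  rw [abs_le] at *
  constructor
  · rcases le_total a b with h | h
    · rw [min_eq_left h]; have := min_le_left c d; linarith
    · rw [min_eq_right h]; have := min_le_right c d; linarith
  · rcases le_total c d with h | h
    · rw [min_eq_left h]; have := min_le_left a b; linarith
    · rw [min_eq_right h]; have := min_le_right a b; linarith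

theorem abs_max_sub_min_le' {a b c d ε : ℝ} (h1 : |a - c| ≤ ε) (h2 : |b - d| ≤ ε)
    (h3 : |a - d| ≤ ε) (h4 : |b - c| ≤ ε) : |max a b - min c d| ≤ ε := by
  rcases max_choice a b with h | h <;> rcases min_choice c d with h' | h' <;> rw [h, h'] <;>
    assumption

theorem pol_mod {σ : Sp n ≃ₗᵢ[ℝ] Sp n} {ν : Sp n} (hσ : IsRefl σ ν) (hν : ‖ν‖ = 1) {ε t : ℝ}
    (hw : ∀ y z, dist y z < t → |w y - w z| ≤ ε) {y z : Sp n} (hyz : dist y z < t) :
    |pol σ ν w y - pol σ ν w z| ≤ ε := by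
  have h1 := hw y z hyz
  have h2 : |w (σ y) - w (σ z)| ≤ ε := hw _ _ (by rwa [σ.dist_map])
  have cross : ∀ x x' : Sp n, dist x x' < t → ⟪x, ν⟫ * ⟪x', ν⟫ ≤ 0 →
      |w x - w (σ x')| ≤ ε := fun x x' hx hx' =>
    hw _ _ ((dist_refl_le hσ hν hx').trans_lt hx)
  unfold pol
  by_cases hy : 0 ≤ ⟪y, ν⟫
  · by_cases hz : 0 ≤ ⟪z, ν⟫
    · rw [if_pos hy, if_pos hz]; exact abs_max_sub_max_le' h1 h2
    · rw [if_pos hy, if_neg hz]
      push Not at hz
      refine abs_max_sub_min_le' h1 h2 (cross y z hyz (mul_nonpos_of_nonneg_of_nonpos hy hz.le)) ?_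
      have := cross z y (by rwa [dist_comm]) (mul_nonpos_of_nonpos_of_nonneg hz.le hy)
      rwa [abs_sub_comm] at this
  · by_cases hz : 0 ≤ ⟪z, ν⟫
    · rw [if_neg hy, if_pos hz, abs_sub_comm]
      push Not at hy
      rw [abs_sub_comm] at h1 h2
      refine abs_max_sub_min_le' h1 h2 (cross z y (by rwa [dist_comm])
        (mul_nonpos_of_nonneg_of_nonpos hz hy.le)) ?_
      have := cross y z hyz (mul_nonpos_of_nonpos_of_nonneg hy.le hz)
      rwa [abs_sub_comm] at this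
    · rw [if_neg hy, if_neg hz]; exact abs_min_sub_min_le' h1 h2

theorem Cls.pol (hp : 1 < p) (hδ : ∀ ε > 0, 0 < δ ε) {σ : Sp n ≃ₗᵢ[ℝ] Sp n} {ν : Sp n}
    (hσ : IsRefl σ ν) (hν : ‖ν‖ = 1) (h : Cls p C δ R B d a w) :
    Cls p C δ R B d a (pol σ ν w) := by
  refine ⟨?_, ?_, ?_, ?_, ?_, ?_, ?_⟩
  · obtain ⟨W, hW, hWC⟩ := h.sob
    have h1 := H0_pol hp hσ hW (h.continuous hδ) h.compact
    exact ⟨_, h1, (polG_energy hp hσ w hW.mU.1 h1.mU.1).trans hWC⟩
  · intro ε hε y z hyz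
    exact pol_mod hσ hν (h.mod ε hε) hyz
  · intro y
    unfold H68R3.pol
    split_ifs
    · exact le_max_of_le_left (h.nn y)
    · exact le_min (h.nn y) (h.nn _)
  · intro y
    unfold H68R3.pol
    split_ifs
    · exact max_le (h.le y) (h.le _)
    · exact min_le_of_left_le (h.le y)
  · unfold H68R3.pol
    simp [h.zero]
  · intro y hy
    have h1 := h.out y hy
    have h2 := h.out (σ y) (by rwa [σ.norm_map])
    unfold H68R3.pol
    simp [h1, h2]
  · intro r hr
    obtain ⟨y, hy, hy0⟩ := h.vanish r hr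
    rcases lt_trichotomy ⟪y, ν⟫ 0 with h1 | h1 | h1
    · refine ⟨y, hy, ?_⟩
      unfold H68R3.pol
      rw [if_neg (not_le.2 h1), hy0, min_eq_left (h.nn _)]
    · refine ⟨y, hy, ?_⟩
      unfold H68R3.pol
      rw [hσ.fix y h1, hy0]; simp
    · refine ⟨σ y, by rw [σ.norm_map, hy], ?_⟩
      unfold H68R3.pol
      rw [hσ.neg, if_neg (by linarith), hσ.invol, hy0, min_eq_right (h.nn _)]

/-- the functional -/
noncomputable def JJ (e : Sp n) (w : Sp n → ℝ) : ℝ := ∫ y, w y * ⟪y, e⟫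

theorem pol_add {σ : Sp n ≃ₗᵢ[ℝ] Sp n} {ν : Sp n} (hσ : IsRefl σ ν) (w : Sp n → ℝ) (y : Sp n) :
    pol σ ν w (σ y) - w (σ y) = - (pol σ ν w y - w y) := by
  unfold pol
  rw [hσ.neg, hσ.invol]
  have hmm := max_add_min (w y) (w (σ y))
  rcases lt_trichotomy ⟪y, ν⟫ 0 with h1 | h1 | h1
  · rw [if_pos (by linarith), if_neg (not_le.2 h1), max_comm]
    linarith
  · rw [hσ.fix y h1, h1]; simp
  · rw [if_neg (by linarith), if_pos h1.le, min_comm]
    linarith

/-- a maximiser of the functional is invariant under polarizations -/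
theorem max_invariant (hp : 1 < p) (hδ : ∀ ε > 0, 0 < δ ε) {e : Sp n}
    (h : Cls p C δ R B d a w)
    (hmax : ∀ v, Cls p C δ R B d a v → JJ e v ≤ JJ e w) {σ : Sp n ≃ₗᵢ[ℝ] Sp n} {ν : Sp n}
    (hσ : IsRefl σ ν) (hν : ‖ν‖ = 1) (he : 0 < ⟪ν, e⟫) {y : Sp n} (hy : 0 < ⟪y, ν⟫) :
    w (σ y) ≤ w y := by
  have hP := h.pol hp hδ hσ hν
  have hle := hmax _ hP
  have hc1 := h.continuous hδ
  have hc2 := hP.continuous hδ
  have hk1 := h.compact
  have hk2 := hP.compact
  set D : Sp n → ℝ := fun y => pol σ ν w y - w y with hD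
  have hDc : Continuous D := hc2.sub hc1
  have hDk : HasCompactSupport D := hk2.sub hk1
  have hci : Continuous fun y : Sp n => ⟪y, e⟫ := by fun_prop
  have i1 : Integrable (fun y => w y * ⟪y, e⟫) volume :=
    (hc1.mul hci).integrable_of_hasCompactSupport hk1.mul_right
  have i2 : Integrable (fun y => pol σ ν w y * ⟪y, e⟫) volume :=
    (hc2.mul hci).integrable_of_hasCompactSupport hk2.mul_right
  have i3 : Integrable (fun y => D y * ⟪y, e⟫) volume :=
    (hDc.mul hci).integrable_of_hasCompactSupport hDk.mul_right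
  have j1 : ∫ y, D y * ⟪y, e⟫ = JJ e (pol σ ν w) - JJ e w := by
    unfold JJ
    rw [← integral_sub i2 i1]
    congr 1; ext y; simp only [D]; ring
  have j2 : ∫ y, D (σ y) * ⟪σ y, e⟫ = ∫ y, D y * ⟪y, e⟫ :=
    σ.measurePreserving.integral_comp σ.toHomeomorph.measurableEmbedding
      (fun y => D y * ⟪y, e⟫)
  have i4 : Integrable (fun y => D (σ y) * ⟪σ y, e⟫) volume :=
    (σ.measurePreserving.integrable_comp_emb σ.toHomeomorph.measurableEmbedding).2 i3
  have j3 : ∫ y, (D y * ⟪y, e⟫ + D (σ y) * ⟪σ y, e⟫) ≤ 0 := by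
    rw [integral_add i3 i4, j2, j1]; linarith
  set F : Sp n → ℝ := fun y => D y * (2 * ⟪y, ν⟫ * ⟪ν, e⟫) with hF
  have eF : ∀ y, D y * ⟪y, e⟫ + D (σ y) * ⟪σ y, e⟫ = F y := by
    intro y
    have e1 : ⟪y, e⟫ - ⟪σ y, e⟫ = 2 * ⟪y, ν⟫ * ⟪ν, e⟫ := by
      rw [← inner_sub_left, hσ.move, inner_smul_left]; simp
    have e2 : D (σ y) = - D y := pol_add hσ w y
    simp only [F]
    rw [e2, ← e1]; ring
  simp_rw [eF] at j3
  have hFc : Continuous F := by
    have : Continuous fun y : Sp n => ⟪y, ν⟫ := by fun_prop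
    simp only [F]
    exact hDc.mul ((continuous_const.mul this).mul continuous_const)
  have hFk : HasCompactSupport F := hDk.mul_right
  have hFi : Integrable F volume := hFc.integrable_of_hasCompactSupport hFk
  have hF0 : ∀ y, 0 ≤ F y := by
    intro y
    simp only [F, D]
    unfold pol
    split_ifs with h1
    · have := le_max_left (w y) (w (σ y))
      have : 0 ≤ max (w y) (w (σ y)) - w y := by linarith
      positivity
    · push Not at h1
      have := min_le_left (w y) (w (σ y))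
      have h3 : 0 ≤ w y - min (w y) (w (σ y)) := by linarith
      have h4 : 0 ≤ 2 * (-⟪y, ν⟫) * ⟪ν, e⟫ := by
        have : 0 ≤ -⟪y, ν⟫ := by linarith
        positivity
      nlinarith [mul_nonneg h3 h4]
  have hint : ∫ y, F y = 0 := le_antisymm j3 (integral_nonneg hF0)
  have hae : F =ᵐ[volume] 0 := (integral_eq_zero_iff_of_nonneg hF0 hFi).1 hint
  have hFz : F = 0 := by
    refine (hFc.ae_eq_iff_eq volume continuous_const).1 ?_
    exact hae
  have h5 := congrFun hFz y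
  simp only [F, Pi.zero_apply] at h5
  have h6 : D y = 0 := by
    rcases mul_eq_zero.1 h5 with h | h
    · exact h
    · exfalso
      have : 0 < 2 * ⟪y, ν⟫ * ⟪ν, e⟫ := by positivity
      linarith
  simp only [D] at h6
  unfold H68R3.pol at h6
  rw [if_pos hy.le] at h6
  have := le_max_right (w y) (w (σ y))
  linarith

end Pool.Agent.H68R3
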