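import Pool.Agent.H68R3.Pol4

set_option autoImplicit false

open MeasureTheory Filter Topology Set
open scoped ENNReal NNReal RealInnerProductSpace

namespace Pool.Agent.H68R3

open Pool.Agent.Helper533.Polar

variable {n : ℕ} {p : ℝ}
variable {C : ℝ≥0∞} {δ : ℝ → ℝ} {R B d a : ℝ}

/-- sequential compactness of the class -/
theorem Cls.compact_seq (hp : 1 < p) (hδ : ∀ ε > 0, 0 < δ ε) (hC : C ≠ ∞) (hB : 0 ≤ B)
    {w : ℕ → Sp n → ℝ} (h : ∀ k, Cls p C δ R B d a (w k)) :
    ∃ (φ : ℕ → ℕ) (v : Sp n → ℝ), StrictMono φ ∧ Cls p C δ R B d a v ∧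
      ∀ y, Tendsto (fun k => w (φ k) y) atTop (𝓝 (v y)) := by
  have hP1 : (1 : ℝ≥0∞) ≤ ENNReal.ofReal p := by simpa using ENNReal.ofReal_le_ofReal hp.le
  have hP0 : ENNReal.ofReal p ≠ 0 := (zero_lt_one.trans_le hP1).ne'
  have hPt : ENNReal.ofReal p ≠ ∞ := ENNReal.ofReal_ne_top
  let q : ℕ → Sp n := TopologicalSpace.denseSeq (Sp n)
  have hcomp : IsCompact (Set.pi univ (fun _ : ℕ => Icc (0:ℝ) B)) :=
    isCompact_univ_pi fun _ => isCompact_Icc
  obtain ⟨l, -, φ, hφ, hl⟩ := hcomp.tendsto_subseq (x := fun k i => w k (q i)) (fun k => by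
    intro i _
    exact ⟨(h k).nn _, (h k).le _⟩)
  have hl' : ∀ i, Tendsto (fun k => w (φ k) (q i)) atTop (𝓝 (l i)) := fun i =>
    (tendsto_pi_nhds.1 hl) i
  have hcau : ∀ y, CauchySeq (fun k => w (φ k) y) := by
    intro y
    rw [Metric.cauchySeq_iff']
    intro ε hε
    have hε4 : 0 < ε / 4 := by linarith
    obtain ⟨i, hi⟩ := (TopologicalSpace.denseRange_denseSeq (Sp n)).exists_dist_lt y (hδ _ hε4)
    have h1 := (hl' i).cauchySeq
    rw [Metric.cauchySeq_iff'] at h1
    obtain ⟨N, hN⟩ := h1 (ε / 4) hε4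
    refine ⟨N, fun k hk => ?_⟩
    have h2 := hN k hk
    rw [Real.dist_eq] at h2 ⊢
    have h3 := (h (φ k)).mod (ε / 4) hε4 y (q i) hi
    have h4 := (h (φ N)).mod (ε / 4) hε4 y (q i) hi
    rw [abs_lt] at h2 ⊢
    rw [abs_le] at h3 h4
    constructor <;> linarith
  choose v hv using fun y => cauchySeq_tendsto_of_complete (hcau y)
  have hmod : ∀ ε > 0, ∀ y z, dist y z < δ ε → |v y - v z| ≤ ε := by
    intro ε hε y z hyz
    exact le_of_tendsto' ((hv y).sub (hv z)).abs fun k => (h (φ k)).mod ε hε y z hyz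
  have hnn : ∀ y, 0 ≤ v y := fun y => ge_of_tendsto' (hv y) fun k => (h (φ k)).nn y
  have hle : ∀ y, v y ≤ B := fun y => le_of_tendsto' (hv y) fun k => (h (φ k)).le y
  have hout : ∀ y, R ≤ ‖y‖ → v y = 0 := by
    intro y hy
    refine tendsto_nhds_unique (hv y) ?_
    simp only [fun k => (h (φ k)).out y hy]
    exact tendsto_const_nhds
  have hvc : Continuous v := by
    rw [Metric.continuous_iff]
    intro y ε hε
    refine ⟨δ (ε / 2), hδ _ (by linarith), fun z hz => ?_⟩
    rw [Real.dist_eq]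
    have := hmod (ε / 2) (by linarith) z y hz
    linarith
  have hvK : HasCompactSupport v := by
    refine HasCompactSupport.intro (isCompact_closedBall (0 : Sp n) R) fun y hy => hout y ?_
    simp only [Metric.mem_closedBall, dist_zero_right, not_le] at hy
    exact hy.le
  refine ⟨φ, v, hφ, ⟨?_, hmod, hnn, hle, ?_, hout, ?_⟩, hv⟩
  · choose W hW hWC using fun k => (h k).sob
    have hvL : MemLp v (ENNReal.ofReal p) volume := hvc.memLp_of_hasCompactSupport hvK
    have hlim : Tendsto (fun j => eLpNorm (fun x => v x - w (φ j) x) (ENNReal.ofReal p) volume)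
        atTop (𝓝 0) := by
      have hg : MemLp ((Metric.closedBall (0 : Sp n) R).indicator fun _ => B)
          (ENNReal.ofReal p) volume :=
        memLp_indicator_const _ Metric.isClosed_closedBall.measurableSet _
          (Or.inr (isCompact_closedBall (0 : Sp n) R).measure_lt_top.ne)
      refine Lp_dct hP0 hPt (g := (Metric.closedBall (0 : Sp n) R).indicator fun _ => B) hg ?_ ?_ ?_
      · intro j
        exact (hvc.sub ((h (φ j)).continuous hδ)).aestronglyMeasurable
      · intro j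
        filter_upwards with y
        by_cases hy : y ∈ Metric.closedBall (0 : Sp n) R
        · rw [indicator_of_mem hy, Real.norm_eq_abs, abs_le]
          have := hnn y
          have := hle y
          have := (h (φ j)).nn y
          have := (h (φ j)).le y
          constructor <;> linarith
        · rw [indicator_of_notMem hy]
          simp only [Metric.mem_closedBall, dist_zero_right, not_le] at hy
          rw [hout y hy.le, (h (φ j)).out y hy.le]; simp
      · filter_upwards with y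
        have := (hv y).const_sub (v y)
        simpa using this
    obtain ⟨F, hF, hFC, -⟩ := H0.weak_lim hp MeasurableSet.univ (fun j => hW (φ j)) (C1 := C) hC
      (fun j => hWC (φ j)) (fun j => by rw [indicator_univ]; exact hWC (φ j)) hvL hlim
    exact ⟨F, hF, hFC⟩
  · refine tendsto_nhds_unique (hv 0) ?_
    simp only [fun k => (h (φ k)).zero]
    exact tendsto_const_nhds
  · intro r hr
    choose y hy hy0 using fun k => (h (φ k)).vanish r hr
    obtain ⟨y', hy', ψ, hψ, hlim⟩ := (isCompact_sphere (0 : Sp n) r).tendsto_subseq (x := y)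
      (fun k => by simp [hy k])
    refine ⟨y', by simpa using hy', ?_⟩
    refine le_antisymm ?_ (hnn y')
    refine le_of_forall_pos_le_add fun ε hε => ?_
    have h1 : Tendsto (fun k => w (φ (ψ k)) y') atTop (𝓝 (v y')) := (hv y').comp hψ.tendsto_atTop
    refine le_of_tendsto h1 ?_
    have h2 := (Metric.tendsto_nhds.1 hlim) (δ ε) (hδ ε hε)
    filter_upwards [h2] with k hk
    have h3 := (h (φ (ψ k))).mod ε hε y' (y (ψ k)) (by rw [dist_comm]; exact hk)
    rw [hy0 (ψ k), sub_zero] at h3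
    linarith [le_abs_self (w (φ (ψ k)) y')]

/-- existence of a maximiser -/
theorem exists_max (hp : 1 < p) (hδ : ∀ ε > 0, 0 < δ ε) (hC : C ≠ ∞) (hB : 0 ≤ B) (e : Sp n)
    {u : Sp n → ℝ} (hu : Cls p C δ R B d a u) :
    ∃ w, Cls p C δ R B d a w ∧ ∀ v, Cls p C δ R B d a v → JJ e v ≤ JJ e w := by
  set S : Set ℝ := {t | ∃ v, Cls p C δ R B d a v ∧ JJ e v = t} with hS
  have hSne : S.Nonempty := ⟨_, u, hu, rfl⟩
  have hci : Continuous fun y : Sp n => ⟪y, e⟫ := by fun_prop
  set G : Sp n → ℝ := (Metric.closedBall (0 : Sp n) R).indicator (fun y => B * |⟪y, e⟫|) with hG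
  have hGi : Integrable G volume := by
    rw [hG, integrable_indicator_iff Metric.isClosed_closedBall.measurableSet]
    exact (continuous_const.mul hci.abs).continuousOn.integrableOn_compact
      (isCompact_closedBall (0 : Sp n) R)
  have hdom : ∀ v, Cls p C δ R B d a v → ∀ y, ‖v y * ⟪y, e⟫‖ ≤ G y := by
    intro v hv y
    by_cases hy : y ∈ Metric.closedBall (0 : Sp n) R
    · simp only [G]
      rw [indicator_of_mem hy, norm_mul, Real.norm_eq_abs, Real.norm_eq_abs, abs_of_nonneg (hv.nn y)]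
      exact mul_le_mul_of_nonneg_right (hv.le y) (abs_nonneg _)
    · simp only [G]
      rw [indicator_of_notMem hy]
      simp only [Metric.mem_closedBall, dist_zero_right, not_le] at hy
      rw [hv.out y hy.le]; simp
  have hSb : BddAbove S := by
    refine ⟨∫ y, G y, ?_⟩
    rintro t ⟨v, hv, rfl⟩
    exact (le_abs_self _).trans (norm_integral_le_of_norm_le hGi (Eventually.of_forall (hdom v hv)))
  obtain ⟨t, -, ht, htS⟩ := exists_seq_tendsto_sSup hSne hSb
  choose w hw hwt using htS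
  obtain ⟨φ, v, hφ, hv, hlim⟩ := Cls.compact_seq hp hδ hC hB hw
  refine ⟨v, hv, ?_⟩
  have h1 : Tendsto (fun k => JJ e (w (φ k))) atTop (𝓝 (JJ e v)) := by
    unfold JJ
    refine tendsto_integral_of_dominated_convergence G (fun k => ?_) hGi (fun k => ?_) ?_
    · exact (((hw (φ k)).continuous hδ).mul hci).aestronglyMeasurable
    · exact Eventually.of_forall (hdom _ (hw (φ k)))
    · filter_upwards with y
      exact (hlim y).mul_const _
  have h2 : Tendsto (fun k => JJ e (w (φ k))) atTop (𝓝 (sSup S)) := by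
    simp only [hwt]
    exact ht.comp hφ.tendsto_atTop
  have h3 : JJ e v = sSup S := tendsto_nhds_unique h1 h2
  intro v' hv'
  rw [h3]
  exact le_csSup hSb ⟨v', hv', rfl⟩

/-- **Cap symmetrization**: there is a competitor that vanishes on the half-line
`{-r e : r ≥ d}`. -/
theorem exists_symm (hp : 1 < p) (hδ : ∀ ε > 0, 0 < δ ε) (hC : C ≠ ∞) (hB : 0 ≤ B) {e : Sp n}
    (he : ‖e‖ = 1) (hd : 0 < d) {u : Sp n → ℝ} (hu : Cls p C δ R B d a u) :
    ∃ w, Cls p C δ R B d a w ∧ ∀ r, d ≤ r → w (-(r • e)) = 0 := by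
  obtain ⟨w, hw, hmax⟩ := exists_max hp hδ hC hB e hu
  refine ⟨w, hw, fun r hr => ?_⟩
  obtain ⟨y0, hy0, hz⟩ := hw.vanish r hr
  have hr0 : 0 < r := hd.trans_le hr
  set z : Sp n := -(r • e) with hzdef
  have hzn : ‖z‖ = r := by rw [hzdef, norm_neg, norm_smul, he, mul_one, Real.norm_eq_abs,
    abs_of_pos hr0]
  by_cases hyz : y0 = z
  · rw [← hyz, hz]
  have hne : y0 - z ≠ 0 := sub_ne_zero.2 hyz
  have hN : 0 < ‖y0 - z‖ := norm_pos_iff.2 hne
  set ν : Sp n := (1 / ‖y0 - z‖) • (y0 - z) with hν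
  have hν1 : ‖ν‖ = 1 := by
    rw [hν, norm_smul, Real.norm_eq_abs, abs_of_pos (by positivity)]
    field_simp
  -- strict Cauchy-Schwarz
  have hsq : ‖y0 - z‖ ^ 2 = 2 * r ^ 2 - 2 * ⟪y0, z⟫ := by
    rw [norm_sub_sq_real, hy0, hzn]; ring
  have hlt : ⟪y0, z⟫ < r ^ 2 := by
    have : 0 < ‖y0 - z‖ ^ 2 := by positivity
    linarith
  have hze : ⟪y0, z⟫ = - (r * ⟪y0, e⟫) := by
    rw [hzdef, inner_neg_right, inner_smul_right]
  have hzz : ⟪z, e⟫ = - r := by
    rw [hzdef, inner_neg_left, inner_smul_left, real_inner_self_eq_norm_sq, he]; simp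
  have hνe : 0 < ⟪ν, e⟫ := by
    rw [hν, inner_smul_left, inner_sub_left, hzz]
    have h1 : 0 < ⟪y0, e⟫ - -r := by
      rw [hze] at hlt
      have : 0 < r * (⟪y0, e⟫ + r) := by nlinarith
      have := (pos_iff_pos_of_mul_pos this).1 hr0
      linarith
    simp only [conj_trivial]
    positivity
  have hyν : 0 < ⟪y0, ν⟫ := by
    rw [hν, inner_smul_right, inner_sub_right, real_inner_self_eq_norm_sq, hy0]
    have : 0 < r ^ 2 - ⟪y0, z⟫ := by linarith
    positivity
  have hσ := exists_refl ν hν1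
  have key := max_invariant hp hδ hw hmax hσ hν1 hνe hyν
  have hmap : (ℝ ∙ ν)ᗮ.reflection y0 = z := by
    have h1 := hσ.move y0
    have h2 : (2 * ⟪y0, ν⟫) • ν = y0 - z := by
      rw [hν, inner_smul_right, inner_sub_right, real_inner_self_eq_norm_sq, hy0, smul_smul]
      have : 2 * (1 / ‖y0 - z‖ * (r ^ 2 - ⟪y0, z⟫)) * (1 / ‖y0 - z‖) = 1 := by
        field_simp
        rw [hsq]; ring
      rw [this, one_smul]
    rw [h2] at h1
    have h3 : y0 - (ℝ ∙ ν)ᗮ.reflection y0 = y0 - z := h1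
    exact sub_right_inj.1 h3
  rw [hmap, hz] at key
  exact le_antisymm key (hw.nn _)

end Pool.Agent.H68R3
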